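import Mathlib

/-!
# U1: the polynomial part of a `d`-th root, with integral coefficients
-/

set_option autoImplicit false

namespace Pool.Agent.Lib.MP_50b5e1_nt.U

open Polynomial

/-- the difference of two `d`-th powers of monic polynomials of the same degree -/
theorem pow_sub_pow_eq {R : Type*} [CommRing R] (A B : R[X]) (d : ℕ) :
    A ^ d - B ^ d = (A - B) * ∑ i ∈ Finset.range d, A ^ i * B ^ (d - 1 - i) := by
  rw [mul_comm]
  exact (Commute.geom_sum₂_mul (Commute.all A B) d).symm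

theorem natDegree_term {A B : ℤ[X]} {a d : ℕ} (hA : A.Monic) (hB : B.Monic)
    (ha : A.natDegree = a) (hb : B.natDegree = a) {i : ℕ} (hi : i < d) :
    (A ^ i * B ^ (d - 1 - i)).natDegree = a * (d - 1) ∧ (A ^ i * B ^ (d - 1 - i)).Monic := by
  refine ⟨?_, (hA.pow i).mul (hB.pow _)⟩
  rw [(hA.pow i).natDegree_mul (hB.pow _), hA.natDegree_pow, hB.natDegree_pow, ha, hb,
    ← add_mul, mul_comm]
  congr 1
  omega

theorem sum_coeff_top {A B : ℤ[X]} {a d : ℕ} (hA : A.Monic) (hB : B.Monic)
    (ha : A.natDegree = a) (hb : B.natDegree = a) :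
    (∑ i ∈ Finset.range d, A ^ i * B ^ (d - 1 - i)).coeff (a * (d - 1)) = d := by
  rw [finsetSum_coeff]
  calc ∑ i ∈ Finset.range d, (A ^ i * B ^ (d - 1 - i)).coeff (a * (d - 1))
      = ∑ i ∈ Finset.range d, (1 : ℤ) := by
        refine Finset.sum_congr rfl fun i hi => ?_
        obtain ⟨h1, h2⟩ := natDegree_term hA hB ha hb (Finset.mem_range.1 hi)
        rw [← h1]
        exact h2
    _ = d := by simp

theorem sum_coeff_above {A B : ℤ[X]} {a d : ℕ} (hA : A.Monic) (hB : B.Monic)
    (ha : A.natDegree = a) (hb : B.natDegree = a) {n : ℕ} (hn : a * (d - 1) < n) :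
    (∑ i ∈ Finset.range d, A ^ i * B ^ (d - 1 - i)).coeff n = 0 := by
  rw [finsetSum_coeff]
  refine Finset.sum_eq_zero fun i hi => ?_
  obtain ⟨h1, h2⟩ := natDegree_term hA hB ha hb (Finset.mem_range.1 hi)
  exact coeff_eq_zero_of_natDegree_lt (by omega)

/-- coefficients of a power of a polynomial which is `X^a` modulo `d` -/
theorem dvd_coeff_pow {A : ℤ[X]} {a d : ℕ} (hd : 1 ≤ d) (hA : A.Monic) (ha : A.natDegree = a)
    (hdiv : ∀ i < a, (d : ℤ) ∣ A.coeff i) {n : ℕ} (hn : n ≠ a * d) :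
    (d : ℤ) ^ 2 ∣ (A ^ d).coeff n := by
  have h1 : C (d : ℤ) ∣ A - X ^ a := by
    rw [C_dvd_iff_dvd_coeff]
    intro i
    rw [coeff_sub, coeff_X_pow]
    rcases lt_trichotomy i a with h | h | h
    · rw [if_neg (by omega)]
      simpa using hdiv i h
    · rw [if_pos h, h, ← ha]
      rw [hA.coeff_natDegree]
      simp
    · rw [if_neg (by omega), coeff_eq_zero_of_natDegree_lt (by omega)]
      simp
  obtain ⟨V, hV⟩ := h1
  have h2 : A = X ^ a + C (d : ℤ) * V := by rw [← hV]; ring
  obtain ⟨k, hk⟩ := powAddExpansion (X ^ a : ℤ[X]) (C (d : ℤ) * V) d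
  have h3 : A ^ d = X ^ (a * d) + C ((d : ℤ) ^ 2) * ((X ^ a) ^ (d - 1) * V + k * V ^ 2) := by
    rw [h2, hk, ← pow_mul]
    have : ((d : ℕ) : ℤ[X]) = C (d : ℤ) := by simp
    rw [this]
    simp only [map_pow]
    ring
  rw [h3, coeff_add, coeff_X_pow, if_neg hn, zero_add, coeff_C_mul]
  exact Dvd.intro _ rfl

/-- **The polynomial part of a `d`-th root.** -/
theorem exists_root {d a : ℕ} (hd : 1 ≤ d) {P : ℤ[X]} (hP : P.Monic)
    (hdeg : P.natDegree = a * d) (hdiv : ∀ i < a * d, (d : ℤ) ^ 2 ∣ P.coeff i) :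
    ∃ A : ℤ[X], A.Monic ∧ A.natDegree = a ∧
      ∀ n, a * (d - 1) ≤ n → (P - A ^ d).coeff n = 0 := by
  have key : ∀ j ≤ a, ∃ A : ℤ[X], A.Monic ∧ A.natDegree = a ∧ (∀ i < a, (d : ℤ) ∣ A.coeff i) ∧
      ∀ n, a * d - j ≤ n → (P - A ^ d).coeff n = 0 := by
    intro j
    induction j with
    | zero =>
      intro _
      refine ⟨X ^ a, monic_X_pow a, natDegree_X_pow a, fun i hi => ?_, fun n hn => ?_⟩
      · rw [coeff_X_pow, if_neg (by omega)]
        exact dvd_zero _
      · rw [← pow_mul, coeff_sub, coeff_X_pow]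
        rcases eq_or_ne n (a * d) with h | h
        · rw [if_pos h, h, ← hdeg, hP.coeff_natDegree, sub_self]
        · rw [if_neg h, coeff_eq_zero_of_natDegree_lt (by omega), sub_self]
    | succ j ih =>
      intro hj
      obtain ⟨A, hA, ha, hdA, hcA⟩ := ih (by omega)
      have had : a ≤ a * d := Nat.le_mul_of_pos_right a (by omega)
      set i0 : ℕ := a * d - j - 1 with hi0
      have h1 : (d : ℤ) ^ 2 ∣ (P - A ^ d).coeff i0 := by
        rw [coeff_sub]
        exact dvd_sub (hdiv i0 (by omega)) (dvd_coeff_pow hd hA ha hdA (by omega))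
      obtain ⟨w, hw⟩ := h1
      set D : ℤ[X] := C ((d : ℤ) * w) * X ^ (a - j - 1) with hD
      have hDdeg : D.degree < A.degree := by
        refine lt_of_le_of_lt (degree_C_mul_X_pow_le _ _) ?_
        rw [degree_eq_natDegree hA.ne_zero, ha]
        exact_mod_cast (by omega : a - j - 1 < a)
      have hB : (A + D).Monic := hA.add_of_left hDdeg
      have hb : (A + D).natDegree = a := by
        rw [natDegree_add_eq_left_of_degree_lt hDdeg, ha]
      refine ⟨A + D, hB, hb, fun i hi => ?_, fun n hn => ?_⟩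
      · rw [coeff_add]
        refine dvd_add (hdA i hi) ?_
        rw [hD, coeff_C_mul]
        exact Dvd.dvd.mul_right (Dvd.intro _ rfl) _
      · have h2 : P - (A + D) ^ d = (P - A ^ d)
            - D * ∑ i ∈ Finset.range d, (A + D) ^ i * A ^ (d - 1 - i) := by
          have := pow_sub_pow_eq (A + D) A d
          rw [add_sub_cancel_left] at this
          rw [← this]
          ring
        rw [h2, coeff_sub, hD, mul_assoc, coeff_C_mul, mul_comm (X ^ (a - j - 1)), coeff_mul_X_pow']
        have e1 : a * (d - 1) + a = a * d := by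
          obtain ⟨d', rfl⟩ : ∃ d', d = d' + 1 := ⟨d - 1, by omega⟩
          simp [mul_add]
        rcases Nat.lt_or_ge i0 n with h | h
        · rw [hcA n (by omega), if_pos (by omega), sum_coeff_above hB hA hb ha (by omega)]
          simp
        · have h3 : n = i0 := by omega
          rw [h3, hw, if_pos (by omega)]
          have h4 : i0 - (a - j - 1) = a * (d - 1) := by omega
          rw [h4, sum_coeff_top hB hA hb ha]
          ring
  obtain ⟨A, hA, ha, -, hc⟩ := key a le_rfl
  refine ⟨A, hA, ha, fun n hn => hc n ?_⟩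
  have e1 : a * (d - 1) + a = a * d := by
    obtain ⟨d', rfl⟩ : ∃ d', d = d' + 1 := ⟨d - 1, by omega⟩
    simp [mul_add]
  omega

end Pool.Agent.Lib.MP_50b5e1_nt.U
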