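import Pool.Agent.Lib.MP_50b5e1_nt.U.U9

/-!
# U10: the exact relation and logarithms
-/

set_option autoImplicit false

namespace Pool.Agent.Lib.MP_50b5e1_nt.U

open Polynomial

/-- above the threshold the remainders satisfy the same relation as the node polynomials -/
theorem exact_rel {a b d : ℕ} (hab : b < a) (hd : 2 ≤ d) {A R B S : ℤ[X]} {l : ℝ}
    (hl : 1 ≤ l) {P1 P2 : ℤ[X]} (hP1 : P1 = A ^ d + R) (hP2 : P2 = B ^ d + S)
    (hR0 : R.natDegree < a * (d - 1)) (hS0 : S.natDegree < b * (d - 1))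
    (hR : wn R l ≤ l ^ (a * d)) (hS : wn S l ≤ l ^ (b * d))
    {Y1 Y2 : ℤ} (h12 : Y1 ≤ Y2) (hbig : 4 * (2 * (d : ℝ) ^ 2) ^ a * l ^ (a + 1) < Y1) (hlY : l ≤ Y1)
    (hsA : (d : ℝ) * wn (A - X ^ a) (Y1 : ℝ) / (Y1 : ℝ) ^ a ≤ 1 / 2)
    (hsB : (d : ℝ) * wn (B - X ^ b) (Y2 : ℝ) / (Y2 : ℝ) ^ b ≤ 1 / 2)
    (hval : P1.eval Y1 = (2 * (d : ℤ) ^ 2) ^ ((a - b) * d) * P2.eval Y2) (hpos : 0 < P2.eval Y2) :
    R.eval Y1 = (2 * (d : ℤ) ^ 2) ^ ((a - b) * d) * S.eval Y2 := by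
  have hl0 : 0 < l := by linarith
  have hY1 : (0 : ℝ) < Y1 := lt_of_lt_of_le hl0 hlY
  have h12r : (Y1 : ℝ) ≤ Y2 := by exact_mod_cast h12
  have hY2 : (0 : ℝ) < Y2 := lt_of_lt_of_le hY1 h12r
  have hposr : (0 : ℝ) < ((P2.eval Y2 : ℤ) : ℝ) := by exact_mod_cast hpos
  set s : ℝ := 2 * (d : ℝ) ^ 2 with hs
  have hdr : (2 : ℝ) ≤ d := by exact_mod_cast hd
  have hs1 : 1 ≤ s := by rw [hs]; nlinarith
  obtain ⟨T2, hT2, hT2d⟩ : ∃ T : ℝ, 0 ≤ T ∧ T ^ d = ((P2.eval Y2 : ℤ) : ℝ) :=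
    ⟨((P2.eval Y2 : ℤ) : ℝ) ^ ((d : ℝ)⁻¹), by positivity,
      Real.rpow_inv_natCast_pow hposr.le (by omega)⟩
  have hT1d : (s ^ (a - b) * T2) ^ d = ((P1.eval Y1 : ℤ) : ℝ) := by
    rw [mul_pow, hT2d, ← pow_mul, hval]
    push_cast
    rw [hs]
  have c1 := root_close (T := s ^ (a - b) * T2) hd hP1 hR0 hl hR hlY hsA (by positivity) hT1d
  have c2 := root_close (T := T2) hd hP2 hS0 hl hS (hlY.trans h12r) hsB hT2 hT2d
  set α := A.eval Y1 with hα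
  set β := B.eval Y2 with hβ
  have key : α = (2 * (d : ℤ) ^ 2) ^ (a - b) * β := by
    have c3 : |(α : ℝ) - s ^ (a - b) * β| < 1 := by
      have e1 : (α : ℝ) - s ^ (a - b) * β
          = -(s ^ (a - b) * T2 - α) + s ^ (a - b) * (T2 - β) := by ring
      rw [e1]
      refine lt_of_le_of_lt (abs_add_le _ _) ?_
      rw [abs_neg, abs_mul, abs_of_nonneg (by positivity : (0 : ℝ) ≤ s ^ (a - b))]
      have hla : (0 : ℝ) < l ^ (a + 1) := by positivity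
      have hsa : (1 : ℝ) ≤ s ^ a := one_le_pow₀ hs1
      have b1 : 2 * l ^ (a + 1) / (Y1 : ℝ) < 1 / 2 := by
        rw [div_lt_iff₀ hY1]
        nlinarith
      have b2 : s ^ (a - b) * |T2 - β| < 1 / 2 := by
        have b3 : s ^ (a - b) * |T2 - β| ≤ s ^ a * (2 * l ^ (a + 1) / Y1) := by
          refine mul_le_mul (pow_le_pow_right₀ hs1 (by omega)) (c2.trans ?_) (abs_nonneg _)
            (by positivity)
          refine div_le_div₀ (by positivity) ?_ hY1 h12r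
          exact mul_le_mul_of_nonneg_left (pow_le_pow_right₀ hl (by omega)) (by norm_num)
        refine lt_of_le_of_lt b3 ?_
        rw [← mul_div_assoc, div_lt_iff₀ hY1]
        nlinarith
      linarith
    have c4 : |α - (2 * (d : ℤ) ^ 2) ^ (a - b) * β| < 1 := by
      have : ((|α - (2 * (d : ℤ) ^ 2) ^ (a - b) * β| : ℤ) : ℝ) < 1 := by
        push_cast
        rw [hs] at c3
        exact c3
      exact_mod_cast this
    have c5 := Int.abs_lt_one_iff.1 c4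
    linarith
  have r1 : R.eval Y1 = P1.eval Y1 - α ^ d := by
    rw [hP1]; simp only [eval_add, eval_pow]; ring
  have r2 : S.eval Y2 = P2.eval Y2 - β ^ d := by
    rw [hP2]; simp only [eval_add, eval_pow]; ring
  rw [r1, r2, hval, key, mul_pow, ← pow_mul]
  ring

theorem log_near {x y q : ℝ} (hy : 0 < y) (hq0 : 0 ≤ q) (hq : q < 1) (h : |x - y| ≤ y * q) :
    0 < x ∧ ∃ ε, Real.log x = Real.log y + ε ∧ Real.log (1 - q) ≤ ε ∧ ε ≤ Real.log (1 + q) := by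
  obtain ⟨h1, h2⟩ := abs_le.1 h
  have h3 : y * (1 - q) ≤ x := by linarith
  have h4 : x ≤ y * (1 + q) := by linarith
  have h5 : 0 < y * (1 - q) := mul_pos hy (by linarith)
  have hx : 0 < x := lt_of_lt_of_le h5 h3
  refine ⟨hx, Real.log x - Real.log y, by ring, ?_, ?_⟩
  · have := Real.log_le_log h5 h3
    rw [Real.log_mul hy.ne' (by linarith)] at this
    linarith
  · have := Real.log_le_log hx h4
    rw [Real.log_mul hy.ne' (by linarith)] at this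
    linarith

/-- logarithm of the value of the node polynomial -/
theorem log_node {P : ℤ[X]} {N : ℕ} {Y : ℤ} (hY : 0 < Y)
    (h : wn (P - X ^ N) (Y : ℝ) ≤ (Y : ℝ) ^ N / 7) :
    0 < P.eval Y ∧ ∃ ε, Real.log ((P.eval Y : ℤ) : ℝ) = N * Real.log Y + ε ∧
      Real.log (6 / 7) ≤ ε ∧ ε ≤ Real.log (8 / 7) := by
  have hY0 : (0 : ℝ) < Y := by exact_mod_cast hY
  have h1 := value_node hY h
  obtain ⟨h2, ε, h3, h4, h5⟩ := log_near (q := 1 / 7) (pow_pos hY0 N) (by norm_num) (by norm_num)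
    (by linarith : |((P.eval Y : ℤ) : ℝ) - (Y : ℝ) ^ N| ≤ (Y : ℝ) ^ N * (1 / 7))
  refine ⟨by exact_mod_cast h2, ε, ?_, ?_, ?_⟩
  · rw [h3, Real.log_pow]
  · refine le_trans (le_of_eq ?_) h4
    norm_num
  · refine h5.trans (le_of_eq ?_)
    norm_num

/-- logarithm of the value of the remainder -/
theorem log_lead {R : ℤ[X]} {N j : ℕ} {l : ℝ} (hl : 1 ≤ l) (hR : R ≠ 0)
    (hj : R.natDegree + j = N) (h : wn R l ≤ l ^ N) {Y : ℤ} (hY : 4 * l ^ (j + 1) ≤ Y) :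
    ∃ ε, Real.log |((R.eval Y : ℤ) : ℝ)| = Real.log |(R.leadingCoeff : ℝ)|
        + R.natDegree * Real.log Y + ε ∧
      Real.log (3 / 4) ≤ ε ∧ ε ≤ Real.log (5 / 4) := by
  have h1 := value_lead hl hR hj h hY
  have hl0 : 0 < l := by linarith
  have hY0 : (0 : ℝ) < Y := lt_of_lt_of_le (by positivity) hY
  have h0 := one_le_lead hR
  set ρ : ℝ := (R.leadingCoeff : ℝ) with hρ
  have h2 : |ρ * (Y : ℝ) ^ R.natDegree| = |ρ| * (Y : ℝ) ^ R.natDegree := by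
    rw [abs_mul, abs_of_nonneg (by positivity : (0 : ℝ) ≤ (Y : ℝ) ^ R.natDegree)]
  have h3 := (abs_abs_sub_abs_le ((R.eval Y : ℤ) : ℝ) (ρ * (Y : ℝ) ^ R.natDegree)).trans h1
  rw [h2] at h3
  obtain ⟨h4, ε, h5, h6, h7⟩ := log_near (q := 1 / 4)
    (mul_pos (lt_of_lt_of_le one_pos h0) (pow_pos hY0 R.natDegree)) (by norm_num) (by norm_num)
    (h3.trans (le_of_eq (by ring)))
  refine ⟨ε, ?_, ?_, ?_⟩
  · rw [h5, Real.log_mul (by linarith) (pow_pos hY0 _).ne', Real.log_pow]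
  · refine le_trans (le_of_eq ?_) h6
    norm_num
  · refine h7.trans (le_of_eq ?_)
    norm_num

end Pool.Agent.Lib.MP_50b5e1_nt.U
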