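import Pool.Agent.Lib.MP_50b5e1_nt.U.U10
import Pool.Agent.Lib.MP_50b5e1_nt.Two

/-!
# U11: the uniform bound, real number lemmas
-/

set_option autoImplicit false

namespace Pool.Agent.Lib.MP_50b5e1_nt.U

open Polynomial

/-- comparison of a product with `x` through logarithms -/
theorem lt_of_log {x y : ℝ} (hx : 0 < x) (hy : 0 < y) (h : Real.log x < Real.log y) : x < y :=
  (Real.log_lt_log_iff hx hy).1 h

/-- the final step: two linear relations between logarithms -/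
theorem log_system {a b d j0 j1 : ℝ} (hd : 0 < d) {y1 y2 L r s e1 e2 n1 n2 : ℝ}
    (h1 : r + (a * d - j0) * y1 + e1 = (a * d - b * d) * L + (s + (b * d - j1) * y2 + e2))
    (h2 : a * d * y1 + n1 = (a * d - b * d) * L + (b * d * y2 + n2)) :
    (a * j1 - b * j0) * y1 = j1 * (a - b) * L + b * (s - r - (e1 - e2))
      + (b - j1 / d) * (n1 - n2) := by
  have h3 : d * ((a * j1 - b * j0) * y1) = d * (j1 * (a - b) * L + b * (s - r - (e1 - e2))
      + (b - j1 / d) * (n1 - n2)) := by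
    have h4 : d * (j1 / d) = j1 := by field_simp
    linear_combination (b * d) * h1 - (b * d) * h2 + j1 * h2 + (n1 - n2) * h4
  exact mul_left_cancel₀ hd.ne' h3

theorem one_lt_log_four : 1 < Real.log 4 := by
  rw [Real.lt_log_iff_exp_lt (by norm_num)]
  have := Real.exp_one_lt_d9
  linarith

theorem params {d k : ℝ} (hd : 2 ≤ d) (hk : 4 ≤ k) (h2d : 2 * d ≤ k) :
    1 ≤ 10 * d ^ 2 * k ^ 2 ∧ Real.log (10 * d ^ 2 * k ^ 2) ≤ 5 * Real.log k ∧
    1 ≤ 2 * d ^ 2 ∧ Real.log (2 * d ^ 2) ≤ 2 * Real.log k := by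
  have hd2 : 4 * d ^ 2 ≤ k ^ 2 := by nlinarith
  have hd1 : (1 : ℝ) ≤ d ^ 2 := by nlinarith
  have hk2' : (1 : ℝ) ≤ k ^ 2 := by nlinarith
  have hl1 : 1 ≤ 10 * d ^ 2 * k ^ 2 := by
    have : (1 : ℝ) ≤ d ^ 2 * k ^ 2 := by nlinarith
    nlinarith
  refine ⟨hl1, ?_, by nlinarith, ?_⟩
  · have e1 : 10 * d ^ 2 * k ^ 2 ≤ k ^ 5 := by
      have e2 : 10 * d ^ 2 ≤ k ^ 3 := by nlinarith
      have e3 : k ^ 5 = k ^ 3 * k ^ 2 := by ring
      rw [e3]
      exact mul_le_mul_of_nonneg_right e2 (by positivity)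
    have := Real.log_le_log (by linarith) e1
    rw [Real.log_pow] at this
    exact_mod_cast this
  · have e1 : 2 * d ^ 2 ≤ k ^ 2 := by nlinarith
    have := Real.log_le_log (by nlinarith) e1
    rw [Real.log_pow] at this
    exact_mod_cast this

theorem thresholds {a b : ℕ} {s l K Y : ℝ} (ha : 2 ≤ a) (hb : 1 ≤ b) (hK4 : Real.log 4 ≤ K)
    (hs : 1 ≤ s) (hl : 1 ≤ l) (hLs : Real.log s ≤ 2 * K) (hLl : Real.log l ≤ 5 * K)
    (hY : 0 < Y) (hy : 15 * (a * b) * K < Real.log Y) :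
    4 * s ^ a * l ^ (a + 1) < Y ∧ 4 * l ^ (2 * a + 1) < Y := by
  have hK1 : 1 < K := by linarith [one_lt_log_four]
  have har : (2 : ℝ) ≤ a := by exact_mod_cast ha
  have hbr : (1 : ℝ) ≤ b := by exact_mod_cast hb
  have haK : (a : ℝ) * K ≤ a * b * K := by
    have : 0 ≤ (a : ℝ) * K := by positivity
    nlinarith
  have hKaK : 2 * K ≤ a * K := by nlinarith
  constructor
  · refine lt_of_log (by positivity) hY ?_
    rw [Real.log_mul (by positivity) (by positivity), Real.log_mul (by norm_num) (by positivity),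
      Real.log_pow, Real.log_pow]
    push_cast
    have e1 : (a : ℝ) * Real.log s ≤ a * (2 * K) :=
      mul_le_mul_of_nonneg_left hLs (by positivity)
    have e2 : ((a : ℝ) + 1) * Real.log l ≤ (a + 1) * (5 * K) :=
      mul_le_mul_of_nonneg_left hLl (by positivity)
    linarith
  · refine lt_of_log (by positivity) hY ?_
    rw [Real.log_mul (by norm_num) (by positivity), Real.log_pow]
    push_cast
    have e2 : (2 * (a : ℝ) + 1) * Real.log l ≤ (2 * a + 1) * (5 * K) :=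
      mul_le_mul_of_nonneg_left hLl (by positivity)
    linarith

/-- the generic case -/
theorem generic {a b j0 j1 d K L Ll y1 r s e n : ℝ} (hb : 1 ≤ b) (hba : b ≤ a) (hd : 2 ≤ d)
    (hK : 1 < K) (hK4 : Real.log 4 ≤ K)
    (hL0 : 0 ≤ L) (hL : L ≤ 2 * K) (hLl0 : 0 ≤ Ll) (hLl : Ll ≤ 5 * K) (hy1 : 0 < y1)
    (hj0 : 0 ≤ j0) (hj0a : j0 ≤ 2 * a) (hj1 : 0 ≤ j1) (hj1b : j1 ≤ 2 * b)
    (hr0 : 0 ≤ r) (hr : r ≤ j0 * Ll) (hs0 : 0 ≤ s) (hs : s ≤ j1 * Ll)
    (hE1 : e ≤ Real.log (5 / 3)) (hE2 : -Real.log (5 / 3) ≤ e)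
    (hH1 : n ≤ Real.log (4 / 3)) (hH2 : -Real.log (4 / 3) ≤ n)
    (habs : 1 ≤ |a * j1 - b * j0|)
    (main : (a * j1 - b * j0) * y1 = j1 * (a - b) * L + b * (s - r - e) + (b - j1 / d) * n) :
    y1 ≤ 15 * (a * b) * K := by
  have hq : Real.log (5 / 3) + Real.log (4 / 3) < Real.log 4 := by
    rw [← Real.log_mul (by norm_num) (by norm_num)]
    exact Real.log_lt_log (by norm_num) (by norm_num)
  have ha0 : 0 ≤ a := by linarith
  have hb0 : 0 ≤ b := by linarith
  have hK0 : 0 ≤ K := by linarith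
  have hjd : j1 / d ≤ b := by
    rw [div_le_iff₀ (by linarith)]
    nlinarith
  have hjd0 : 0 ≤ j1 / d := by positivity
  have z3 : y1 ≤ |(a * j1 - b * j0) * y1| := by
    rw [abs_mul, abs_of_pos hy1]
    nlinarith
  rw [main] at z3
  have b1 : |j1 * (a - b) * L| ≤ 4 * (a * b * K) := by
    have z4 : 0 ≤ a - b := by linarith
    rw [abs_of_nonneg (by positivity)]
    calc j1 * (a - b) * L ≤ (2 * b) * a * (2 * K) := by
          refine mul_le_mul (mul_le_mul hj1b (by linarith) z4 (by positivity)) hL hL0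
            (by positivity)
      _ = 4 * (a * b * K) := by ring
  have b2 : |s - r| ≤ 10 * (a * K) := by
    have z5 : r ≤ 10 * (a * K) := by
      refine hr.trans ?_
      calc j0 * Ll ≤ (2 * a) * (5 * K) := mul_le_mul hj0a hLl hLl0 (by positivity)
        _ = 10 * (a * K) := by ring
    have z6 : s ≤ 10 * (a * K) := by
      refine hs.trans ?_
      calc j1 * Ll ≤ (2 * a) * (5 * K) :=
            mul_le_mul (by linarith) hLl hLl0 (by positivity)
        _ = 10 * (a * K) := by ring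
    rw [abs_le]
    constructor <;> linarith
  have b3 : |b * (s - r - e)| ≤ 10 * (a * b * K) + b * Real.log (5 / 3) := by
    rw [abs_mul, abs_of_nonneg hb0]
    have z7 : |s - r - e| ≤ 10 * (a * K) + Real.log (5 / 3) := by
      refine (abs_sub _ _).trans ?_
      have : |e| ≤ Real.log (5 / 3) := abs_le.2 ⟨hE2, hE1⟩
      linarith
    calc b * |s - r - e| ≤ b * (10 * (a * K) + Real.log (5 / 3)) :=
          mul_le_mul_of_nonneg_left z7 hb0
      _ = _ := by ring
  have b4 : |(b - j1 / d) * n| ≤ b * Real.log (4 / 3) := by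
    rw [abs_mul]
    refine mul_le_mul ?_ (abs_le.2 ⟨hH2, hH1⟩) (abs_nonneg _) hb0
    rw [abs_le]
    constructor <;> linarith
  have b5 := abs_add_le (j1 * (a - b) * L + b * (s - r - e)) ((b - j1 / d) * n)
  have b6 := abs_add_le (j1 * (a - b) * L) (b * (s - r - e))
  have b7 : b * (Real.log (5 / 3) + Real.log (4 / 3)) ≤ a * b * K := by
    have z9 : b * (Real.log (5 / 3) + Real.log (4 / 3)) ≤ b * K :=
      mul_le_mul_of_nonneg_left (by linarith) hb0
    have z8 : b * K ≤ a * (b * K) := by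
      have : 0 ≤ b * K := by positivity
      nlinarith
    linarith
  linarith

/-- comparison of the two leading coefficients in the exceptional case -/
theorem lead_compare {d : ℝ} (hd : 2 ≤ d) :
    4 * (2 * d ^ 2) ^ 2 * |(-((d ^ 2) ^ 2 * (d * (d ^ 2 - 1) / 6)))|
      ≤ |(-((d ^ 2) ^ 4 * (8 * d * (4 * d ^ 2 - 1) * (d ^ 2 - 1) / 45)))| := by
  have z1 : (0 : ℝ) ≤ d ^ 2 - 1 := by nlinarith
  have z2 : (0 : ℝ) ≤ 4 * d ^ 2 - 1 := by nlinarith
  have z4 : (0 : ℝ) ≤ 4 * d ^ 2 - 16 := by nlinarith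
  rw [abs_neg, abs_neg, abs_of_nonneg (by positivity), abs_of_nonneg (by positivity)]
  have z5 : (d ^ 2) ^ 4 * (8 * d * (4 * d ^ 2 - 1) * (d ^ 2 - 1) / 45)
      - 4 * (2 * d ^ 2) ^ 2 * ((d ^ 2) ^ 2 * (d * (d ^ 2 - 1) / 6))
      = 8 / 45 * (d ^ 9 * (d ^ 2 - 1) * (4 * d ^ 2 - 16)) := by ring
  have z6 : 0 ≤ 8 / 45 * (d ^ 9 * (d ^ 2 - 1) * (4 * d ^ 2 - 16)) := by positivity
  linarith

/-- the exceptional case -/
theorem exceptional {d L r σ e n ρ' σ' s : ℝ} (hd : 2 ≤ d) (hs : 0 < s) (hL : L = Real.log s)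
    (hσ0 : 0 < σ') (hσ : σ = Real.log σ') (hr : r = Real.log ρ')
    (hcomp : 4 * s ^ 2 * σ' ≤ ρ') (hE2 : -Real.log (5 / 3) ≤ e) (hH1 : n ≤ Real.log (4 / 3))
    (main : 0 = 2 * L + (σ - r - e) + (1 - 2 / d) * n) : False := by
  have hlogc := Real.log_le_log (mul_pos (by positivity) hσ0) hcomp
  rw [Real.log_mul (by positivity) hσ0.ne', Real.log_mul (by norm_num) (by positivity),
    Real.log_pow] at hlogc
  push_cast at hlogc
  have hq : Real.log (5 / 3) + Real.log (4 / 3) < Real.log 4 := by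
    rw [← Real.log_mul (by norm_num) (by norm_num)]
    exact Real.log_lt_log (by norm_num) (by norm_num)
  have hq2 : 0 ≤ Real.log (4 / 3) := Real.log_nonneg (by norm_num)
  have hf : (1 - 2 / d) * n ≤ Real.log (4 / 3) := by
    have z1 : 2 / d ≤ 1 := by
      rw [div_le_one (by linarith)]
      exact hd
    have z2 : 0 ≤ 2 / d := by positivity
    nlinarith
  rw [← hL, ← hσ, ← hr] at hlogc
  linarith

end Pool.Agent.Lib.MP_50b5e1_nt.U
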