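import Pool.Agent.Lib.MP_50b5e1_nt.U.U11

/-!
# U12: the uniform bound
-/

set_option autoImplicit false

namespace Pool.Agent.Lib.MP_50b5e1_nt.U

open Polynomial

/-- **the uniform bound**, with the gcd made explicit -/
theorem bound_core {m₁ k₁ m₂ k₂ a b d : ℕ} (h : IsSol m₁ k₁ m₂ k₂) (hd : 2 ≤ d)
    (hk1 : k₁ = a * d) (hk2 : k₂ = b * d) (hab : Nat.Coprime a b) :
    Real.log m₁ ≤ 15 * (a * b) * Real.log k₁ := by
  have hlt := h.lt
  obtain ⟨g1, g2, g3, g4⟩ := h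
  have hba : b < a := by
    rw [hk1, hk2] at hlt
    exact lt_of_mul_lt_mul_right hlt (Nat.zero_le d)
  have hb : 1 ≤ b := by
    rcases Nat.eq_zero_or_pos b with h0 | h0
    · rw [h0] at hk2; omega
    · exact h0
  have ha : 2 ≤ a := by omega
  by_contra hcon
  push Not at hcon
  -- real parameters
  have hdr : (2 : ℝ) ≤ d := by exact_mod_cast hd
  have hbr : (1 : ℝ) ≤ b := by exact_mod_cast hb
  have hbar : (b : ℝ) ≤ a := by exact_mod_cast hba.le
  have hkr : (k₁ : ℝ) = a * d := by rw [hk1]; push_cast; ring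
  have hk4 : (4 : ℝ) ≤ k₁ := by exact_mod_cast (by omega : 4 ≤ k₁)
  have h2d : 2 * (d : ℝ) ≤ k₁ := by
    rw [hkr]
    exact mul_le_mul_of_nonneg_right (by exact_mod_cast ha) (by positivity)
  obtain ⟨hl1, hLl, hs1, hLs⟩ := params hdr hk4 h2d
  have hK4 : Real.log 4 ≤ Real.log k₁ := Real.log_le_log (by norm_num) hk4
  set K := Real.log k₁ with hK
  have hK1 : 1 < K := lt_of_lt_of_le one_lt_log_four hK4
  set l : ℝ := 10 * (d : ℝ) ^ 2 * (k₁ : ℝ) ^ 2 with hl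
  set s : ℝ := 2 * (d : ℝ) ^ 2 with hs
  have hl0 : 0 < l := by linarith
  have hs0 : 0 < s := by linarith
  have hLl0 : 0 ≤ Real.log l := Real.log_nonneg hl1
  have hLs0 : 0 ≤ Real.log s := Real.log_nonneg hs1
  have hK0 : 0 < 15 * ((a : ℝ) * b) * K := by positivity
  -- the points
  obtain ⟨Y1, hY1⟩ : ∃ Y : ℤ, Y = (d : ℤ) ^ 2 * (2 * (m₁ : ℤ) + ((a * d : ℕ) : ℤ) + 1) := ⟨_, rfl⟩
  obtain ⟨Y2, hY2⟩ : ∃ Y : ℤ, Y = (d : ℤ) ^ 2 * (2 * (m₂ : ℤ) + ((b * d : ℕ) : ℤ) + 1) := ⟨_, rfl⟩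
  have h12 : Y1 ≤ Y2 := by
    rw [hY1, hY2, ← hk1, ← hk2]
    refine mul_le_mul_of_nonneg_left ?_ (by positivity)
    have : (m₁ : ℤ) + k₁ ≤ m₂ := by exact_mod_cast g3
    have : (0 : ℤ) ≤ k₂ := by positivity
    have : (0 : ℤ) ≤ k₁ := by positivity
    linarith
  have hm1 : (m₁ : ℝ) ≤ Y1 := by
    have z1 : (m₁ : ℤ) ≤ Y1 := by
      rw [hY1]
      have z2 : (1 : ℤ) ≤ (d : ℤ) ^ 2 := by
        have : (1 : ℤ) ≤ d := by exact_mod_cast (by omega : 1 ≤ d)
        exact one_le_pow₀ this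
      have z3 : (0 : ℤ) ≤ 2 * (m₁ : ℤ) + ((a * d : ℕ) : ℤ) + 1 := by positivity
      have z4 : (0 : ℤ) ≤ ((a * d : ℕ) : ℤ) := by positivity
      calc (m₁ : ℤ) ≤ 1 * (2 * (m₁ : ℤ) + ((a * d : ℕ) : ℤ) + 1) := by linarith [Int.natCast_nonneg m₁]
        _ ≤ _ := mul_le_mul_of_nonneg_right z2 z3
    exact_mod_cast z1
  have hm0 : 0 < (m₁ : ℝ) := by
    rcases Nat.eq_zero_or_pos m₁ with h0 | h0
    · exfalso
      rw [h0] at hcon
      simp only [Nat.cast_zero, Real.log_zero] at hcon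
      linarith
    · exact_mod_cast h0
  have hY1pos : (0 : ℝ) < Y1 := lt_of_lt_of_le hm0 hm1
  have hY1pos' : 0 < Y1 := by exact_mod_cast hY1pos
  have hY2pos' : 0 < Y2 := lt_of_lt_of_le hY1pos' h12
  have h12r : (Y1 : ℝ) ≤ Y2 := by exact_mod_cast h12
  have hY2pos : (0 : ℝ) < Y2 := by exact_mod_cast hY2pos'
  have hy1K : 15 * (a * b) * K < Real.log Y1 := hcon.trans_le (Real.log_le_log hm0 hm1)
  obtain ⟨t1, t2⟩ := thresholds ha hb hK4 hs1 hl1 hLs hLl hY1pos hy1K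
  have hlY : l ≤ Y1 := by
    have z1 : l ≤ l ^ (2 * a + 1) := le_self_pow₀ hl1 (by omega)
    have z2 : 0 < l ^ (2 * a + 1) := by positivity
    linarith
  -- the polynomials
  obtain ⟨A, R, hA, hdA, hP1, hcR, hwR⟩ := exists_pack (a := a) (M := k₁) (by omega) hd (by omega)
  obtain ⟨B, S, hB, hdB, hP2, hcS, hwS⟩ := exists_pack (a := b) (M := k₁) hb hd (by omega)
  have hsZ : (0 : ℤ) < (d : ℤ) ^ 2 := by positivity
  obtain ⟨R0, R1, R2, R3, -, R5⟩ := rem_facts (by omega) hd hsZ hA hdA hP1 hcR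
  obtain ⟨S0, S1, S2, -, S4, -⟩ := rem_facts hb hd hsZ hB hdB hP2 hcS
  obtain ⟨-, wR, -⟩ := hwR l le_rfl
  obtain ⟨-, wS, -⟩ := hwS l le_rfl
  obtain ⟨vR, -, uR⟩ := hwR Y1 hlY
  obtain ⟨vS, -, uS⟩ := hwS Y2 (hlY.trans h12r)
  -- the values of the node polynomials
  have hv1 := nodeP_eval ((d : ℤ) ^ 2) (a * d) m₁
  have hv2 := nodeP_eval ((d : ℤ) ^ 2) (b * d) m₂
  rw [← hY1] at hv1
  rw [← hY2] at hv2
  rw [← hk1] at hv1
  rw [← hk2] at hv2
  have hval : (nodeP ((d : ℤ) ^ 2) (a * d)).eval Y1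
      = (2 * (d : ℤ) ^ 2) ^ ((a - b) * d) * (nodeP ((d : ℤ) ^ 2) (b * d)).eval Y2 := by
    rw [← hk1, ← hk2, hv1, hv2, g4, ← mul_assoc, ← pow_add]
    congr 2
    rw [hk1, hk2, ← add_mul, Nat.sub_add_cancel hba.le]
  obtain ⟨p1, n1, hn1, n1a, n1b⟩ := log_node hY1pos' vR
  obtain ⟨p2, n2, hn2, n2a, n2b⟩ := log_node hY2pos' vS
  have hrel := exact_rel hba hd hl1 hP1 hP2 R1 S1 wR wS h12 t1 hlY uR uS hval p2
  -- degrees
  obtain ⟨j0, hj0⟩ : ∃ j, R.natDegree + j = a * d := ⟨a * d - R.natDegree, by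
    have : a * (d - 1) ≤ a * d := Nat.mul_le_mul_left _ (by omega)
    omega⟩
  obtain ⟨j1, hj1⟩ : ∃ j, S.natDegree + j = b * d := ⟨b * d - S.natDegree, by
    have : b * (d - 1) ≤ b * d := Nat.mul_le_mul_left _ (by omega)
    omega⟩
  have hj0a : a + 1 ≤ j0 := by
    have h5 : a * d = a * (d - 1) + a := by
      obtain ⟨e, rfl⟩ : ∃ e, d = e + 1 := ⟨d - 1, by omega⟩
      rw [Nat.add_sub_cancel]
      ring
    omega
  have hj0b : j0 ≤ 2 * a := by omega
  have hj1b : j1 ≤ 2 * b := by omega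
  have tR : 4 * l ^ (j0 + 1) ≤ Y1 := by
    have z1 : l ^ (j0 + 1) ≤ l ^ (2 * a + 1) := pow_le_pow_right₀ hl1 (by omega)
    linarith
  have tS : 4 * l ^ (j1 + 1) ≤ Y2 := by
    have z1 : l ^ (j1 + 1) ≤ l ^ (2 * a + 1) := pow_le_pow_right₀ hl1 (by omega)
    linarith
  obtain ⟨e1, he1, e1a, e1b⟩ := log_lead hl1 R0 hj0 wR tR
  obtain ⟨e2, he2, e2a, e2b⟩ := log_lead hl1 S0 hj1 wS tS
  -- logarithms of the leading coefficients
  have oR := one_le_lead R0
  have oS := one_le_lead S0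
  have lR0 : 0 ≤ Real.log |(R.leadingCoeff : ℝ)| := Real.log_nonneg oR
  have lS0 : 0 ≤ Real.log |(S.leadingCoeff : ℝ)| := Real.log_nonneg oS
  have lR1 : Real.log |(R.leadingCoeff : ℝ)| ≤ j0 * Real.log l := by
    have := Real.log_le_log (lt_of_lt_of_le one_pos oR) (lead_le hl1 hj0 wR)
    rwa [Real.log_pow] at this
  have lS1 : Real.log |(S.leadingCoeff : ℝ)| ≤ j1 * Real.log l := by
    have := Real.log_le_log (lt_of_lt_of_le one_pos oS) (lead_le hl1 hj1 wS)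
    rwa [Real.log_pow] at this
  have hsub : (((a - b : ℕ) : ℝ)) = a - b := Nat.cast_sub hba.le
  -- the two relations
  have hS2 : ((S.eval Y2 : ℤ) : ℝ) ≠ 0 := by
    intro h0
    have h3 := value_lead hl1 S0 hj1 wS tS
    rw [h0, zero_sub, abs_neg, abs_mul,
      abs_of_nonneg (by positivity : (0 : ℝ) ≤ (Y2 : ℝ) ^ S.natDegree)] at h3
    have h4 : 0 < |(S.leadingCoeff : ℝ)| * (Y2 : ℝ) ^ S.natDegree := by positivity
    linarith
  have q1 : Real.log |((R.eval Y1 : ℤ) : ℝ)|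
      = (((a : ℝ) - b) * d) * Real.log s + Real.log |((S.eval Y2 : ℤ) : ℝ)| := by
    rw [hrel, Int.cast_mul, Int.cast_pow]
    have z1 : ((2 * (d : ℤ) ^ 2 : ℤ) : ℝ) = s := by push_cast; rfl
    rw [z1, abs_mul, Real.log_mul (by positivity) (abs_ne_zero.2 hS2), abs_of_nonneg (by positivity),
      Real.log_pow, Nat.cast_mul, hsub]
  have q2 : Real.log (((nodeP ((d : ℤ) ^ 2) (a * d)).eval Y1 : ℤ) : ℝ)
      = (((a : ℝ) - b) * d) * Real.log s
        + Real.log (((nodeP ((d : ℤ) ^ 2) (b * d)).eval Y2 : ℤ) : ℝ) := by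
    have p2r : (((nodeP ((d : ℤ) ^ 2) (b * d)).eval Y2 : ℤ) : ℝ) ≠ 0 := by exact_mod_cast p2.ne'
    rw [hval, Int.cast_mul, Int.cast_pow]
    have z1 : ((2 * (d : ℤ) ^ 2 : ℤ) : ℝ) = s := by push_cast; rfl
    rw [z1, Real.log_mul (by positivity) p2r, Real.log_pow, Nat.cast_mul, hsub]
  rw [he1, he2] at q1
  rw [hn1, hn2] at q2
  have dR : (R.natDegree : ℝ) = a * d - j0 := by
    have : ((R.natDegree + j0 : ℕ) : ℝ) = ((a * d : ℕ) : ℝ) := by rw [hj0]
    push_cast at this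
    linarith
  have dS : (S.natDegree : ℝ) = b * d - j1 := by
    have : ((S.natDegree + j1 : ℕ) : ℝ) = ((b * d : ℕ) : ℝ) := by rw [hj1]
    push_cast at this
    linarith
  rw [dR, dS] at q1
  rw [Nat.cast_mul, Nat.cast_mul] at q2
  have hd0 : (0 : ℝ) < d := by linarith
  have main := log_system (a := a) (b := b) (d := d) (j0 := j0) (j1 := j1) hd0
    (y1 := Real.log Y1) (y2 := Real.log Y2) (L := Real.log s)
    (r := Real.log |(R.leadingCoeff : ℝ)|) (s := Real.log |(S.leadingCoeff : ℝ)|)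
    (e1 := e1) (e2 := e2) (n1 := n1) (n2 := n2)
    (by rw [q1]; ring) (by rw [q2]; ring)
  -- bounds for the errors
  have q34 : Real.log (3 / 4) = Real.log 3 - Real.log 4 := Real.log_div (by norm_num) (by norm_num)
  have q54 : Real.log (5 / 4) = Real.log 5 - Real.log 4 := Real.log_div (by norm_num) (by norm_num)
  have q67 : Real.log (6 / 7) = Real.log 6 - Real.log 7 := Real.log_div (by norm_num) (by norm_num)
  have q87 : Real.log (8 / 7) = Real.log 8 - Real.log 7 := Real.log_div (by norm_num) (by norm_num)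
  have q86 : Real.log 8 - Real.log 6 = Real.log (4 / 3) := by
    rw [← Real.log_div (by norm_num) (by norm_num)]
    norm_num
  have q53 : Real.log 5 - Real.log 3 = Real.log (5 / 3) := by
    rw [← Real.log_div (by norm_num) (by norm_num)]
  have hE1 : e1 - e2 ≤ Real.log (5 / 3) := by linarith
  have hE2 : -Real.log (5 / 3) ≤ e1 - e2 := by linarith
  have hH1 : n1 - n2 ≤ Real.log (4 / 3) := by linarith
  have hH2 : -Real.log (4 / 3) ≤ n1 - n2 := by linarith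
  by_cases hΔ : a * j1 = b * j0
  · -- the exceptional case
    have ha0 : a ∣ j0 := hab.dvd_of_dvd_mul_left (Dvd.intro _ hΔ)
    obtain ⟨c, rfl⟩ := ha0
    have hc2 : c = 2 := by
      have c1 : c ≤ 2 := by
        by_contra hh
        push Not at hh
        have : a * 3 ≤ a * c := Nat.mul_le_mul_left _ hh
        omega
      have c2 : 2 ≤ c := by
        by_contra hh
        push Not at hh
        have : a * c ≤ a * 1 := Nat.mul_le_mul_left _ (by omega)
        omega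
      omega
    subst hc2
    have hj12 : j1 = 2 * b := by
      have : a * j1 = a * (2 * b) := by rw [hΔ]; ring
      exact Nat.eq_of_mul_eq_mul_left (by omega) this
    have ha2 : a = 2 := by
      by_contra hh
      exact R3 (by omega) (by omega)
    subst ha2
    have hb1 : b = 1 := by omega
    subst hb1
    have r5 := R5 rfl (by omega)
    have s4 := S4 rfl
    have hj1' : (j1 : ℝ) = 2 := by rw [hj12]; norm_num
    rw [hj1'] at main
    push_cast at main r5 s4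
    have main2 : 0 = 2 * Real.log s + (Real.log |(S.leadingCoeff : ℝ)|
        - Real.log |(R.leadingCoeff : ℝ)| - (e1 - e2)) + (1 - 2 / (d : ℝ)) * (n1 - n2) := by
      linarith
    have hcomp : 4 * s ^ 2 * |(S.leadingCoeff : ℝ)| ≤ |(R.leadingCoeff : ℝ)| := by
      rw [r5, s4]
      exact lead_compare hdr
    exact exceptional hdr hs0 rfl (lt_of_lt_of_le one_pos oS) rfl rfl hcomp hE2 hH1 main2
  · -- the generic case
    have hab1 : 1 ≤ |(a : ℝ) * j1 - b * j0| := by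
      have z1 : ((a : ℤ) * j1 - b * j0) ≠ 0 := by
        intro h0
        apply hΔ
        have : (a : ℤ) * j1 = b * j0 := by linarith
        exact_mod_cast this
      have z2 := Int.one_le_abs z1
      exact_mod_cast z2
    have := generic hbr hbar hdr hK1 hK4 hLs0 hLs hLl0 hLl (by linarith) (by positivity)
      (by exact_mod_cast hj0b) (by positivity) (by exact_mod_cast hj1b) lR0 lR1 lS0 lS1
      hE1 hE2 hH1 hH2 hab1 main
    linarith

/-- **the uniform bound** -/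
theorem uniform_bound {m₁ k₁ m₂ k₂ : ℕ} (h : IsSol m₁ k₁ m₂ k₂) (hd : 2 ≤ Nat.gcd k₁ k₂) :
    Real.log m₁ ≤ 15 * ((k₁ * k₂ : ℝ) / ((Nat.gcd k₁ k₂ : ℕ) : ℝ) ^ 2) * Real.log k₁ := by
  obtain ⟨a, ha⟩ := Nat.gcd_dvd_left k₁ k₂
  obtain ⟨b, hb⟩ := Nat.gcd_dvd_right k₁ k₂
  set d := Nat.gcd k₁ k₂ with hdd
  have hcop : Nat.Coprime a b := by
    have h1 : Nat.gcd (d * a) (d * b) = d := by rw [← ha, ← hb]
    rw [Nat.gcd_mul_left] at h1
    have h2 : d * Nat.gcd a b = d * 1 := by omega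
    exact Nat.eq_of_mul_eq_mul_left (by omega) h2
  have h3 := bound_core h hd (by rw [ha]; ring) (by rw [hb]; ring) hcop
  refine h3.trans (le_of_eq ?_)
  have hd0 : (d : ℝ) ≠ 0 := by
    have : (0 : ℝ) < d := by exact_mod_cast (by omega : 0 < d)
    exact this.ne'
  have e1 : ((k₁ : ℝ) * k₂) / (d : ℝ) ^ 2 = a * b := by
    rw [ha, hb]
    push_cast
    field_simp
  rw [e1]

end Pool.Agent.Lib.MP_50b5e1_nt.U
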