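import Pool.Agent.Lib.MP_50b5e1_nt.U.U12

/-!
# U13: the larger variable and the finiteness statement
-/

set_option autoImplicit false

namespace Pool.Agent.Lib.MP_50b5e1_nt.U

theorem size_m2 {m₁ k₁ m₂ k₂ : ℕ} (h : IsSol m₁ k₁ m₂ k₂) :
    (k₂ : ℝ) * Real.log m₂ ≤ k₁ * Real.log ((m₁ : ℝ) + k₁) := by
  obtain ⟨h1, h2, h3, h4⟩ := h
  have e1 : blockProd m₁ k₁ ≤ (m₁ + k₁) ^ k₁ := by
    unfold blockProd
    have := Finset.prod_le_pow_card (Finset.Icc 1 k₁) (fun i => m₁ + i) (m₁ + k₁) (fun i hi => by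
      have := (Finset.mem_Icc.1 hi).2
      omega)
    simpa using this
  have e2 : m₂ ^ k₂ ≤ blockProd m₂ k₂ := by
    unfold blockProd
    have := Finset.pow_card_le_prod (Finset.Icc 1 k₂) (fun i => m₂ + i) m₂ (fun i hi => by omega)
    simpa using this
  have e3 : (m₂ : ℝ) ^ k₂ ≤ ((m₁ : ℝ) + k₁) ^ k₁ := by
    exact_mod_cast e2.trans (h4 ▸ e1)
  have hm2 : (0 : ℝ) < m₂ := by exact_mod_cast (by omega : 0 < m₂)
  have e4 := Real.log_le_log (pow_pos hm2 _) e3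
  rwa [Real.log_pow, Real.log_pow] at e4

theorem bound_m2 {m₁ k₁ m₂ k₂ : ℕ} (h : IsSol m₁ k₁ m₂ k₂) (hd : 2 ≤ Nat.gcd k₁ k₂) :
    Real.log m₂ ≤ 16 * ((k₁ : ℝ) / (Nat.gcd k₁ k₂ : ℕ)) ^ 2 * Real.log k₁ := by
  have h1 := size_m2 h
  have h2 := uniform_bound h hd
  obtain ⟨g1, g2, g3, g4⟩ := h
  obtain ⟨a, ha⟩ := Nat.gcd_dvd_left k₁ k₂
  obtain ⟨b, hb⟩ := Nat.gcd_dvd_right k₁ k₂
  set d := Nat.gcd k₁ k₂ with hdd
  have hd0 : (0 : ℝ) < d := by exact_mod_cast (by omega : 0 < d)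
  have ha1 : 1 ≤ a := by
    rcases Nat.eq_zero_or_pos a with h0 | h0
    · rw [h0] at ha; omega
    · exact h0
  have hb1 : 1 ≤ b := by
    rcases Nat.eq_zero_or_pos b with h0 | h0
    · rw [h0] at hb; omega
    · exact h0
  have har : (1 : ℝ) ≤ a := by exact_mod_cast ha1
  have hbr : (1 : ℝ) ≤ b := by exact_mod_cast hb1
  have hk1 : (k₁ : ℝ) = d * a := by exact_mod_cast ha
  have hk2 : (k₂ : ℝ) = d * b := by exact_mod_cast hb
  have e1 : ((k₁ : ℝ) * k₂) / (d : ℝ) ^ 2 = a * b := by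
    rw [hk1, hk2]
    field_simp
  have e2 : (k₁ : ℝ) / d = a := by
    rw [hk1]
    field_simp
  rw [e1] at h2
  rw [e2]
  have hk4 : (4 : ℝ) ≤ k₁ := by exact_mod_cast (by omega : 4 ≤ k₁)
  have hK1 : 1 < Real.log k₁ :=
    lt_of_lt_of_le one_lt_log_four (Real.log_le_log (by norm_num) hk4)
  set K := Real.log k₁ with hK
  have habr : (1 : ℝ) ≤ a * b := by nlinarith
  have habK : K ≤ a * b * K := by nlinarith
  -- log (m₁ + k₁)
  have e3 : Real.log ((m₁ : ℝ) + k₁) ≤ 16 * (a * b) * K := by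
    by_cases hm : 2 ≤ m₁
    · have hmr : (2 : ℝ) ≤ m₁ := by exact_mod_cast hm
      have e4 : (m₁ : ℝ) + k₁ ≤ m₁ * k₁ := by nlinarith
      have e5 := Real.log_le_log (by positivity) e4
      rw [Real.log_mul (by positivity) (by positivity)] at e5
      linarith
    · have hmr : (m₁ : ℝ) ≤ 1 := by exact_mod_cast (by omega : m₁ ≤ 1)
      have e4 : (m₁ : ℝ) + k₁ ≤ (k₁ : ℝ) ^ 2 := by nlinarith
      have e5 := Real.log_le_log (by positivity) e4
      rw [Real.log_pow] at e5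
      push_cast at e5
      linarith
  have e6 : (b : ℝ) * Real.log m₂ ≤ b * (16 * (a : ℝ) ^ 2 * K) := by
    have e7 : (d : ℝ) * (b * Real.log m₂) ≤ d * (a * Real.log ((m₁ : ℝ) + k₁)) := by
      have e71 : (k₂ : ℝ) * Real.log m₂ = d * (b * Real.log m₂) := by rw [hk2]; ring
      have e72 : (k₁ : ℝ) * Real.log ((m₁ : ℝ) + k₁) = d * (a * Real.log ((m₁ : ℝ) + k₁)) := by
        nth_rewrite 1 [hk1]
        ring
      rw [← e71, ← e72]
      exact h1
    have e8 := le_of_mul_le_mul_left e7 hd0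
    have e9 : (a : ℝ) * Real.log ((m₁ : ℝ) + k₁) ≤ a * (16 * (a * b) * K) :=
      mul_le_mul_of_nonneg_left e3 (by positivity)
    refine (e8.trans e9).trans (le_of_eq ?_)
    ring
  exact le_of_mul_le_mul_left e6 (by linarith)

theorem natLog_le {x : ℕ} (hx : 1 ≤ x) : (Nat.log 2 x : ℝ) * Real.log 2 ≤ Real.log x := by
  have h1 : 2 ^ Nat.log 2 x ≤ x := Nat.pow_log_le_self 2 (by omega)
  have h2 : ((2 : ℝ) ^ Nat.log 2 x) ≤ x := by exact_mod_cast h1
  have h3 := Real.log_le_log (by positivity) h2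
  rwa [Real.log_pow] at h3

/-- **large ratios are needed** -/
theorem explicit {m₁ k₁ m₂ k₂ : ℕ} (h : IsSol m₁ k₁ m₂ k₂) (hd : 2 ≤ Nat.gcd k₁ k₂)
    (hr : 25 * ((k₁ : ℝ) / (Nat.gcd k₁ k₂ : ℕ)) ^ 2 * Real.log (Real.log m₂) ≤ Real.log m₂) :
    Real.log m₂ ≤ 2 ^ 32 := by
  have h1 := bound_m2 h hd
  have h2 := two_adic h
  have hlt := h.lt
  obtain ⟨g1, g2, g3, g4⟩ := h
  obtain ⟨a, ha⟩ := Nat.gcd_dvd_left k₁ k₂
  have hdd : Nat.gcd k₁ k₂ ≤ k₁ - k₂ := by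
    refine Nat.le_of_dvd (by omega) ?_
    exact Nat.dvd_sub (Nat.gcd_dvd_left k₁ k₂) (Nat.gcd_dvd_right k₁ k₂)
  set d := Nat.gcd k₁ k₂ with hd'
  have hd0 : (0 : ℝ) < d := by exact_mod_cast (by omega : 0 < d)
  have ha1 : 1 ≤ a := by
    rcases Nat.eq_zero_or_pos a with h0 | h0
    · rw [h0] at ha; omega
    · exact h0
  have har : (1 : ℝ) ≤ a := by exact_mod_cast ha1
  have hk1 : (k₁ : ℝ) = d * a := by exact_mod_cast ha
  have e2 : (k₁ : ℝ) / d = a := by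
    rw [hk1]
    field_simp
  rw [e2] at h1 hr
  have hm2 : (4 : ℝ) ≤ m₂ := by exact_mod_cast (by omega : 4 ≤ m₂)
  have hM4 : Real.log 4 ≤ Real.log m₂ := Real.log_le_log (by norm_num) hm2
  set M := Real.log m₂ with hM
  have hl2 := Real.log_two_gt_d9
  have hl2' := Real.log_two_lt_d9
  have hl4 : Real.log 4 = 2 * Real.log 2 := by
    rw [show (4 : ℝ) = 2 ^ 2 by norm_num, Real.log_pow]
    push_cast
    ring
  have hM1 : 1.386 ≤ M := by linarith
  have hM0 : 0 < M := by linarith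
  set LL := Real.log M with hLL
  -- LL is bounded below
  have hLL0 : 1 / 25 ≤ LL := by
    have := Real.one_sub_inv_le_log_of_pos hM0
    have h5 : M⁻¹ ≤ 24 / 25 := by
      rw [inv_le_comm₀ hM0 (by norm_num)]
      linarith
    linarith
  -- a is at most the square root of M
  have ha2 : (a : ℝ) ^ 2 ≤ M := by
    have : (a : ℝ) ^ 2 * 1 ≤ (a : ℝ) ^ 2 * (25 * LL) :=
      mul_le_mul_of_nonneg_left (by linarith) (by positivity)
    linarith
  -- d is at most 4 M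
  have hd4 : (d : ℝ) ≤ 4 * M := by
    have e3 : d ≤ Nat.log 2 (m₂ + k₂) + Nat.log 2 k₁ := by omega
    have e4 : (d : ℝ) ≤ Nat.log 2 (m₂ + k₂) + Nat.log 2 k₁ := by exact_mod_cast e3
    have e5 := natLog_le (x := m₂ + k₂) (by omega)
    have e6 := natLog_le (x := k₁) (by omega)
    have e7 : Real.log ((m₂ + k₂ : ℕ) : ℝ) ≤ Real.log 2 + M := by
      rw [← Real.log_mul (by norm_num) (by linarith)]
      refine Real.log_le_log (by exact_mod_cast (by omega : 0 < m₂ + k₂)) ?_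
      have : m₂ + k₂ ≤ 2 * m₂ := by omega
      exact_mod_cast this
    have e8 : Real.log (k₁ : ℝ) ≤ M := by
      refine Real.log_le_log (by exact_mod_cast (by omega : 0 < k₁)) ?_
      exact_mod_cast (by omega : k₁ ≤ m₂)
    have e9 : (d : ℝ) * Real.log 2 ≤ Real.log 2 + 2 * M := by
      have := mul_le_mul_of_nonneg_right e4 (by linarith : 0 ≤ Real.log 2)
      linarith
    by_contra hcon
    push Not at hcon
    have : 4 * M * Real.log 2 < (d : ℝ) * Real.log 2 := mul_lt_mul_of_pos_right hcon (by linarith)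
    nlinarith
  -- log k₁
  have hK : Real.log k₁ ≤ Real.log 4 + 3 / 2 * LL := by
    rw [hk1, Real.log_mul hd0.ne' (by linarith)]
    have e3 := Real.log_le_log hd0 hd4
    rw [Real.log_mul (by norm_num) hM0.ne'] at e3
    have e4 := Real.log_le_log (by positivity) ha2
    rw [Real.log_pow] at e4
    push_cast at e4
    linarith
  have hfin : LL ≤ 16 * Real.log 4 := by
    have e3 : (a : ℝ) ^ 2 * (25 * LL) ≤ (a : ℝ) ^ 2 * (16 * Real.log k₁) := by linarith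
    have e4 := le_of_mul_le_mul_left e3 (by positivity)
    linarith
  have e5 : LL ≤ Real.log (2 ^ 32) := by
    rw [Real.log_pow]
    push_cast
    linarith
  exact (Real.log_le_log_iff hM0 (by norm_num)).1 e5

/-- the finiteness statement -/
theorem finite_set : Set.Finite {x : ℕ × ℕ × ℕ × ℕ | IsSol x.1 x.2.1 x.2.2.1 x.2.2.2 ∧
    2 ≤ Nat.gcd x.2.1 x.2.2.2 ∧
    25 * ((x.2.1 : ℝ) / (Nat.gcd x.2.1 x.2.2.2 : ℕ)) ^ 2 * Real.log (Real.log x.2.2.1)
      ≤ Real.log x.2.2.1} := by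
  set N := ⌊Real.exp (2 ^ 32)⌋₊ with hN
  refine Set.Finite.subset (Set.Finite.prod (Set.finite_Iic N) (Set.Finite.prod (Set.finite_Iic N)
    (Set.Finite.prod (Set.finite_Iic N) (Set.finite_Iic N)))) ?_
  rintro ⟨m₁, k₁, m₂, k₂⟩ ⟨h, hd, hr⟩
  simp only at h hd hr
  have h1 := explicit h hd hr
  have hlt := h.lt
  obtain ⟨g1, g2, g3, g4⟩ := h
  have h2 : m₂ ≤ N := by
    apply Nat.le_floor
    have h3 := Real.exp_le_exp.2 h1
    rwa [Real.exp_log (by exact_mod_cast (by omega : 0 < m₂))] at h3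
  simp only [Set.mem_prod, Set.mem_Iic]
  omega

end Pool.Agent.Lib.MP_50b5e1_nt.U
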