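import Pool.Agent.Lib.MP_50b5e1_nt.U.U7

/-!
# U14: the power `H(z)^β` in the upper half plane and its size at infinity
-/

set_option autoImplicit false

namespace Pool.Agent.Lib.MP_50b5e1_nt.U

open Polynomial Filter Topology

/-- the branch of `(z - v)^β` on the closed upper half plane -/
noncomputable def ph (β v : ℝ) (z : ℂ) : ℂ :=
  (-Complex.I * (z - v)) ^ (β : ℂ) * Complex.exp (Complex.I * (Real.pi * β / 2))

/-- the branch of `H(z)^β` on the closed upper half plane -/
noncomputable def fH (β : ℝ) (N : ℕ) (z : ℂ) : ℂ := ∏ i ∈ Finset.range N, ph β (nd N i) z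

/-- the closed upper half plane -/
def UH : Set ℂ := {z | 0 ≤ z.im}

/-- going to infinity in the closed upper half plane -/
noncomputable def FI : Filter ℂ := Bornology.cobounded ℂ ⊓ 𝓟 UH

theorem negI_mul_re (z : ℂ) (v : ℝ) : (-Complex.I * (z - v)).re = z.im := by
  simp

theorem ph_continuousAt {β : ℝ} (hβ : 0 < β) (v : ℝ) {z : ℂ} (hz : 0 ≤ z.im) :
    ContinuousAt (ph β v) z := by
  unfold ph
  refine ContinuousAt.mul ?_ continuousAt_const
  have h1 : ContinuousAt (fun x : ℂ => x ^ (β : ℂ)) (-Complex.I * (z - v)) :=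
    Complex.continuousAt_cpow_const_of_re_pos (Or.inl (by rw [negI_mul_re]; exact hz))
      (by simpa using hβ)
  exact ContinuousAt.comp (f := fun z : ℂ => -Complex.I * (z - v)) h1 (by fun_prop)

theorem ph_differentiableAt (β v : ℝ) {z : ℂ} (hz : 0 < z.im) :
    DifferentiableAt ℂ (ph β v) z := by
  unfold ph
  refine DifferentiableAt.mul_const ?_ _
  refine DifferentiableAt.cpow_const (by fun_prop) ?_
  rw [Complex.mem_slitPlane_iff]
  left
  rw [negI_mul_re]
  exact hz

theorem fH_continuousOn {β : ℝ} (hβ : 0 < β) (N : ℕ) : ContinuousOn (fH β N) UH := by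
  unfold fH
  refine continuousOn_finsetProd _ fun i _ => ?_
  intro z hz
  exact (ph_continuousAt hβ _ hz).continuousWithinAt

theorem fH_differentiableAt (β : ℝ) (N : ℕ) {z : ℂ} (hz : 0 < z.im) :
    DifferentiableAt ℂ (fH β N) z := by
  unfold fH
  exact DifferentiableAt.fun_finsetProd fun i _ => ph_differentiableAt _ _ hz

/-- `ph^D = (z - v)²` when `β D = 2` -/
theorem ph_pow {β : ℝ} {D : ℕ} (h : β * D = 2) (v : ℝ) (z : ℂ) : ph β v z ^ D = (z - v) ^ 2 := by
  unfold ph
  rw [mul_pow, ← Complex.cpow_nat_mul, ← Complex.exp_nat_mul]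
  have h1 : ((D : ℂ) * (β : ℂ)) = 2 := by
    rw [mul_comm]
    exact_mod_cast h
  have h2 : (D : ℂ) * (Complex.I * (Real.pi * β / 2)) = Real.pi * Complex.I := by
    have : (D : ℂ) * (Complex.I * (Real.pi * β / 2)) = (D * β) * (Real.pi * Complex.I / 2) := by ring
    rw [this, h1]
    ring
  rw [h1, h2, Complex.exp_pi_mul_I]
  have h3 : ((-Complex.I * (z - v)) ^ (2 : ℂ)) = (-Complex.I * (z - v)) ^ 2 := by
    exact_mod_cast Complex.cpow_natCast (-Complex.I * (z - v)) 2
  rw [h3, mul_pow, neg_pow, Complex.I_sq]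
  ring

theorem fH_pow {β : ℝ} {D : ℕ} (h : β * D = 2) (N : ℕ) (z : ℂ) :
    fH β N z ^ D = (∏ i ∈ Finset.range N, (z - nd N i)) ^ 2 := by
  unfold fH
  rw [← Finset.prod_pow, ← Finset.prod_pow]
  exact Finset.prod_congr rfl fun i _ => ph_pow h _ _

/-- `ph β v / ph β 0 → 1` -/
theorem ph_ratio (β v : ℝ) : Tendsto (fun z => ph β v z / ph β 0 z) FI (𝓝 1) := by
  have hlim : Tendsto (fun z : ℂ => Complex.exp (β * Complex.log (1 - v * z⁻¹)))
      (Bornology.cobounded ℂ) (𝓝 1) := by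
    have h1 : Tendsto (fun z : ℂ => z⁻¹) (Bornology.cobounded ℂ) (𝓝 0) := tendsto_inv₀_cobounded
    have h2 : ContinuousAt (fun u : ℂ => Complex.exp (β * Complex.log (1 - v * u))) 0 := by
      refine ContinuousAt.cexp ?_
      refine ContinuousAt.mul continuousAt_const ?_
      refine ContinuousAt.clog (by fun_prop) ?_
      simp
    have h3 : Tendsto (fun z : ℂ => Complex.exp (β * Complex.log (1 - v * z⁻¹)))
        (Bornology.cobounded ℂ) (𝓝 (Complex.exp (β * Complex.log (1 - v * 0)))) :=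
      h2.tendsto.comp h1
    simpa using h3
  refine (hlim.mono_left inf_le_left).congr' ?_
  have hev : ∀ᶠ z in FI, (|v| + 1 < ‖z‖) ∧ 0 ≤ z.im := by
    refine Filter.Eventually.and ?_ ?_
    · exact Filter.Eventually.filter_mono inf_le_left
        (tendsto_norm_cobounded_atTop.eventually_gt_atTop _)
    · exact Filter.Eventually.filter_mono inf_le_right (Filter.eventually_principal.2 fun z hz => hz)
  filter_upwards [hev] with z hz
  obtain ⟨hz1, hz2⟩ := hz
  have hz0 : z ≠ 0 := by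
    intro h0
    rw [h0, norm_zero] at hz1
    have := abs_nonneg v
    linarith
  set w : ℂ := -Complex.I * z with hw
  have hw0 : w ≠ 0 := mul_ne_zero (neg_ne_zero.2 Complex.I_ne_zero) hz0
  set y : ℂ := 1 - v * z⁻¹ with hy
  have hvz : ‖(v : ℂ) * z⁻¹‖ < 1 := by
    rw [norm_mul, norm_inv, Complex.norm_real, Real.norm_eq_abs]
    have h4 : 0 < ‖z‖ := by
      have := abs_nonneg v
      linarith
    rw [← div_eq_mul_inv, div_lt_one h4]
    linarith
  have hyre : 0 < y.re := by
    have h5 : ((v : ℂ) * z⁻¹).re ≤ ‖(v : ℂ) * z⁻¹‖ := Complex.re_le_norm _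
    rw [hy, Complex.sub_re, Complex.one_re]
    linarith
  have hy0 : y ≠ 0 := by
    intro h0
    rw [h0] at hyre
    simp at hyre
  have hprod : w * y = -Complex.I * (z - v) := by
    rw [hw, hy]
    field_simp
  have hargw : |w.arg| ≤ Real.pi / 2 := by
    rw [Complex.abs_arg_le_pi_div_two_iff]
    rw [hw]
    simpa using hz2
  have hargy : |y.arg| < Real.pi / 2 := by
    rw [Complex.abs_arg_lt_pi_div_two_iff]
    exact Or.inl hyre
  have hlog : Complex.log (w * y) = Complex.log w + Complex.log y := by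
    rw [Complex.log_mul_eq_add_log_iff hw0 hy0, Set.mem_Ioc]
    rw [abs_le] at hargw
    rw [abs_lt] at hargy
    constructor <;> linarith
  have hwy0 : w * y ≠ 0 := mul_ne_zero hw0 hy0
  unfold ph
  have hz' : -Complex.I * (z - (0 : ℝ)) = w := by rw [hw]; simp
  rw [hz', ← hprod, mul_div_mul_right _ _ (Complex.exp_ne_zero _),
    Complex.cpow_def_of_ne_zero hwy0, Complex.cpow_def_of_ne_zero hw0, ← Complex.exp_sub, hlog]
  congr 1
  ring

/-- `ph β 0 ^ N = z^q` when `β N = q` -/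
theorem ph_zero_pow {β : ℝ} {N q : ℕ} (h : β * N = q) (z : ℂ) : ph β 0 z ^ N = z ^ q := by
  unfold ph
  rw [mul_pow, ← Complex.cpow_nat_mul, ← Complex.exp_nat_mul]
  have h1 : ((N : ℂ) * (β : ℂ)) = (q : ℂ) := by
    rw [mul_comm]
    exact_mod_cast h
  have h2 : (N : ℂ) * (Complex.I * (Real.pi * β / 2)) = (q : ℂ) * (Real.pi / 2 * Complex.I) := by
    have : (N : ℂ) * (Complex.I * (Real.pi * β / 2)) = (N * β) * (Real.pi / 2 * Complex.I) := by ring
    rw [this, h1]
  have h3 : Complex.exp (Real.pi / 2 * Complex.I) = Complex.I := Complex.exp_pi_div_two_mul_I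
  rw [h1, Complex.cpow_natCast, h2, Complex.exp_nat_mul, h3, ← mul_pow]
  congr 1
  simp only [Complex.ofReal_zero, sub_zero]
  linear_combination (-z) * Complex.I_mul_I

theorem fH_lim {β : ℝ} {N q : ℕ} (h : β * N = q) :
    Tendsto (fun z => fH β N z / z ^ q) FI (𝓝 1) := by
  have h1 : Tendsto (fun z => ∏ i ∈ Finset.range N, (ph β (nd N i) z / ph β 0 z)) FI
      (𝓝 (∏ _i ∈ Finset.range N, (1 : ℂ))) :=
    tendsto_finsetProd _ fun i _ => ph_ratio _ _
  rw [Finset.prod_const_one] at h1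
  refine h1.congr fun z => ?_
  rw [Finset.prod_div_distrib, Finset.prod_const, Finset.card_range, ph_zero_pow h]
  rfl

/-- a polynomial divided by a power at infinity -/
theorem poly_lim {p : ℂ[X]} {n : ℕ} (hp : p.natDegree ≤ n) :
    Tendsto (fun z => p.eval z / z ^ n) (Bornology.cobounded ℂ) (𝓝 (p.coeff n)) := by
  have h1 : Tendsto (fun z : ℂ => z⁻¹) (Bornology.cobounded ℂ) (𝓝 0) := tendsto_inv₀_cobounded
  have h2 : Continuous (fun u : ℂ => ∑ i ∈ Finset.range (n + 1), p.coeff i * u ^ (n - i)) := by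
    fun_prop
  have h3 := (h2.tendsto 0).comp h1
  have h4 : ∑ i ∈ Finset.range (n + 1), p.coeff i * (0 : ℂ) ^ (n - i) = p.coeff n := by
    rw [Finset.sum_range_succ, Finset.sum_eq_zero, zero_add, Nat.sub_self, pow_zero, mul_one]
    intro i hi
    rw [Finset.mem_range] at hi
    rw [zero_pow (by omega), mul_zero]
  rw [h4] at h3
  refine h3.congr' ?_
  have hev : ∀ᶠ z : ℂ in Bornology.cobounded ℂ, 0 < ‖z‖ :=
    tendsto_norm_cobounded_atTop.eventually_gt_atTop _
  filter_upwards [hev] with z hz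
  have hz0 : z ≠ 0 := norm_pos_iff.1 hz
  simp only [Function.comp]
  rw [eval_eq_sum_range' (Nat.lt_succ_of_le hp), Finset.sum_div]
  refine Finset.sum_congr rfl fun i hi => ?_
  rw [Finset.mem_range] at hi
  rw [mul_div_assoc]
  congr 1
  rw [inv_pow, eq_div_iff (pow_ne_zero _ hz0)]
  have h5 : z ^ n = z ^ (n - i) * z ^ i := by
    rw [← pow_add]
    congr 1
    omega
  rw [h5]
  field_simp

instance FI_neBot : FI.NeBot := by
  unfold FI
  rw [Filter.inf_principal_neBot_iff]
  intro U hU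
  have h1 : Tendsto (fun x : ℝ => (x : ℂ)) atTop (Bornology.cobounded ℂ) := by
    rw [← tendsto_norm_atTop_iff_cobounded]
    simp only [Complex.norm_real]
    exact tendsto_norm_atTop_atTop
  obtain ⟨x, hx⟩ := (h1.eventually hU).exists
  exact ⟨x, hx, by simp [UH]⟩

/-- **the size of `f - A` at infinity** -/
theorem diff_lim {β : ℝ} {N q D : ℕ} (hD : 1 ≤ D) (hβD : β * D = 2) (hβN : β * N = q)
    {A R : ℂ[X]} (hA : A.Monic) (hdeg : A.natDegree = q)
    (hR : (∏ i ∈ Finset.range N, (X - C (nd N i : ℂ))) ^ 2 = A ^ D + R) {e : ℕ}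
    (hRe : R.natDegree ≤ e) {r : ℕ} (hr : e + r = q * (D - 1)) :
    Tendsto (fun z => z ^ r * (fH β N z - A.eval z)) FI (𝓝 (R.coeff e / D)) := by
  set f := fH β N with hf
  have l1 : Tendsto (fun z => f z / z ^ q) FI (𝓝 1) := fH_lim hβN
  have l2 : Tendsto (fun z => A.eval z / z ^ q) FI (𝓝 1) := by
    have h := (poly_lim (p := A) hdeg.le).mono_left (inf_le_left : FI ≤ _)
    have h' : A.coeff q = 1 := by rw [← hdeg]; exact hA
    rwa [h'] at h
  have l3 : Tendsto (fun z => R.eval z / z ^ e) FI (𝓝 (R.coeff e)) :=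
    (poly_lim hRe).mono_left (inf_le_left : FI ≤ _)
  have l4 : Tendsto (fun z => ∑ i ∈ Finset.range D,
      (f z / z ^ q) ^ i * (A.eval z / z ^ q) ^ (D - 1 - i)) FI (𝓝 (D : ℂ)) := by
    have : (D : ℂ) = ∑ i ∈ Finset.range D, (1 : ℂ) ^ i * (1 : ℂ) ^ (D - 1 - i) := by simp
    rw [this]
    exact tendsto_finsetSum _ fun i _ => (l1.pow i).mul (l2.pow _)
  have hD0 : (D : ℂ) ≠ 0 := by exact_mod_cast (by omega : D ≠ 0)
  have l5 := l3.div l4 hD0
  refine l5.congr' ?_
  have hev : ∀ᶠ z : ℂ in FI, 0 < ‖z‖ :=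
    Filter.Eventually.filter_mono inf_le_left (tendsto_norm_cobounded_atTop.eventually_gt_atTop _)
  have hev2 := l4.eventually_ne hD0
  filter_upwards [hev, hev2] with z hz hz2
  have hz0 : z ≠ 0 := norm_pos_iff.1 hz
  simp only [Pi.div_apply]
  have hzq : z ^ q ≠ 0 := pow_ne_zero _ hz0
  -- the identity
  have h1 : f z ^ D - A.eval z ^ D = R.eval z := by
    have h2 := congrArg (fun p : ℂ[X] => p.eval z) hR
    simp only [eval_pow, eval_add, eval_prod, eval_sub, eval_X, eval_C] at h2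
    rw [hf, fH_pow hβD, h2]
    ring
  have h2 := Commute.geom_sum₂_mul (Commute.all (f z) (A.eval z)) D
  rw [h1] at h2
  have h3 : ∑ i ∈ Finset.range D, (f z / z ^ q) ^ i * (A.eval z / z ^ q) ^ (D - 1 - i)
      = (∑ i ∈ Finset.range D, f z ^ i * A.eval z ^ (D - 1 - i)) / z ^ (q * (D - 1)) := by
    rw [Finset.sum_div]
    refine Finset.sum_congr rfl fun i hi => ?_
    rw [Finset.mem_range] at hi
    rw [div_pow, div_pow, div_mul_div_comm, ← pow_add, ← pow_mul]
    congr 3
    omega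
  rw [h3] at hz2 ⊢
  set S := ∑ i ∈ Finset.range D, f z ^ i * A.eval z ^ (D - 1 - i) with hS
  have hS0 : S ≠ 0 := by
    intro h0
    apply hz2
    rw [h0, zero_div]
  rw [← h2, ← hr, pow_add]
  field_simp

end Pool.Agent.Lib.MP_50b5e1_nt.U
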