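import Pool.Agent.Lib.MP_50b5e1_nt.U.U14

/-!
# U15: the contour
-/

set_option autoImplicit false

namespace Pool.Agent.Lib.MP_50b5e1_nt.U

open Polynomial Filter Topology

theorem FI_bound {u : ℂ → ℂ} {c : ℂ} (h : Tendsto u FI (𝓝 c)) {ε : ℝ} (hε : 0 < ε) :
    ∃ M : ℝ, ∀ z : ℂ, M ≤ ‖z‖ → 0 ≤ z.im → ‖u z - c‖ ≤ ε := by
  have h1 : ∀ᶠ z in FI, dist (u z) c < ε := h (Metric.ball_mem_nhds _ hε)
  unfold FI at h1
  rw [Filter.eventually_inf_principal, ← comap_norm_atTop, Filter.eventually_comap,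
    Filter.eventually_atTop] at h1
  obtain ⟨M, hM⟩ := h1
  refine ⟨M, fun z hz hz2 => ?_⟩
  have := hM ‖z‖ hz z rfl hz2
  rw [dist_eq_norm] at this
  exact this.le

/-- the values of `g` on the three outer sides -/
theorem side_values {g : ℂ → ℂ} {c ε T : ℝ} (hc : 0 ≤ c) (hT : 0 < T) {z : ℂ}
    (hz1 : T ≤ ‖z‖) (hz2 : Complex.normSq z ≤ 2 * T ^ 2) (h : ‖z * g z - c‖ ≤ ε) :
    (z.im = T → -(c / T) - ε / T ≤ (g z).im ∧ (g z).im ≤ -(c / (2 * T)) + ε / T) ∧
    (z.re = T → c / (2 * T) - ε / T ≤ (g z).re ∧ (g z).re ≤ c / T + ε / T) ∧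
    (z.re = -T → -(c / T) - ε / T ≤ (g z).re ∧ (g z).re ≤ -(c / (2 * T)) + ε / T) := by
  have hz0 : z ≠ 0 := by
    intro h0
    rw [h0, norm_zero] at hz1
    linarith
  have hε : 0 ≤ ε := (norm_nonneg _).trans h
  set δ := z * g z - c with hδ
  have hg : g z = (c : ℂ) * z⁻¹ + δ * z⁻¹ := by
    rw [hδ]
    field_simp
    ring
  have hδz : ‖δ * z⁻¹‖ ≤ ε / T := by
    rw [norm_mul, norm_inv, ← div_eq_mul_inv]
    exact div_le_div₀ hε h hT hz1
  have b1 : |(δ * z⁻¹).im| ≤ ε / T := (Complex.abs_im_le_norm _).trans hδz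
  have b2 : |(δ * z⁻¹).re| ≤ ε / T := (Complex.abs_re_le_norm _).trans hδz
  rw [abs_le] at b1 b2
  have hn1 : T ^ 2 ≤ Complex.normSq z := by
    rw [Complex.normSq_eq_norm_sq]
    exact pow_le_pow_left₀ hT.le hz1 2
  have hn0 : 0 < Complex.normSq z := lt_of_lt_of_le (by positivity) hn1
  have q1 : c / (2 * T) ≤ c * T / Complex.normSq z := by
    rw [div_le_div_iff₀ (by positivity) hn0]
    nlinarith
  have q2 : c * T / Complex.normSq z ≤ c / T := by
    rw [div_le_div_iff₀ hn0 hT]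
    nlinarith
  have e1 : (g z).im = -(c * z.im / Complex.normSq z) + (δ * z⁻¹).im := by
    rw [hg, Complex.add_im, Complex.im_ofReal_mul, Complex.inv_im]
    ring
  have e2 : (g z).re = c * z.re / Complex.normSq z + (δ * z⁻¹).re := by
    rw [hg, Complex.add_re, Complex.re_ofReal_mul, Complex.inv_re]
    ring
  refine ⟨?_, ?_, ?_⟩
  · intro hi
    rw [e1, hi]
    constructor <;> linarith
  · intro hi
    rw [e2, hi]
    constructor <;> linarith
  · intro hi
    rw [e2, hi]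
    have : c * -T / Complex.normSq z = -(c * T / Complex.normSq z) := by ring
    rw [this]
    constructor <;> linarith

end Pool.Agent.Lib.MP_50b5e1_nt.U
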