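import Pool.Agent.Lib.MP_50b5e1_nt.U.U15

/-!
# U16: the contour integral
-/

set_option autoImplicit false

namespace Pool.Agent.Lib.MP_50b5e1_nt.U

open Polynomial Filter Topology

theorem int_bounds {u : ℝ → ℝ} {a b m M : ℝ} (hab : a ≤ b) (hu : IntervalIntegrable u MeasureTheory.volume a b)
    (h : ∀ x ∈ Set.Icc a b, m ≤ u x ∧ u x ≤ M) :
    m * (b - a) ≤ ∫ x in a..b, u x ∧ ∫ x in a..b, u x ≤ M * (b - a) := by
  have hc : ∀ c : ℝ, ∫ _x in a..b, c = c * (b - a) := by
    intro c
    rw [intervalIntegral.integral_const, smul_eq_mul, mul_comm]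
  constructor
  · rw [← hc m]
    exact intervalIntegral.integral_mono_on hab intervalIntegrable_const hu fun x hx => (h x hx).1
  · rw [← hc M]
    exact intervalIntegral.integral_mono_on hab hu intervalIntegrable_const fun x hx => (h x hx).2

theorem contour_pos {g : ℂ → ℂ} (hgc : ContinuousOn g UH)
    (hgd : ∀ z : ℂ, 0 < z.im → DifferentiableAt ℂ g z) {c : ℝ} (hc : 0 ≤ c)
    (hlim : Tendsto (fun z => z * g z) FI (𝓝 (c : ℂ))) {J T₀ : ℝ}
    (hJ : ∀ T : ℝ, T₀ ≤ T → ∫ x in (-T)..T, (g x).im = J) :
    -(4 * c) ≤ J ∧ J ≤ -(2 * c) := by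
  have key : ∀ ε : ℝ, 0 < ε → -(4 * c) - 4 * ε ≤ J ∧ J ≤ -(2 * c) + 4 * ε := by
    intro ε hε
    obtain ⟨M, hM⟩ := FI_bound hlim hε
    set T : ℝ := max 1 (max M T₀) with hT
    have hT1 : 1 ≤ T := le_max_left _ _
    have hTM : M ≤ T := (le_max_left _ _).trans (le_max_right _ _)
    have hTT : T₀ ≤ T := (le_max_right _ _).trans (le_max_right _ _)
    have hT0 : 0 < T := by linarith
    have hnT : -T ≤ T := by linarith
    -- the identity
    have hrect := Complex.integral_boundary_rect_eq_zero_of_continuousOn_of_differentiableOn g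
      (⟨-T, 0⟩ : ℂ) (⟨T, T⟩ : ℂ)
      (hgc.mono (by
        intro z hz
        rw [Complex.mem_reProdIm] at hz
        have h1 := hz.2
        simp only at h1
        rw [Set.uIcc_of_le hT0.le] at h1
        exact h1.1))
      (by
        intro z hz
        rw [Complex.mem_reProdIm] at hz
        have h1 := hz.2
        simp only at h1
        rw [min_eq_left hT0.le, max_eq_right hT0.le] at h1
        exact (hgd z h1.1).differentiableWithinAt)
    simp only [Complex.ofReal_zero, zero_mul, add_zero, smul_eq_mul] at hrect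
    -- continuity along the sides
    have c0 : Continuous (fun x : ℝ => g x) :=
      hgc.comp_continuous (by fun_prop) (fun x => by simp [UH])
    have c1 : Continuous (fun x : ℝ => g (x + T * Complex.I)) :=
      hgc.comp_continuous (by fun_prop) (fun x => by simp [UH, hT0.le])
    have c2 : ContinuousOn (fun y : ℝ => g (T + y * Complex.I)) (Set.uIcc 0 T) := by
      refine hgc.comp (by fun_prop) ?_
      intro y hy
      rw [Set.uIcc_of_le hT0.le] at hy
      simp [UH, hy.1]
    have c3 : ContinuousOn (fun y : ℝ => g ((-T : ℝ) + y * Complex.I)) (Set.uIcc 0 T) := by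
      refine hgc.comp (by fun_prop) ?_
      intro y hy
      rw [Set.uIcc_of_le hT0.le] at hy
      simp [UH, hy.1]
    have i0 := c0.intervalIntegrable (μ := MeasureTheory.volume) (-T) T
    have i1 := c1.intervalIntegrable (μ := MeasureTheory.volume) (-T) T
    have i2 := c2.intervalIntegrable (μ := MeasureTheory.volume)
    have i3 := c3.intervalIntegrable (μ := MeasureTheory.volume)
    -- imaginary parts
    have p0 : (∫ x in (-T)..T, g x).im = ∫ x in (-T)..T, (g x).im :=
      (Complex.imCLM.intervalIntegral_comp_comm i0).symm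
    have p1 : (∫ x in (-T)..T, g (x + T * Complex.I)).im
        = ∫ x in (-T)..T, (g (x + T * Complex.I)).im :=
      (Complex.imCLM.intervalIntegral_comp_comm i1).symm
    have p2 : (∫ y in (0 : ℝ)..T, g (T + y * Complex.I)).re
        = ∫ y in (0 : ℝ)..T, (g (T + y * Complex.I)).re :=
      (Complex.reCLM.intervalIntegral_comp_comm i2).symm
    have p3 : (∫ y in (0 : ℝ)..T, g ((-T : ℝ) + y * Complex.I)).re
        = ∫ y in (0 : ℝ)..T, (g ((-T : ℝ) + y * Complex.I)).re :=
      (Complex.reCLM.intervalIntegral_comp_comm i3).symm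
    have him := congrArg Complex.im hrect
    simp only [Complex.sub_im, Complex.add_im, Complex.mul_im, Complex.I_re, Complex.I_im, zero_mul,
      one_mul, zero_add, Complex.zero_im] at him
    rw [p0, p1, p2, p3, hJ T hTT] at him
    -- bounds
    have b1 := int_bounds (m := -(c / T) - ε / T) (M := -(c / (2 * T)) + ε / T) hnT
      ((Complex.imCLM.continuous.comp c1).intervalIntegrable (-T) T) (by
        intro x hx
        have hz : (x + T * Complex.I : ℂ).im = T := by simp
        have hzr : (x + T * Complex.I : ℂ).re = x := by simp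
        have hn : T ≤ ‖(x + T * Complex.I : ℂ)‖ := by
          have := Complex.abs_im_le_norm (x + T * Complex.I : ℂ)
          rw [hz, abs_of_pos hT0] at this
          exact this
        have hs : Complex.normSq (x + T * Complex.I : ℂ) ≤ 2 * T ^ 2 := by
          rw [Complex.normSq_apply, hz, hzr]
          nlinarith [hx.1, hx.2]
        exact (side_values hc hT0 hn hs (hM _ (hTM.trans hn) (by rw [hz]; exact hT0.le))).1 hz)
    have b2 := int_bounds (m := c / (2 * T) - ε / T) (M := c / T + ε / T) hT0.le
      ((Complex.reCLM.continuous.comp_continuousOn c2).intervalIntegrable) (by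
        intro y hy
        have hz : (T + y * Complex.I : ℂ).im = y := by simp
        have hzr : (T + y * Complex.I : ℂ).re = T := by simp
        have hn : T ≤ ‖(T + y * Complex.I : ℂ)‖ := by
          have := Complex.abs_re_le_norm (T + y * Complex.I : ℂ)
          rw [hzr, abs_of_pos hT0] at this
          exact this
        have hs : Complex.normSq (T + y * Complex.I : ℂ) ≤ 2 * T ^ 2 := by
          rw [Complex.normSq_apply, hz, hzr]
          nlinarith [hy.1, hy.2]
        exact (side_values hc hT0 hn hs (hM _ (hTM.trans hn) (by rw [hz]; exact hy.1))).2.1 hzr)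
    have b3 := int_bounds (m := -(c / T) - ε / T) (M := -(c / (2 * T)) + ε / T) hT0.le
      ((Complex.reCLM.continuous.comp_continuousOn c3).intervalIntegrable) (by
        intro y hy
        have hz : (((-T : ℝ) : ℂ) + y * Complex.I : ℂ).im = y := by simp
        have hzr : (((-T : ℝ) : ℂ) + y * Complex.I : ℂ).re = -T := by simp
        have hn : T ≤ ‖(((-T : ℝ) : ℂ) + y * Complex.I : ℂ)‖ := by
          have := Complex.abs_re_le_norm (((-T : ℝ) : ℂ) + y * Complex.I : ℂ)
          rw [hzr, abs_neg, abs_of_pos hT0] at this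
          exact this
        have hs : Complex.normSq (((-T : ℝ) : ℂ) + y * Complex.I : ℂ) ≤ 2 * T ^ 2 := by
          rw [Complex.normSq_apply, hz, hzr]
          nlinarith [hy.1, hy.2]
        exact (side_values hc hT0 hn hs (hM _ (hTM.trans hn) (by rw [hz]; exact hy.1))).2.2 hzr)
    simp only [Function.comp_apply, Complex.imCLM_apply, Complex.reCLM_apply] at b1 b2 b3
    have r1 : (-(c / T) - ε / T) * (T - -T) = -(2 * c) - 2 * ε := by field_simp; ring
    have r2 : (-(c / (2 * T)) + ε / T) * (T - -T) = -c + 2 * ε := by field_simp; ring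
    have r3 : (c / (2 * T) - ε / T) * (T - 0) = c / 2 - ε := by field_simp; ring
    have r4 : (c / T + ε / T) * (T - 0) = c + ε := by field_simp; ring
    have r5 : (-(c / T) - ε / T) * (T - 0) = -c - ε := by field_simp; ring
    have r6 : (-(c / (2 * T)) + ε / T) * (T - 0) = -(c / 2) + ε := by field_simp; ring
    rw [r1, r2] at b1
    rw [r3, r4] at b2
    rw [r5, r6] at b3
    constructor <;> linarith [b1.1, b1.2, b2.1, b2.2, b3.1, b3.2]
  constructor
  · by_contra hcon
    push Not at hcon
    have := (key ((-(4 * c) - J) / 8) (by linarith)).1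
    linarith
  · by_contra hcon
    push Not at hcon
    have := (key ((J + 2 * c) / 8) (by linarith)).2
    linarith

/-- **the contour integral** -/
theorem contour {g : ℂ → ℂ} (hgc : ContinuousOn g UH)
    (hgd : ∀ z : ℂ, 0 < z.im → DifferentiableAt ℂ g z) {c : ℝ}
    (hlim : Tendsto (fun z => z * g z) FI (𝓝 (c : ℂ))) {J T₀ : ℝ}
    (hJ : ∀ T : ℝ, T₀ ≤ T → ∫ x in (-T)..T, (g x).im = J) :
    2 * |c| ≤ |J| ∧ |J| ≤ 4 * |c| := by
  rcases le_total 0 c with hc | hc
  · obtain ⟨h1, h2⟩ := contour_pos hgc hgd hc hlim hJ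
    rw [abs_of_nonneg hc, abs_of_nonpos (by linarith)]
    constructor <;> linarith
  · have hlim' : Tendsto (fun z => z * (fun w => -g w) z) FI (𝓝 ((-c : ℝ) : ℂ)) := by
      have := hlim.neg
      push_cast
      refine this.congr fun z => ?_
      ring
    obtain ⟨h1, h2⟩ := contour_pos (g := fun w => -g w) (hgc.neg) (fun z hz => (hgd z hz).neg)
      (by linarith : 0 ≤ -c) hlim' (J := -J) (T₀ := T₀) (by
        intro T hT
        rw [← hJ T hT, ← intervalIntegral.integral_neg]
        simp)
    rw [abs_of_nonpos hc]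
    have : 0 ≤ J := by linarith
    rw [abs_of_nonneg this]
    constructor <;> linarith

end Pool.Agent.Lib.MP_50b5e1_nt.U
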