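import Pool.Agent.Lib.MP_50b5e1_nt.U.U16

/-!
# U17: the values on the real axis
-/

set_option autoImplicit false

namespace Pool.Agent.Lib.MP_50b5e1_nt.U

open Polynomial Filter Topology

theorem ph_real {β : ℝ} (hβ : 0 < β) (v t : ℝ) :
    ph β v (t : ℂ) = ((|t - v| ^ β : ℝ) : ℂ) *
      Complex.exp (Complex.I * (Real.pi * β * (if t < v then 1 else 0))) := by
  unfold ph
  rcases lt_trichotomy t v with h | h | h
  · rw [if_pos h]
    have h1 : -Complex.I * ((t : ℂ) - v) = ((v - t : ℝ) : ℂ) * Complex.I := by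
      push_cast
      ring
    have h2 : 0 < v - t := by linarith
    have h3 : ((v - t : ℝ) : ℂ) * Complex.I ≠ 0 :=
      mul_ne_zero (by exact_mod_cast h2.ne') Complex.I_ne_zero
    have h4 : |t - v| = v - t := by rw [abs_of_neg (by linarith)]; ring
    rw [h1, Complex.cpow_def_of_ne_zero h3, Complex.log_ofReal_mul h2 Complex.I_ne_zero,
      Complex.log_I, h4, Real.rpow_def_of_pos h2, Complex.ofReal_exp, ← Complex.exp_add,
      ← Complex.exp_add]
    congr 1
    push_cast
    ring
  · rw [if_neg (by linarith), h]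
    have h0 : (β : ℂ) ≠ 0 := by exact_mod_cast hβ.ne'
    rw [sub_self, sub_self, mul_zero, Complex.zero_cpow h0, abs_zero, Real.zero_rpow hβ.ne']
    simp
  · rw [if_neg (by linarith)]
    have h1 : -Complex.I * ((t : ℂ) - v) = ((t - v : ℝ) : ℂ) * -Complex.I := by
      push_cast
      ring
    have h2 : 0 < t - v := by linarith
    have h3 : ((t - v : ℝ) : ℂ) * -Complex.I ≠ 0 :=
      mul_ne_zero (by exact_mod_cast h2.ne') (neg_ne_zero.2 Complex.I_ne_zero)
    have h4 : |t - v| = t - v := abs_of_pos h2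
    rw [h1, Complex.cpow_def_of_ne_zero h3,
      Complex.log_ofReal_mul h2 (neg_ne_zero.2 Complex.I_ne_zero),
      Complex.log_neg_I, h4, Real.rpow_def_of_pos h2, Complex.ofReal_exp, ← Complex.exp_add,
      ← Complex.exp_add]
    congr 1
    push_cast
    ring

theorem fH_real {β : ℝ} (hβ : 0 < β) (N : ℕ) (t : ℝ) :
    fH β N (t : ℂ) = ((|(Hn N).eval t| ^ β : ℝ) : ℂ) *
      Complex.exp (((Real.pi * β * ∑ i ∈ Finset.range N, (if t < nd N i then (1 : ℝ) else 0) : ℝ) : ℂ)
        * Complex.I) := by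
  unfold fH
  rw [Finset.prod_congr rfl fun i _ => ph_real hβ (nd N i) t, Finset.prod_mul_distrib,
    ← Complex.exp_sum]
  congr 1
  · unfold Hn
    rw [Lagrange.eval_nodal, Finset.abs_prod, ← Real.finsetProd_rpow _ _ (fun i _ => abs_nonneg _)]
    push_cast
    rfl
  · congr 1
    push_cast
    rw [Finset.mul_sum, Finset.sum_mul]
    refine Finset.sum_congr rfl fun i _ => ?_
    split_ifs <;> push_cast <;> ring

theorem fH_im {β : ℝ} (hβ : 0 < β) (N : ℕ) (t : ℝ) :
    (fH β N (t : ℂ)).im = |(Hn N).eval t| ^ β *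
      Real.sin (Real.pi * β * ∑ i ∈ Finset.range N, (if t < nd N i then (1 : ℝ) else 0)) := by
  rw [fH_real hβ, Complex.im_ofReal_mul, Complex.exp_ofReal_mul_I_im]

theorem nd_succ (N k : ℕ) : nd N (k + 1) = nd N k - 2 := by
  unfold nd
  push_cast
  ring

theorem nd_le {N i k : ℕ} (h : k ≤ i) : nd N i ≤ nd N k := by
  unfold nd
  have : (k : ℝ) ≤ i := by exact_mod_cast h
  linarith

theorem count_eq {N k : ℕ} (hk : k + 1 < N) {x : ℝ} (h1 : nd N (k + 1) ≤ x) (h2 : x < nd N k) :
    ∑ i ∈ Finset.range N, (if x < nd N i then (1 : ℝ) else 0) = k + 1 := by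
  rw [← Finset.sum_filter, Finset.sum_const, nsmul_eq_mul, mul_one]
  have : Finset.filter (fun i => x < nd N i) (Finset.range N) = Finset.range (k + 1) := by
    ext i
    rw [Finset.mem_filter, Finset.mem_range, Finset.mem_range]
    constructor
    · rintro ⟨h3, h4⟩
      by_contra h5
      push Not at h5
      have := nd_le (N := N) h5
      linarith
    · intro h3
      exact ⟨by omega, lt_of_lt_of_le h2 (nd_le (by omega))⟩
  rw [this, Finset.card_range]
  push_cast
  ring

/-- the imaginary part between two consecutive nodes -/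
theorem fH_im_between {β : ℝ} (hβ : 0 < β) {N k : ℕ} (hk : k + 1 < N) {x : ℝ}
    (h1 : nd N (k + 1) ≤ x) (h2 : x ≤ nd N k) :
    (fH β N (x : ℂ)).im = |(Hn N).eval x| ^ β * Real.sin (Real.pi * β * (k + 1)) := by
  rcases lt_or_eq_of_le h2 with h3 | h3
  · rw [fH_im hβ, count_eq hk h1 h3]
  · have : (Hn N).eval x = 0 := by
      unfold Hn
      rw [h3]
      exact Lagrange.eval_nodal_at_node (Finset.mem_range.2 (by omega))
    rw [fH_im hβ, this, abs_zero, Real.zero_rpow hβ.ne', zero_mul, zero_mul]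

theorem fH_im_right {β : ℝ} (hβ : 0 < β) {N : ℕ} {x : ℝ} (h : nd N 0 ≤ x) :
    (fH β N (x : ℂ)).im = 0 := by
  rw [fH_im hβ, Finset.sum_eq_zero, mul_zero, Real.sin_zero, mul_zero]
  intro i _
  rw [if_neg]
  have := nd_le (N := N) (Nat.zero_le i)
  linarith

theorem fH_im_left {β : ℝ} (hβ : 0 < β) {N q : ℕ} (hN : 1 ≤ N) (hβN : β * N = q) {x : ℝ}
    (h : x ≤ nd N (N - 1)) : (fH β N (x : ℂ)).im = 0 := by
  rcases lt_or_eq_of_le h with h3 | h3
  · rw [fH_im hβ]
    have : ∑ i ∈ Finset.range N, (if x < nd N i then (1 : ℝ) else 0) = N := by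
      rw [Finset.sum_congr rfl (g := fun _ => (1 : ℝ)) (fun i hi => if_pos
        (lt_of_lt_of_le h3 (nd_le (by have := Finset.mem_range.1 hi; omega))))]
      simp
    rw [this, mul_assoc, hβN, mul_comm, ← mul_comm (q : ℝ) Real.pi, Real.sin_nat_mul_pi, zero_mul]
  · have : (Hn N).eval x = 0 := by
      unfold Hn
      rw [h3]
      exact Lagrange.eval_nodal_at_node (Finset.mem_range.2 (by omega))
    rw [fH_im hβ, this, abs_zero, Real.zero_rpow hβ.ne', zero_mul]

/-- the weight on the real axis -/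
noncomputable def Gw (β : ℝ) (N : ℕ) (x : ℝ) : ℝ := x * |(Hn N).eval x| ^ β

theorem Gw_continuous {β : ℝ} (hβ : 0 < β) (N : ℕ) : Continuous (Gw β N) := by
  unfold Gw
  refine continuous_id.mul ?_
  refine Continuous.rpow_const ?_ (fun x => Or.inr hβ.le)
  exact ((Hn N).continuous).abs

/-- the integral between two consecutive nodes -/
noncomputable def Psi (β : ℝ) (N k : ℕ) : ℝ := ∫ x in (nd N (k + 1))..(nd N k), Gw β N x

theorem J_eq {β : ℝ} (hβ : 0 < β) {N q : ℕ} (hN : 1 ≤ N) (hβN : β * N = q) {T : ℝ}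
    (hT : (N : ℝ) ≤ T) :
    ∫ x in (-T)..T, x * (fH β N (x : ℂ)).im
      = ∑ k ∈ Finset.range (N - 1), Real.sin (Real.pi * β * (k + 1)) * Psi β N k := by
  set u : ℝ → ℝ := fun x => x * (fH β N (x : ℂ)).im with hu
  have hc : Continuous u := by
    refine continuous_id.mul (Complex.continuous_im.comp ?_)
    exact (fH_continuousOn hβ N).comp_continuous (by fun_prop) (fun x => by simp [UH])
  have hi : ∀ a b : ℝ, IntervalIntegrable u MeasureTheory.volume a b :=
    fun a b => hc.intervalIntegrable a b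
  have n0 : nd N 0 ≤ T := by
    unfold nd
    push_cast
    linarith
  have n1 : -T ≤ nd N (N - 1) := by
    unfold nd
    rw [Nat.cast_sub hN]
    push_cast
    linarith
  have s1 : ∫ x in (-T)..(nd N (N - 1)), u x = 0 := by
    rw [intervalIntegral.integral_congr (g := fun _ => (0 : ℝ))]
    · simp
    · intro x hx
      rw [Set.uIcc_of_le n1] at hx
      simp only [hu]
      rw [fH_im_left hβ hN hβN hx.2, mul_zero]
  have s2 : ∫ x in (nd N 0)..T, u x = 0 := by
    rw [intervalIntegral.integral_congr (g := fun _ => (0 : ℝ))]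
    · simp
    · intro x hx
      rw [Set.uIcc_of_le n0] at hx
      simp only [hu]
      rw [fH_im_right hβ hx.1, mul_zero]
  have s3 : ∫ x in (nd N 0)..(nd N (N - 1)), u x
      = -∑ k ∈ Finset.range (N - 1), Real.sin (Real.pi * β * (k + 1)) * Psi β N k := by
    rw [← intervalIntegral.sum_integral_adjacent_intervals (a := nd N) (fun k _ => hi _ _),
      ← Finset.sum_neg_distrib]
    refine Finset.sum_congr rfl fun k hk => ?_
    rw [Finset.mem_range] at hk
    rw [intervalIntegral.integral_symm]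
    congr 1
    unfold Psi
    rw [← intervalIntegral.integral_const_mul]
    refine intervalIntegral.integral_congr ?_
    intro x hx
    rw [Set.uIcc_of_le (nd_le (by omega))] at hx
    simp only [hu, Gw]
    rw [fH_im_between hβ (by omega) hx.1 hx.2]
    ring
  have s4 := intervalIntegral.integral_add_adjacent_intervals (hi (-T) (nd N (N - 1)))
    (hi (nd N (N - 1)) (nd N 0))
  have s5 := intervalIntegral.integral_add_adjacent_intervals (hi (-T) (nd N 0)) (hi (nd N 0) T)
  rw [intervalIntegral.integral_symm] at s3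
  linarith

end Pool.Agent.Lib.MP_50b5e1_nt.U
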