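import Pool.Agent.Lib.MP_50b5e1_nt.U.U17

/-!
# U18: the alternating sum
-/

set_option autoImplicit false

namespace Pool.Agent.Lib.MP_50b5e1_nt.U

open Polynomial Filter Topology

theorem Hn_eval (N : ℕ) (x : ℝ) : (Hn N).eval x = ∏ i ∈ Finset.range N, (x - nd N i) := by
  unfold Hn
  rw [Lagrange.eval_nodal]

theorem Hn_shift (N : ℕ) (x : ℝ) :
    (Hn N).eval (x - 2) * (x + N - 1) = (Hn N).eval x * (x - N - 1) := by
  rw [Hn_eval, Hn_eval]
  have h1 := Finset.prod_range_succ (fun i : ℕ => x - ((N : ℝ) + 1 - 2 * i)) N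
  have h2 := Finset.prod_range_succ' (fun i : ℕ => x - ((N : ℝ) + 1 - 2 * i)) N
  rw [h1] at h2
  have e1 : ∏ i ∈ Finset.range N, (x - ((N : ℝ) + 1 - 2 * i))
      = ∏ i ∈ Finset.range N, (x - 2 - nd N i) :=
    Finset.prod_congr rfl fun i _ => by unfold nd; ring
  have e2 : ∏ i ∈ Finset.range N, (x - ((N : ℝ) + 1 - 2 * ((i + 1 : ℕ) : ℝ)))
      = ∏ i ∈ Finset.range N, (x - nd N i) :=
    Finset.prod_congr rfl fun i _ => by unfold nd; push_cast; ring
  rw [e1, e2] at h2
  have e3 : x - ((N : ℝ) + 1 - 2 * (N : ℝ)) = x + N - 1 := by ring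
  have e4 : x - ((N : ℝ) + 1 - 2 * ((0 : ℕ) : ℝ)) = x - N - 1 := by push_cast; ring
  rw [e3, e4] at h2
  exact h2

theorem Hn_neg (N : ℕ) (x : ℝ) : |(Hn N).eval (-x)| = |(Hn N).eval x| := by
  rw [Hn_eval, Hn_eval, ← Finset.prod_range_reflect (fun i => x - nd N i), Finset.abs_prod,
    Finset.abs_prod]
  refine Finset.prod_congr rfl fun i hi => ?_
  rw [Finset.mem_range] at hi
  have : nd N (N - 1 - i) = -nd N i := by
    unfold nd
    rw [Nat.cast_sub (by omega), Nat.cast_sub (by omega)]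
    push_cast
    ring
  rw [this, ← abs_neg]
  congr 1
  ring

theorem abs_Hn_shift {N : ℕ} (hN : 1 ≤ N) {x : ℝ} (h1 : 1 ≤ x) (h2 : x ≤ N - 1) :
    |(Hn N).eval (x - 2)| ≤ |(Hn N).eval x| := by
  have h3 := congrArg abs (Hn_shift N x)
  have hNr : (1 : ℝ) ≤ N := by exact_mod_cast hN
  rw [abs_mul, abs_mul, abs_of_nonneg (by linarith : 0 ≤ x + N - 1),
    abs_of_nonpos (by linarith : x - N - 1 ≤ 0)] at h3
  have h4 : |(Hn N).eval x| * -(x - N - 1) ≤ |(Hn N).eval x| * (x + N - 1) :=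
    mul_le_mul_of_nonneg_left (by linarith) (abs_nonneg _)
  rw [← h3] at h4
  exact le_of_mul_le_mul_right h4 (by linarith)

theorem Gw_step {β : ℝ} (hβ : 0 < β) {N : ℕ} (hN : 1 ≤ N) {x : ℝ} (h1 : 1 ≤ x) (h2 : x ≤ N - 1) :
    |(Hn N).eval x| ^ β ≤ Gw β N x - Gw β N (x - 2) := by
  have h3 := Real.rpow_le_rpow (abs_nonneg _) (abs_Hn_shift hN h1 h2) hβ.le
  have h4 : 0 ≤ |(Hn N).eval (x - 2)| ^ β := by positivity
  have h5 : 0 ≤ |(Hn N).eval x| ^ β := by positivity
  unfold Gw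
  rcases le_total 2 x with h | h
  · nlinarith
  · nlinarith

theorem Gw_neg (β : ℝ) (N : ℕ) (x : ℝ) : Gw β N (-x) = -Gw β N x := by
  unfold Gw
  rw [Hn_neg]
  ring

theorem Psi_symm (β : ℝ) {N k : ℕ} (hk : k + 2 ≤ N) : Psi β N (N - 2 - k) = -Psi β N k := by
  unfold Psi
  have e1 : nd N (N - 2 - k + 1) = -nd N k := by
    unfold nd
    rw [show N - 2 - k + 1 = N - 1 - k by omega, Nat.cast_sub (by omega), Nat.cast_sub (by omega)]
    push_cast
    ring
  have e2 : nd N (N - 2 - k) = -nd N (k + 1) := by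
    unfold nd
    rw [Nat.cast_sub (by omega), Nat.cast_sub (by omega)]
    push_cast
    ring
  rw [e1, e2, ← intervalIntegral.integral_comp_neg (f := Gw β N), ← intervalIntegral.integral_neg]
  exact intervalIntegral.integral_congr fun x _ => Gw_neg β N x

theorem Gw_int {β : ℝ} (hβ : 0 < β) (N : ℕ) (a b : ℝ) :
    IntervalIntegrable (Gw β N) MeasureTheory.volume a b :=
  (Gw_continuous hβ N).intervalIntegrable _ _

theorem absH_int {β : ℝ} (hβ : 0 < β) (N : ℕ) (a b : ℝ) :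
    IntervalIntegrable (fun x => |(Hn N).eval x| ^ β) MeasureTheory.volume a b := by
  refine Continuous.intervalIntegrable ?_ _ _
  refine Continuous.rpow_const ?_ (fun x => Or.inr hβ.le)
  exact ((Hn N).continuous).abs

theorem Psi_diff {β : ℝ} (hβ : 0 < β) {N k : ℕ} (hN : 1 ≤ N) (hk : 2 * (k + 2) ≤ N) :
    ∫ x in (nd N (k + 1))..(nd N k), |(Hn N).eval x| ^ β ≤ Psi β N k - Psi β N (k + 1) := by
  have h1 : Psi β N (k + 1) = ∫ x in (nd N (k + 1))..(nd N k), Gw β N (x - 2) := by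
    unfold Psi
    rw [intervalIntegral.integral_comp_sub_right (Gw β N) 2, nd_succ N (k + 1), nd_succ N k]
  have h2 : Psi β N k - Psi β N (k + 1)
      = ∫ x in (nd N (k + 1))..(nd N k), (Gw β N x - Gw β N (x - 2)) := by
    rw [h1, intervalIntegral.integral_sub (Gw_int hβ N _ _)]
    · rfl
    · exact ((Gw_continuous hβ N).comp (by fun_prop)).intervalIntegrable _ _
  rw [h2]
  refine intervalIntegral.integral_mono_on (nd_le (by omega)) (absH_int hβ N _ _) ?_ ?_
  · exact ((Gw_continuous hβ N).sub ((Gw_continuous hβ N).comp (by fun_prop))).intervalIntegrable _ _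
  · intro x hx
    have h3 : (1 : ℝ) ≤ nd N (k + 1) := by
      unfold nd
      have : ((2 * (k + 2) : ℕ) : ℝ) ≤ N := by exact_mod_cast hk
      push_cast at this ⊢
      linarith
    have h4 : nd N k ≤ N - 1 := by
      unfold nd
      have : (0 : ℝ) ≤ k := by positivity
      linarith
    exact Gw_step hβ hN (h3.trans hx.1) (hx.2.trans h4)

theorem Psi_anti {β : ℝ} (hβ : 0 < β) {N k : ℕ} (hN : 1 ≤ N) (hk : 2 * (k + 2) ≤ N) :
    Psi β N (k + 1) ≤ Psi β N k := by
  have h1 := Psi_diff hβ hN hk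
  have h2 : 0 ≤ ∫ x in (nd N (k + 1))..(nd N k), |(Hn N).eval x| ^ β :=
    intervalIntegral.integral_nonneg (nd_le (by omega)) fun x _ => by positivity
  linarith

theorem Psi_nonneg {β : ℝ} {N k : ℕ} (hk : 2 * (k + 1) ≤ N) : 0 ≤ Psi β N k := by
  rcases Nat.lt_or_ge (2 * (k + 1)) N with h | h
  · unfold Psi
    refine intervalIntegral.integral_nonneg (nd_le (by omega)) fun x hx => ?_
    have h3 : (0 : ℝ) ≤ nd N (k + 1) := by
      unfold nd
      have : ((2 * (k + 1) + 1 : ℕ) : ℝ) ≤ N := by exact_mod_cast h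
      push_cast at this ⊢
      linarith
    unfold Gw
    have h4 : 0 ≤ x := h3.trans hx.1
    positivity
  · have h1 := Psi_symm β (N := N) (k := k) (by omega)
    rw [show N - 2 - k = k by omega] at h1
    linarith

/-- summation by parts -/
theorem abel {s P : ℕ → ℝ} (hS : ∀ n, 0 ≤ ∑ i ∈ Finset.range n, s i) (m : ℕ)
    (hP : ∀ k, k + 1 < m → P (k + 1) ≤ P k) (hP0 : ∀ k, k < m → 0 ≤ P k) :
    0 ≤ ∑ k ∈ Finset.range m, s k * P k ∧
    (2 ≤ m → s 0 * (P 0 - P 1) ≤ ∑ k ∈ Finset.range m, s k * P k) := by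
  have key : ∀ n, n + 1 ≤ m → (∑ i ∈ Finset.range (n + 1), s i) * P n
      ≤ ∑ k ∈ Finset.range (n + 1), s k * P k ∧
      (1 ≤ n → (∑ i ∈ Finset.range (n + 1), s i) * P n + s 0 * (P 0 - P 1)
        ≤ ∑ k ∈ Finset.range (n + 1), s k * P k) := by
    intro n
    induction n with
    | zero => intro _; simp
    | succ n ih =>
      intro hn
      obtain ⟨i1, i2⟩ := ih (by omega)
      have h1 := hP n (by omega)
      have h2 := hS (n + 1)
      rw [Finset.sum_range_succ s (n + 1), Finset.sum_range_succ (fun k => s k * P k) (n + 1)]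
      constructor
      · nlinarith
      · intro _
        rcases Nat.eq_zero_or_pos n with h0 | h0
        · subst h0
          simp only [zero_add, Finset.sum_range_one]
          nlinarith
        · have := i2 h0
          nlinarith
  rcases Nat.eq_zero_or_pos m with h0 | h0
  · subst h0
    simp
  · obtain ⟨k1, k2⟩ := key (m - 1) (by omega)
    rw [show m - 1 + 1 = m by omega] at k1 k2
    have h3 : 0 ≤ (∑ i ∈ Finset.range m, s i) * P (m - 1) :=
      mul_nonneg (hS m) (hP0 _ (by omega))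
    constructor
    · linarith
    · intro h2
      have := k2 (by omega)
      linarith

/-- partial sums of `sin (2π(i+1)/D)` -/
theorem sin_sums (D : ℕ) (hD : 1 ≤ D) (n : ℕ) :
    Real.sin (Real.pi / D) * ∑ i ∈ Finset.range n, Real.sin (Real.pi * (2 / D) * (i + 1))
      = Real.sin (n * (Real.pi / D)) * Real.sin ((n + 1) * (Real.pi / D)) := by
  induction n with
  | zero => simp
  | succ n ih =>
    rw [Finset.sum_range_succ, mul_add, ih]
    set y := ((n : ℝ) + 1) * (Real.pi / D) with hy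
    have e1 : Real.pi * (2 / D) * ((n : ℝ) + 1) = 2 * y := by rw [hy]; ring
    have e2 : (n : ℝ) * (Real.pi / D) = y - Real.pi / D := by rw [hy]; ring
    have e3 : (((n + 1 : ℕ) : ℝ) + 1) * (Real.pi / D) = y + Real.pi / D := by
      rw [hy]; push_cast; ring
    have e4 : ((n + 1 : ℕ) : ℝ) * (Real.pi / D) = y := by rw [hy]; push_cast; ring
    rw [e1, e2, e3, e4, Real.sin_two_mul, Real.sin_sub, Real.sin_add]
    ring

theorem sin_prod_nonneg (D : ℕ) (hD : 1 ≤ D) (n : ℕ) :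
    0 ≤ Real.sin (n * (Real.pi / D)) * Real.sin ((n + 1) * (Real.pi / D)) := by
  have hDr : (0 : ℝ) < D := by exact_mod_cast hD
  have e1 : (n : ℝ) * (Real.pi / D)
      = ((n % D : ℕ) : ℝ) * (Real.pi / D) + ((n / D : ℕ) : ℝ) * Real.pi := by
    have h1 : (n : ℝ) = ((n % D : ℕ) : ℝ) + D * ((n / D : ℕ) : ℝ) := by
      exact_mod_cast (Nat.mod_add_div n D).symm
    nth_rewrite 1 [h1]
    field_simp
  have e2 : ((n : ℝ) + 1) * (Real.pi / D)
      = (((n % D : ℕ) : ℝ) + 1) * (Real.pi / D) + ((n / D : ℕ) : ℝ) * Real.pi := by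
    rw [add_mul, e1]
    ring
  rw [e1, e2, Real.sin_add_nat_mul_pi, Real.sin_add_nat_mul_pi]
  have h2 : n % D < D := Nat.mod_lt _ hD
  have h3 : ((n % D : ℕ) : ℝ) + 1 ≤ D := by exact_mod_cast h2
  have hpi := Real.pi_pos
  have h4 : 0 ≤ Real.sin (((n % D : ℕ) : ℝ) * (Real.pi / D)) := by
    refine Real.sin_nonneg_of_nonneg_of_le_pi (by positivity) ?_
    rw [← mul_div_assoc, div_le_iff₀ hDr]
    nlinarith
  have h5 : 0 ≤ Real.sin ((((n % D : ℕ) : ℝ) + 1) * (Real.pi / D)) := by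
    refine Real.sin_nonneg_of_nonneg_of_le_pi (by positivity) ?_
    rw [← mul_div_assoc, div_le_iff₀ hDr]
    nlinarith
  have h6 : ((-1 : ℝ) ^ (n / D)) * ((-1 : ℝ) ^ (n / D)) = 1 := by
    rw [← mul_pow]
    norm_num
  have h7 : (-1 : ℝ) ^ (n / D) * Real.sin (((n % D : ℕ) : ℝ) * (Real.pi / D)) *
      ((-1 : ℝ) ^ (n / D) * Real.sin ((((n % D : ℕ) : ℝ) + 1) * (Real.pi / D)))
      = ((-1 : ℝ) ^ (n / D) * (-1 : ℝ) ^ (n / D)) *
        (Real.sin (((n % D : ℕ) : ℝ) * (Real.pi / D)) *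
          Real.sin ((((n % D : ℕ) : ℝ) + 1) * (Real.pi / D))) := by ring
  rw [h7, h6, one_mul]
  exact mul_nonneg h4 h5

theorem sin_sums_nonneg (D : ℕ) (hD : 2 ≤ D) (n : ℕ) :
    0 ≤ ∑ i ∈ Finset.range n, Real.sin (Real.pi * (2 / D) * (i + 1)) := by
  have h1 := sin_sums D (by omega) n
  have h2 := sin_prod_nonneg D (by omega) n
  rw [← h1] at h2
  have hpi := Real.pi_pos
  have hDr : (2 : ℝ) ≤ D := by exact_mod_cast hD
  have h3 : 0 < Real.sin (Real.pi / D) := by
    refine Real.sin_pos_of_pos_of_lt_pi (by positivity) ?_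
    rw [div_lt_iff₀ (by linarith)]
    nlinarith
  by_contra hcon
  push Not at hcon
  have := mul_neg_of_pos_of_neg h3 hcon
  linarith

theorem sin_first (D : ℕ) (hD : 3 ≤ D) : 1 / (D : ℝ) ≤ Real.sin (Real.pi * (2 / D)) := by
  have hpi := Real.pi_pos
  have hDr : (3 : ℝ) ≤ D := by exact_mod_cast hD
  rcases Nat.lt_or_ge D 4 with h | h
  · have : D = 3 := by omega
    subst this
    have e1 : Real.pi * (2 / ((3 : ℕ) : ℝ)) = Real.pi - Real.pi / 3 := by push_cast; ring
    rw [e1, Real.sin_pi_sub, Real.sin_pi_div_three]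
    have : (1 : ℝ) ≤ √3 := by
      rw [Real.one_le_sqrt]
      norm_num
    push_cast
    linarith
  · have hD4 : (4 : ℝ) ≤ D := by exact_mod_cast h
    have h1 := Real.mul_le_sin (x := Real.pi * (2 / D)) (by positivity) (by
      rw [← mul_div_assoc, div_le_iff₀ (by linarith)]
      nlinarith)
    have h2 : 2 / Real.pi * (Real.pi * (2 / D)) = 4 / D := by
      field_simp
      norm_num
    rw [h2] at h1
    refine le_trans ?_ h1
    gcongr
    norm_num

end Pool.Agent.Lib.MP_50b5e1_nt.U
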