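import Pool.Agent.Lib.MP_50b5e1_nt.U.U18

/-!
# U19: bounds for the alternating sum
-/

set_option autoImplicit false

namespace Pool.Agent.Lib.MP_50b5e1_nt.U

open Polynomial Filter Topology

theorem absH_upper {N k : ℕ} (hk : k + 1 < N) {x : ℝ} (h1 : nd N (k + 1) ≤ x) (h2 : x ≤ nd N k) :
    |(Hn N).eval x| ≤ 2 ^ N * (N.factorial : ℝ) := by
  rw [Hn_eval, Finset.abs_prod]
  have hb : ∀ i ∈ Finset.range N, |x - nd N i|
      ≤ (if i ≤ k then 2 * ((k : ℝ) + 1 - i) else 2 * ((i : ℝ) - k)) := by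
    intro i _
    split_ifs with h
    · have h3 := nd_le (N := N) h
      rw [abs_of_nonpos (by linarith)]
      unfold nd at h1 ⊢
      push_cast at h1
      linarith
    · have h3 := nd_le (N := N) (show k + 1 ≤ i by omega)
      rw [abs_of_nonneg (by linarith)]
      unfold nd at h2 ⊢
      linarith
  refine (Finset.prod_le_prod (fun i _ => abs_nonneg _) hb).trans ?_
  obtain ⟨m, rfl⟩ : ∃ m, N = (k + 1) + m := ⟨N - (k + 1), by omega⟩
  rw [Finset.prod_range_add]
  have e1 : ∏ i ∈ Finset.range (k + 1), (if i ≤ k then 2 * ((k : ℝ) + 1 - i) else 2 * ((i : ℝ) - k))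
      = 2 ^ (k + 1) * ((k + 1).factorial : ℝ) := by
    rw [← Finset.prod_range_add_one_eq_factorial, ← Finset.prod_range_reflect]
    push_cast
    have : (2 : ℝ) ^ (k + 1) = ∏ _i ∈ Finset.range (k + 1), (2 : ℝ) := by simp
    rw [this, ← Finset.prod_mul_distrib]
    refine Finset.prod_congr rfl fun i hi => ?_
    rw [Finset.mem_range] at hi
    rw [if_pos (by omega), Nat.cast_sub (by omega)]
    ring
  have e2 : ∏ i ∈ Finset.range m, (if k + 1 + i ≤ k then 2 * ((k : ℝ) + 1 - ((k + 1 + i : ℕ) : ℝ))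
      else 2 * (((k + 1 + i : ℕ) : ℝ) - k)) = 2 ^ m * (m.factorial : ℝ) := by
    rw [← Finset.prod_range_add_one_eq_factorial]
    push_cast
    have : (2 : ℝ) ^ m = ∏ _i ∈ Finset.range m, (2 : ℝ) := by simp
    rw [this, ← Finset.prod_mul_distrib]
    refine Finset.prod_congr rfl fun i _ => ?_
    rw [if_neg (by omega)]
    ring
  rw [e1, e2]
  have e3 : ((k + 1).factorial : ℝ) * (m.factorial : ℝ) ≤ ((k + 1 + m).factorial : ℝ) := by
    exact_mod_cast Nat.le_of_dvd (Nat.factorial_pos _) (Nat.factorial_mul_factorial_dvd_factorial_add _ _)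
  calc 2 ^ (k + 1) * ((k + 1).factorial : ℝ) * (2 ^ m * (m.factorial : ℝ))
      = 2 ^ (k + 1 + m) * (((k + 1).factorial : ℝ) * (m.factorial : ℝ)) := by rw [pow_add]; ring
    _ ≤ 2 ^ (k + 1 + m) * ((k + 1 + m).factorial : ℝ) := mul_le_mul_of_nonneg_left e3 (by positivity)

theorem absH_lower {N : ℕ} (hN : 4 ≤ N) {x : ℝ} (h1 : (N : ℝ) - 2 ≤ x) (h2 : x ≤ N - 3 / 2) :
    2 ^ N * (N.factorial : ℝ) / (8 * (N : ℝ) ^ 2) ≤ |(Hn N).eval x| := by
  rw [Hn_eval, Finset.abs_prod]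
  obtain ⟨n, rfl⟩ : ∃ n, N = n + 2 := ⟨N - 2, by omega⟩
  rw [Finset.prod_range_succ', Finset.prod_range_succ']
  have e0 : (1 : ℝ) / 2 ≤ |x - nd (n + 2) 0| := by
    rw [abs_of_nonpos (by unfold nd; push_cast at h2 ⊢; linarith)]
    unfold nd
    push_cast at h2 ⊢
    linarith
  have e1 : (1 : ℝ) ≤ |x - nd (n + 2) (0 + 1)| := by
    rw [abs_of_nonneg (by unfold nd; push_cast at h1 ⊢; linarith)]
    unfold nd
    push_cast at h1 ⊢
    linarith
  have e2 : 2 ^ n * (n.factorial : ℝ) ≤ ∏ k ∈ Finset.range n, |x - nd (n + 2) (k + 1 + 1)| := by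
    rw [← Finset.prod_range_add_one_eq_factorial]
    push_cast
    have : (2 : ℝ) ^ n = ∏ _i ∈ Finset.range n, (2 : ℝ) := by simp
    rw [this, ← Finset.prod_mul_distrib]
    refine Finset.prod_le_prod (fun i _ => by positivity) fun i _ => ?_
    rw [abs_of_nonneg (by unfold nd; push_cast at h1 ⊢; linarith [Nat.cast_nonneg (α := ℝ) i])]
    unfold nd
    push_cast at h1 ⊢
    linarith
  set P := ∏ k ∈ Finset.range n, |x - nd (n + 2) (k + 1 + 1)| with hP
  have hP0 : 0 ≤ P := Finset.prod_nonneg fun i _ => abs_nonneg _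
  have e3 : P * 1 * (1 / 2) ≤ P * |x - nd (n + 2) (0 + 1)| * |x - nd (n + 2) 0| := by
    refine mul_le_mul ?_ e0 (by norm_num) (by positivity)
    exact mul_le_mul_of_nonneg_left e1 hP0
  refine le_trans ?_ e3
  rw [mul_one]
  have e4 : 2 ^ n * (n.factorial : ℝ) * (1 / 2) ≤ P * (1 / 2) :=
    mul_le_mul_of_nonneg_right e2 (by norm_num)
  refine le_trans ?_ e4
  rw [div_le_iff₀ (by positivity), Nat.factorial_succ, Nat.factorial_succ]
  push_cast
  have e5 : (0 : ℝ) ≤ 2 ^ n * (n.factorial : ℝ) := by positivity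
  have e6 : ((n : ℝ) + 1 + 1) * ((n : ℝ) + 1) ≤ ((n : ℝ) + 2) ^ 2 := by
    have : (0 : ℝ) ≤ n := by positivity
    nlinarith
  have e7 : (2 : ℝ) ^ (n + 2) * (((n : ℝ) + 1 + 1) * (((n : ℝ) + 1) * (n.factorial : ℝ)))
      = 4 * (2 ^ n * (n.factorial : ℝ)) * (((n : ℝ) + 1 + 1) * ((n : ℝ) + 1)) := by
    rw [pow_add]
    ring
  rw [e7]
  have e8 := mul_le_mul_of_nonneg_left e6 (by positivity : 0 ≤ 4 * (2 ^ n * (n.factorial : ℝ)))
  linarith

/-- the alternating sum -/
noncomputable def Jsum (β : ℝ) (N : ℕ) : ℝ :=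
  ∑ k ∈ Finset.range (N - 1), Real.sin (Real.pi * β * (k + 1)) * Psi β N k

theorem Psi_abs {β : ℝ} (hβ : 0 < β) {N k : ℕ} (hk : k + 1 < N) :
    |Psi β N k| ≤ 2 * N * (2 ^ N * (N.factorial : ℝ)) ^ β := by
  unfold Psi
  have h := intervalIntegral.norm_integral_le_of_norm_le_const (f := Gw β N)
    (a := nd N (k + 1)) (b := nd N k) (C := N * (2 ^ N * (N.factorial : ℝ)) ^ β) (by
      intro x hx
      rw [Set.uIoc_of_le (nd_le (by omega))] at hx
      rw [Real.norm_eq_abs]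
      unfold Gw
      rw [abs_mul, abs_of_nonneg (by positivity : 0 ≤ |(Hn N).eval x| ^ β)]
      refine mul_le_mul ?_ (Real.rpow_le_rpow (abs_nonneg _)
        (absH_upper hk hx.1.le hx.2) hβ.le) (by positivity) (by positivity)
      have h1 : nd N k ≤ N := by
        unfold nd
        have : (0 : ℝ) ≤ k := by positivity
        linarith
      have h2 : -(N : ℝ) ≤ nd N (k + 1) := by
        unfold nd
        have : ((k + 1 + 1 : ℕ) : ℝ) ≤ N := by exact_mod_cast hk
        push_cast at this ⊢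
        linarith
      rw [abs_le]
      constructor <;> linarith [hx.1, hx.2])
  rw [Real.norm_eq_abs] at h
  refine h.trans (le_of_eq ?_)
  rw [nd_succ, show nd N k - (nd N k - 2) = 2 by ring]
  norm_num
  ring

theorem Jsum_upper {β : ℝ} (hβ : 0 < β) {N : ℕ} (hN : 1 ≤ N) :
    |Jsum β N| ≤ 2 * (N : ℝ) ^ 2 * (2 ^ N * (N.factorial : ℝ)) ^ β := by
  unfold Jsum
  refine (Finset.abs_sum_le_sum_abs _ _).trans ?_
  have h1 : ∀ k ∈ Finset.range (N - 1), |Real.sin (Real.pi * β * (k + 1)) * Psi β N k|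
      ≤ 2 * N * (2 ^ N * (N.factorial : ℝ)) ^ β := by
    intro k hk
    rw [Finset.mem_range] at hk
    rw [abs_mul]
    have h2 := Real.abs_sin_le_one (Real.pi * β * (k + 1))
    have h3 := Psi_abs hβ (N := N) (k := k) (by omega)
    have h4 := abs_nonneg (Psi β N k)
    nlinarith
  refine (Finset.sum_le_sum h1).trans ?_
  rw [Finset.sum_const, Finset.card_range, nsmul_eq_mul]
  have h5 : ((N - 1 : ℕ) : ℝ) ≤ N := by exact_mod_cast Nat.sub_le _ _
  have h6 : 0 ≤ 2 * (N : ℝ) * (2 ^ N * (N.factorial : ℝ)) ^ β := by positivity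
  nlinarith

theorem Jsum_lower {D N q : ℕ} (hD : 3 ≤ D) (hN : 4 ≤ N) (hq : N = D * q) :
    (2 ^ N * (N.factorial : ℝ) / (8 * (N : ℝ) ^ 2)) ^ (2 / (D : ℝ)) / (2 * D)
      ≤ Jsum (2 / (D : ℝ)) N := by
  have hDr : (3 : ℝ) ≤ D := by exact_mod_cast hD
  set β : ℝ := 2 / D with hβ'
  have hβ : 0 < β := by positivity
  set g : ℕ → ℝ := fun k => Real.sin (Real.pi * β * (k + 1)) * Psi β N k with hg
  have hsym : ∀ k, k + 2 ≤ N → g (N - 2 - k) = g k := by
    intro k hk
    simp only [hg]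
    rw [Psi_symm β hk]
    have e1 : Real.pi * β * (((N - 2 - k : ℕ) : ℝ) + 1)
        = (q : ℝ) * (2 * Real.pi) - Real.pi * β * (k + 1) := by
      rw [Nat.cast_sub (by omega), Nat.cast_sub (by omega)]
      have e2 : β * N = 2 * q := by
        rw [hβ', hq]
        push_cast
        field_simp
      push_cast
      linear_combination Real.pi * e2
    rw [e1, Real.sin_nat_mul_two_pi_sub]
    ring
  set u := (N - 1) / 2 with hu
  set v := N - 1 - u with hv
  have huv : N - 1 = u + v := by omega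
  have hJ : Jsum β N = ∑ k ∈ Finset.range u, g k + ∑ k ∈ Finset.range v, g k := by
    have h1 : Jsum β N = ∑ k ∈ Finset.range (u + v), g k := by rw [← huv]; rfl
    rw [h1, Finset.sum_range_add]
    congr 1
    rw [← Finset.sum_range_reflect]
    refine Finset.sum_congr rfl fun k hk => ?_
    rw [Finset.mem_range] at hk
    rw [← hsym (u + (v - 1 - k)) (by omega)]
    congr 1
    omega
  have hS : ∀ n, 0 ≤ ∑ i ∈ Finset.range n, (fun i : ℕ => Real.sin (Real.pi * β * (i + 1))) i :=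
    fun n => sin_sums_nonneg D (by omega) n
  obtain ⟨a1, -⟩ := abel hS u (P := Psi β N)
    (fun k hk => Psi_anti hβ (by omega) (by omega)) (fun k hk => Psi_nonneg (by omega))
  obtain ⟨-, a2⟩ := abel hS v (P := Psi β N)
    (fun k hk => Psi_anti hβ (by omega) (by omega)) (fun k hk => Psi_nonneg (by omega))
  have a3 := a2 (by omega)
  have h0 := Psi_diff hβ (N := N) (k := 0) (by omega) (by omega)
  simp only [zero_add] at h0
  -- the lower bound for the integral
  have h1 : (2 ^ N * (N.factorial : ℝ) / (8 * (N : ℝ) ^ 2)) ^ β / 2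
      ≤ ∫ x in (nd N 1)..(nd N 0), |(Hn N).eval x| ^ β := by
    have n1 : nd N 1 = N - 3 := by unfold nd; push_cast; ring
    have n0 : nd N 0 = N - 1 := by unfold nd; push_cast; ring
    rw [n1, n0, ← intervalIntegral.integral_add_adjacent_intervals
      (absH_int hβ N ((N : ℝ) - 3) (N - 2)) (absH_int hβ N ((N : ℝ) - 2) (N - 1)),
      ← intervalIntegral.integral_add_adjacent_intervals
      (absH_int hβ N ((N : ℝ) - 2) (N - 3 / 2)) (absH_int hβ N ((N : ℝ) - 3 / 2) (N - 1))]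
    have p1 : 0 ≤ ∫ x in ((N : ℝ) - 3)..(N - 2), |(Hn N).eval x| ^ β :=
      intervalIntegral.integral_nonneg (by linarith) fun x _ => by positivity
    have p2 : 0 ≤ ∫ x in ((N : ℝ) - 3 / 2)..(N - 1), |(Hn N).eval x| ^ β :=
      intervalIntegral.integral_nonneg (by linarith) fun x _ => by positivity
    have p3 : ∫ _x in ((N : ℝ) - 2)..(N - 3 / 2),
        (2 ^ N * (N.factorial : ℝ) / (8 * (N : ℝ) ^ 2)) ^ β
        ≤ ∫ x in ((N : ℝ) - 2)..(N - 3 / 2), |(Hn N).eval x| ^ β := by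
      refine intervalIntegral.integral_mono_on (by linarith) intervalIntegrable_const
        (absH_int hβ N _ _) ?_
      intro x hx
      exact Real.rpow_le_rpow (by positivity) (absH_lower hN hx.1 hx.2) hβ.le
    rw [intervalIntegral.integral_const, smul_eq_mul] at p3
    have p4 : ((N : ℝ) - 3 / 2 - (N - 2)) = 1 / 2 := by ring
    rw [p4] at p3
    linarith
  have h2 := sin_first D hD
  rw [← hβ'] at h2
  have h3 : Real.sin (Real.pi * β * (((0 : ℕ) : ℝ) + 1)) = Real.sin (Real.pi * β) := by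
    push_cast
    rw [zero_add, mul_one]
  rw [h3] at a3
  have h4 : 0 ≤ (2 ^ N * (N.factorial : ℝ) / (8 * (N : ℝ) ^ 2)) ^ β / 2 := by positivity
  have h5 : (1 / (D : ℝ)) * ((2 ^ N * (N.factorial : ℝ) / (8 * (N : ℝ) ^ 2)) ^ β / 2)
      ≤ Real.sin (Real.pi * β) * (Psi β N 0 - Psi β N 1) := by
    refine mul_le_mul h2 (h1.trans h0) h4 ?_
    exact (by positivity : (0 : ℝ) ≤ 1 / D).trans h2
  rw [hJ]
  have h6 : (2 ^ N * (N.factorial : ℝ) / (8 * (N : ℝ) ^ 2)) ^ β / (2 * D)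
      = (1 / (D : ℝ)) * ((2 ^ N * (N.factorial : ℝ) / (8 * (N : ℝ) ^ 2)) ^ β / 2) := by
    field_simp
  rw [h6]
  have a1' : 0 ≤ ∑ k ∈ Finset.range u, g k := a1
  have a3' : Real.sin (Real.pi * β) * (Psi β N 0 - Psi β N 1) ≤ ∑ k ∈ Finset.range v, g k := a3
  linarith

end Pool.Agent.Lib.MP_50b5e1_nt.U
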