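import Mathlib

/-!
# U2: weighted norms of integer polynomials
-/

set_option autoImplicit false

namespace Pool.Agent.Lib.MP_50b5e1_nt.U

open Polynomial

/-- the weighted norm `∑ |f_i| t^i` -/
noncomputable def wn (f : ℤ[X]) (t : ℝ) : ℝ := ∑ i ∈ f.support, |(f.coeff i : ℝ)| * t ^ i

theorem wn_eq_sum {f : ℤ[X]} {s : Finset ℕ} (hs : f.support ⊆ s) (t : ℝ) :
    wn f t = ∑ i ∈ s, |(f.coeff i : ℝ)| * t ^ i := by
  unfold wn
  refine Finset.sum_subset hs fun i _ hi => ?_
  rw [notMem_support_iff.1 hi]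
  simp

theorem wn_nonneg (f : ℤ[X]) {t : ℝ} (ht : 0 ≤ t) : 0 ≤ wn f t :=
  Finset.sum_nonneg fun i _ => by positivity

theorem wn_zero (t : ℝ) : wn 0 t = 0 := by simp [wn]

theorem wn_le_of_coeff {f g h : ℤ[X]} {t : ℝ} (ht : 0 ≤ t)
    (hle : ∀ i, |f.coeff i| ≤ |g.coeff i| + |h.coeff i|) : wn f t ≤ wn g t + wn h t := by
  classical
  set s := f.support ∪ g.support ∪ h.support
  rw [wn_eq_sum (s := s) (f := f) (by intro i hi; simp only [s, Finset.mem_union]; tauto),
    wn_eq_sum (s := s) (f := g) (by intro i hi; simp only [s, Finset.mem_union]; tauto),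
    wn_eq_sum (s := s) (f := h) (by intro i hi; simp only [s, Finset.mem_union]; tauto),
    ← Finset.sum_add_distrib]
  refine Finset.sum_le_sum fun i _ => ?_
  rw [← add_mul]
  refine mul_le_mul_of_nonneg_right ?_ (by positivity)
  have := hle i
  exact_mod_cast this

theorem wn_add_le (f g : ℤ[X]) {t : ℝ} (ht : 0 ≤ t) : wn (f + g) t ≤ wn f t + wn g t :=
  wn_le_of_coeff ht fun i => by rw [coeff_add]; exact abs_add_le _ _

theorem wn_sub_le (f g : ℤ[X]) {t : ℝ} (ht : 0 ≤ t) : wn (f - g) t ≤ wn f t + wn g t :=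
  wn_le_of_coeff ht fun i => by rw [coeff_sub]; exact abs_sub _ _

theorem wn_sum_le {ι : Type*} (s : Finset ι) (f : ι → ℤ[X]) {t : ℝ} (ht : 0 ≤ t) :
    wn (∑ i ∈ s, f i) t ≤ ∑ i ∈ s, wn (f i) t := by
  classical
  induction s using Finset.induction_on with
  | empty => simp [wn_zero]
  | insert a s ha ih =>
    rw [Finset.sum_insert ha, Finset.sum_insert ha]
    exact (wn_add_le _ _ ht).trans (by linarith)

theorem wn_monomial (n : ℕ) (c : ℤ) (t : ℝ) : wn (monomial n c) t = |(c : ℝ)| * t ^ n := by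
  rw [wn_eq_sum (s := {n}) (support_monomial_subset n c)]
  simp

theorem wn_X_pow (n : ℕ) (t : ℝ) : wn (X ^ n : ℤ[X]) t = t ^ n := by
  rw [← monomial_one_right_eq_X_pow, wn_monomial]
  simp

theorem wn_natCast (n : ℕ) (t : ℝ) : wn (n : ℤ[X]) t = n := by
  have : (n : ℤ[X]) = monomial 0 (n : ℤ) := by simp
  rw [this, wn_monomial]
  simp

theorem wn_mul_le (f g : ℤ[X]) {t : ℝ} (ht : 0 ≤ t) : wn (f * g) t ≤ wn f t * wn g t := by
  rw [mul_eq_sum_sum]
  refine (wn_sum_le _ _ ht).trans ?_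
  unfold wn
  rw [Finset.sum_mul]
  refine Finset.sum_le_sum fun i _ => ?_
  change wn _ t ≤ _
  rw [Polynomial.sum, Finset.mul_sum]
  refine (wn_sum_le _ _ ht).trans (Finset.sum_le_sum fun j _ => ?_)
  rw [wn_monomial]
  push_cast
  rw [abs_mul, pow_add]
  exact le_of_eq (by ring)

theorem wn_pow_le (f : ℤ[X]) {t : ℝ} (ht : 0 ≤ t) (n : ℕ) : wn (f ^ n) t ≤ wn f t ^ n := by
  induction n with
  | zero =>
    have := wn_X_pow 0 t
    simp only [pow_zero] at this ⊢
    exact le_of_eq this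
  | succ n ih =>
    rw [pow_succ, pow_succ]
    exact (wn_mul_le _ _ ht).trans (mul_le_mul_of_nonneg_right ih (wn_nonneg _ ht))

theorem wn_prod_le {ι : Type*} (s : Finset ι) (f : ι → ℤ[X]) {t : ℝ} (ht : 0 ≤ t) :
    wn (∏ i ∈ s, f i) t ≤ ∏ i ∈ s, wn (f i) t := by
  classical
  induction s using Finset.induction_on with
  | empty =>
    have := wn_X_pow 0 t
    simp only [pow_zero] at this
    simp [this]
  | insert a s ha ih =>
    rw [Finset.prod_insert ha, Finset.prod_insert ha]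
    exact (wn_mul_le _ _ ht).trans (mul_le_mul_of_nonneg_left ih (wn_nonneg _ ht))

/-- multiplication by `c X^m` multiplies the norm exactly -/
theorem wn_shift (f : ℤ[X]) (c : ℕ) (m : ℕ) (t : ℝ) :
    wn ((c : ℤ[X]) * X ^ m * f) t = c * t ^ m * wn f t := by
  set n := f.natDegree + 1 with hn
  have h1 : f.support ⊆ Finset.range n := by
    intro i hi
    rw [Finset.mem_range]
    have := le_natDegree_of_mem_supp i hi
    omega
  have hco : ∀ i, ((c : ℤ[X]) * X ^ m * f).coeff i = if m ≤ i then (c : ℤ) * f.coeff (i - m) else 0 := by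
    intro i
    have : (c : ℤ[X]) * X ^ m * f = C (c : ℤ) * (f * X ^ m) := by
      simp; ring
    rw [this, coeff_C_mul, coeff_mul_X_pow']
    split_ifs <;> simp
  have h2 : ((c : ℤ[X]) * X ^ m * f).support ⊆ Finset.range (m + n) := by
    intro i hi
    rw [Finset.mem_range]
    rw [mem_support_iff, hco] at hi
    by_contra hcon
    apply hi
    split_ifs with h
    · rw [coeff_eq_zero_of_natDegree_lt (by omega), mul_zero]
    · rfl
  rw [wn_eq_sum h2, wn_eq_sum h1, Finset.sum_range_add, Finset.mul_sum]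
  rw [Finset.sum_eq_zero, zero_add]
  · refine Finset.sum_congr rfl fun i _ => ?_
    rw [hco, if_pos (by omega), Nat.add_sub_cancel_left]
    push_cast
    rw [abs_mul, pow_add, Nat.abs_cast]
    ring
  · intro i hi
    rw [hco, if_neg (by have := Finset.mem_range.1 hi; omega)]
    simp

/-- splitting off the leading term of a monic polynomial -/
theorem wn_monic {f : ℤ[X]} (hf : f.Monic) {n : ℕ} (hn : f.natDegree = n) (t : ℝ) :
    wn f t = t ^ n + wn (f - X ^ n) t := by
  have h1 : f.support ⊆ Finset.range (n + 1) := by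
    intro i hi
    rw [Finset.mem_range]
    have := le_natDegree_of_mem_supp i hi
    omega
  have hco : ∀ i < n, (f - X ^ n).coeff i = f.coeff i := by
    intro i hi
    rw [coeff_sub, coeff_X_pow, if_neg (by omega), sub_zero]
  have h2 : (f - X ^ n).support ⊆ Finset.range n := by
    intro i hi
    rw [Finset.mem_range]
    by_contra hcon
    rw [mem_support_iff] at hi
    apply hi
    rw [coeff_sub, coeff_X_pow]
    rcases eq_or_ne i n with h | h
    · rw [if_pos h, h, ← hn, hf.coeff_natDegree, sub_self]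
    · rw [if_neg h, coeff_eq_zero_of_natDegree_lt (by omega), sub_self]
  rw [wn_eq_sum h1, wn_eq_sum h2, Finset.sum_range_succ, add_comm]
  congr 1
  · rw [← hn, hf.coeff_natDegree]
    simp
  · exact Finset.sum_congr rfl fun i hi => by rw [hco i (Finset.mem_range.1 hi)]

/-- evaluation is bounded by the norm -/
theorem abs_aeval_le (f : ℤ[X]) {t : ℝ} (ht : 0 ≤ t) : |aeval t f| ≤ wn f t := by
  rw [aeval_def, eval₂_eq_sum, Polynomial.sum]
  refine (Finset.abs_sum_le_sum_abs _ _).trans ?_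
  unfold wn
  refine Finset.sum_le_sum fun i _ => ?_
  rw [abs_mul, abs_of_nonneg (pow_nonneg ht i)]
  simp

/-- growth of the norm of a polynomial of degree less than `n + 1` -/
theorem wn_growth {f : ℤ[X]} {n : ℕ} (hn : f.natDegree ≤ n) {s t : ℝ} (hs : 0 < s) (hst : s ≤ t) :
    wn f t ≤ (t / s) ^ n * wn f s := by
  unfold wn
  rw [Finset.mul_sum]
  refine Finset.sum_le_sum fun i hi => ?_
  have h1 : i ≤ n := (le_natDegree_of_mem_supp i hi).trans hn
  have h2 : t ^ i = (t / s) ^ i * s ^ i := by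
    rw [← mul_pow, div_mul_cancel₀ t hs.ne']
  have h3 : (t / s) ^ i ≤ (t / s) ^ n :=
    pow_le_pow_right₀ ((one_le_div hs).2 hst) h1
  rw [h2]
  calc |(f.coeff i : ℝ)| * ((t / s) ^ i * s ^ i) = (t / s) ^ i * (|(f.coeff i : ℝ)| * s ^ i) := by ring
    _ ≤ (t / s) ^ n * (|(f.coeff i : ℝ)| * s ^ i) :=
      mul_le_mul_of_nonneg_right h3 (by positivity)

end Pool.Agent.Lib.MP_50b5e1_nt.U
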