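import Pool.Agent.Lib.MP_50b5e1_nt.U.U19

/-!
# U20: the exact degree and the size of the remainder
-/

set_option autoImplicit false

namespace Pool.Agent.Lib.MP_50b5e1_nt.U

open Polynomial Filter Topology

/-- sum of products of powers of two monic polynomials of the same degree -/
theorem geom_top {A B : ℝ[X]} {q d : ℕ} (hd : 1 ≤ d) (hA : A.Monic) (hB : B.Monic)
    (ha : A.natDegree = q) (hb : B.natDegree = q) :
    (∑ i ∈ Finset.range d, A ^ i * B ^ (d - 1 - i)).natDegree ≤ q * (d - 1) ∧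
    (∑ i ∈ Finset.range d, A ^ i * B ^ (d - 1 - i)).coeff (q * (d - 1)) = d := by
  have h1 : ∀ i ∈ Finset.range d, (A ^ i * B ^ (d - 1 - i)).Monic ∧
      (A ^ i * B ^ (d - 1 - i)).natDegree = q * (d - 1) := by
    intro i hi
    rw [Finset.mem_range] at hi
    refine ⟨(hA.pow i).mul (hB.pow _), ?_⟩
    rw [(hA.pow i).natDegree_mul (hB.pow _), hA.natDegree_pow, hB.natDegree_pow, ha, hb, ← add_mul]
    rw [show i + (d - 1 - i) = d - 1 by omega, mul_comm]
  constructor
  · refine natDegree_sum_le_of_forall_le _ _ fun i hi => (h1 i hi).2.le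
  · rw [finsetSum_coeff, Finset.sum_congr rfl (g := fun _ => (1 : ℝ))]
    · simp
    · intro i hi
      rw [← (h1 i hi).2]
      exact (h1 i hi).1

/-- uniqueness of the polynomial part of the root -/
theorem root_unique {A B R S : ℝ[X]} {q d : ℕ} (hd : 1 ≤ d) (hA : A.Monic) (hB : B.Monic)
    (ha : A.natDegree = q) (hb : B.natDegree = q) (hR : ∀ n, q * (d - 1) ≤ n → R.coeff n = 0)
    (hS : ∀ n, q * (d - 1) ≤ n → S.coeff n = 0) (h : A ^ d + R = B ^ d + S) : A = B := by
  by_contra hne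
  have h0 : A - B ≠ 0 := sub_ne_zero.2 hne
  obtain ⟨g1, g2⟩ := geom_top hd hA hB ha hb
  have h2 := Commute.geom_sum₂_mul (Commute.all A B) d
  have h3 : A ^ d - B ^ d = S - R := by
    rw [sub_eq_sub_iff_add_eq_add, add_comm S, ← h]
  rw [h3] at h2
  have h4 := congrArg (fun p : ℝ[X] => p.coeff (q * (d - 1) + (A - B).natDegree)) h2
  have hz : (S - R).coeff (q * (d - 1) + (A - B).natDegree) = 0 := by
    rw [coeff_sub, hS _ (by omega), hR _ (by omega), sub_zero]
  rw [coeff_mul_add_eq_of_natDegree_le g1 le_rfl, g2, hz] at h4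
  have h5 : (A - B).coeff (A - B).natDegree ≠ 0 := leadingCoeff_ne_zero.2 h0
  have h6 : (d : ℝ) ≠ 0 := by exact_mod_cast (by omega : d ≠ 0)
  exact mul_ne_zero h6 h5 h4

theorem Hn_sq_comp_neg (N : ℕ) : ((Hn N) ^ 2).comp (-X) = (Hn N) ^ 2 := by
  refine Polynomial.funext fun x => ?_
  rw [eval_comp, eval_neg, eval_X, eval_pow, eval_pow, ← sq_abs, Hn_neg, sq_abs]

/-- the remainder is even -/
theorem rem_even {N q d : ℕ} (hd : 1 ≤ d) (hq : Even q) {A R : ℝ[X]} (hA : A.Monic)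
    (hdeg : A.natDegree = q) (hR : (Hn N) ^ 2 = A ^ d + R)
    (hc : ∀ n, q * (d - 1) ≤ n → R.coeff n = 0) {n : ℕ} (hn : Odd n) : R.coeff n = 0 := by
  have hneg : ∀ (p : ℝ[X]) (m : ℕ), (p.comp (-X)).coeff m = (-1) ^ m * p.coeff m := by
    intro p m
    have : (-X : ℝ[X]) = C (-1) * X := by simp
    rw [this, comp_C_mul_X_coeff]
    ring
  have hdeg' : (A.comp (-X)).natDegree = q := by
    rw [natDegree_comp, natDegree_neg, natDegree_X, mul_one, hdeg]
  have hA' : (A.comp (-X)).Monic := by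
    rw [Monic, leadingCoeff, hdeg', hneg, hq.neg_one_pow, one_mul, ← hdeg]
    exact hA
  have h1 := congrArg (fun p : ℝ[X] => p.comp (-X)) hR
  simp only [add_comp, pow_comp] at h1
  have h2 := Hn_sq_comp_neg N
  rw [pow_comp] at h2
  rw [h2, hR] at h1
  have hc' : ∀ m, q * (d - 1) ≤ m → (R.comp (-X)).coeff m = 0 := by
    intro m hm
    rw [hneg, hc m hm, mul_zero]
  have h3 := root_unique hd hA hA' hdeg hdeg' hc hc' h1
  rw [← h3] at h1
  have h4 : R = R.comp (-X) := add_left_cancel h1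
  have h5 := congrArg (fun p : ℝ[X] => p.coeff n) h4
  simp only [hneg] at h5
  rw [hn.neg_one_pow] at h5
  linarith

/-- **exact degree and size of the remainder**, over the reals -/
theorem real_facts {a d N : ℕ} (ha : 1 ≤ a) (hd : 3 ≤ d) (hN : N = d * a) (hN4 : 4 ≤ N)
    {A R : ℝ[X]} (hA : A.Monic) (hdeg : A.natDegree = 2 * a) (hR : (Hn N) ^ 2 = A ^ d + R)
    (hc : ∀ n, 2 * a * (d - 1) ≤ n → R.coeff n = 0) :
    R.natDegree + (2 * a + 2) = 2 * N ∧
    (2 ^ N * (N.factorial : ℝ)) ^ (2 / (d : ℝ)) / (64 * (N : ℝ) ^ 2) ≤ |R.leadingCoeff| ∧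
    |R.leadingCoeff| ≤ d * (N : ℝ) ^ 2 * (2 ^ N * (N.factorial : ℝ)) ^ (2 / (d : ℝ)) := by
  have hdr : (3 : ℝ) ≤ d := by exact_mod_cast hd
  set β : ℝ := 2 / d with hβ'
  have hβ : 0 < β := by positivity
  have hβD : β * d = 2 := by rw [hβ']; field_simp
  have hβN : β * N = ((2 * a : ℕ) : ℝ) := by
    rw [hβ', hN]
    push_cast
    field_simp
  obtain ⟨e, he⟩ : ∃ e, e + 2 = 2 * a * (d - 1) := ⟨2 * a * (d - 1) - 2, by
    have : 2 * 1 * 1 ≤ 2 * a * (d - 1) := Nat.mul_le_mul (Nat.mul_le_mul_left 2 ha) (by omega)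
    omega⟩
  have hNe : e + (2 * a + 2) = 2 * N := by
    obtain ⟨c, rfl⟩ : ∃ c, d = c + 1 := ⟨d - 1, by omega⟩
    rw [Nat.add_sub_cancel] at he
    rw [hN]
    have : 2 * ((c + 1) * a) = 2 * a * c + 2 * a := by ring
    omega
  have hRe : R.natDegree ≤ e := by
    rw [natDegree_le_iff_coeff_eq_zero]
    intro n hn
    rcases Nat.lt_or_ge (e + 1) n with h | h
    · exact hc n (by omega)
    · have hn1 : n = e + 1 := by omega
      refine rem_even (by omega) ⟨a, by ring⟩ hA hdeg hR hc ?_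
      rw [hn1]
      have : e + 1 = 2 * (a * (d - 1) - 1) + 1 := by
        have : 2 * a * (d - 1) = 2 * (a * (d - 1)) := by ring
        omega
      rw [this]
      exact ⟨_, rfl⟩
  -- complex versions
  set ι : ℝ →+* ℂ := Complex.ofRealHom with hι
  have hAc : (A.map ι).Monic := hA.map ι
  have hdegc : (A.map ι).natDegree = 2 * a := by
    rw [natDegree_map_eq_of_injective (RingHom.injective ι), hdeg]
  have hRc : (∏ i ∈ Finset.range N, (X - C (nd N i : ℂ))) ^ 2 = (A.map ι) ^ d + R.map ι := by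
    have h1 := congrArg (fun p : ℝ[X] => p.map ι) hR
    simp only [Polynomial.map_pow, Polynomial.map_add] at h1
    rw [← h1]
    congr 1
    unfold Hn
    rw [Lagrange.nodal_eq, Polynomial.map_prod]
    refine Finset.prod_congr rfl fun i _ => ?_
    simp [hι]
  have hRce : (R.map ι).natDegree ≤ e := natDegree_map_le.trans hRe
  have hlim := diff_lim (by omega : 1 ≤ d) hβD hβN hAc hdegc hRc hRce he
  rw [coeff_map] at hlim
  have hclim : (ι (R.coeff e)) / (d : ℂ) = ((R.coeff e / d : ℝ) : ℂ) := by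
    rw [hι]
    push_cast
    rfl
  rw [hclim] at hlim
  -- the contour
  have hev : ∀ x : ℝ, ((A.map ι).eval (x : ℂ)) = ((A.eval x : ℝ) : ℂ) := by
    intro x
    rw [hι, eval_map]
    have := Polynomial.hom_eval₂ A (RingHom.id ℝ) Complex.ofRealHom x
    rw [RingHom.comp_id] at this
    rw [← Polynomial.eval₂_id]
    exact this.symm
  set g : ℂ → ℂ := fun z => z * (fH β N z - (A.map ι).eval z) with hg
  have hgc : ContinuousOn g UH := by
    refine continuousOn_id.mul ((fH_continuousOn hβ N).sub ?_)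
    exact (A.map ι).continuous.continuousOn
  have hgd : ∀ z : ℂ, 0 < z.im → DifferentiableAt ℂ g z := by
    intro z hz
    exact differentiableAt_id.mul ((fH_differentiableAt β N hz).sub (A.map ι).differentiableAt)
  have hglim : Tendsto (fun z => z * g z) FI (𝓝 ((R.coeff e / d : ℝ) : ℂ)) := by
    refine hlim.congr fun z => ?_
    rw [hg]
    ring
  obtain ⟨c1, c2⟩ := contour hgc hgd hglim (J := Jsum β N) (T₀ := N) (by
    intro T hT
    have := J_eq hβ (by omega : 1 ≤ N) hβN hT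
    unfold Jsum
    rw [← this]
    refine intervalIntegral.integral_congr fun x _ => ?_
    simp only [hg]
    rw [hev, Complex.im_ofReal_mul, Complex.sub_im, Complex.ofReal_im, sub_zero])
  have j1 := Jsum_lower hd hN4 hN
  have j2 := Jsum_upper hβ (N := N) (by omega)
  rw [← hβ'] at j1
  set Y := (2 ^ N * (N.factorial : ℝ)) with hY
  have hY0 : 0 < Y := by positivity
  have hNr : (4 : ℝ) ≤ N := by exact_mod_cast hN4
  have j3 : Y ^ β / (8 * (N : ℝ) ^ 2) ≤ (Y / (8 * (N : ℝ) ^ 2)) ^ β := by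
    rw [Real.div_rpow hY0.le (by positivity)]
    refine div_le_div_of_nonneg_left (by positivity) (by positivity) ?_
    have h8 : (1 : ℝ) ≤ 8 * (N : ℝ) ^ 2 := by nlinarith
    have hβ1 : β ≤ 1 := by
      rw [hβ', div_le_one (by linarith)]
      linarith
    calc (8 * (N : ℝ) ^ 2) ^ β ≤ (8 * (N : ℝ) ^ 2) ^ (1 : ℝ) :=
          Real.rpow_le_rpow_of_exponent_le h8 hβ1
      _ = 8 * (N : ℝ) ^ 2 := Real.rpow_one _
  have hYβ : 0 < Y ^ β := Real.rpow_pos_of_pos hY0 _
  have habs : |R.coeff e / d| = |R.coeff e| / d := by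
    rw [abs_div, abs_of_pos (by linarith : (0 : ℝ) < d)]
  rw [habs] at c1 c2
  have hlow : Y ^ β / (64 * (N : ℝ) ^ 2) ≤ |R.coeff e| := by
    have h1 : Y ^ β / (8 * (N : ℝ) ^ 2) / (2 * d) ≤ Jsum β N :=
      (div_le_div_of_nonneg_right j3 (by positivity)).trans j1
    have h2 : Y ^ β / (8 * (N : ℝ) ^ 2) / (2 * d) ≤ 4 * (|R.coeff e| / d) :=
      h1.trans ((le_abs_self _).trans c2)
    have h3 : Y ^ β / (8 * (N : ℝ) ^ 2) / (2 * d) = 4 * ((Y ^ β / (64 * (N : ℝ) ^ 2)) / d) := by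
      field_simp
      norm_num
    rw [h3] at h2
    have h4 := le_of_mul_le_mul_left h2 (by norm_num)
    exact (div_le_div_iff_of_pos_right (by linarith)).1 h4
  have hup : |R.coeff e| ≤ d * (N : ℝ) ^ 2 * Y ^ β := by
    have h1 : 2 * (|R.coeff e| / d) ≤ 2 * ((N : ℝ) ^ 2 * Y ^ β) := by
      refine (c1.trans j2).trans (le_of_eq ?_)
      ring
    have h2 := le_of_mul_le_mul_left h1 (by norm_num)
    rw [div_le_iff₀ (by linarith)] at h2
    linarith
  have hne : R.coeff e ≠ 0 := by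
    intro h0
    rw [h0, abs_zero] at hlow
    have : 0 < Y ^ β / (64 * (N : ℝ) ^ 2) := by positivity
    linarith
  have hdegR : R.natDegree = e := le_antisymm hRe (le_natDegree_of_ne_zero hne)
  have hlc : R.leadingCoeff = R.coeff e := by rw [leadingCoeff, hdegR]
  rw [hlc, hdegR]
  exact ⟨hNe, hlow, hup⟩

end Pool.Agent.Lib.MP_50b5e1_nt.U
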