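import Pool.Agent.Lib.MP_50b5e1_nt.U.U8

/-!
# U9: sizes of the values
-/

set_option autoImplicit false

namespace Pool.Agent.Lib.MP_50b5e1_nt.U

open Polynomial

theorem aeval_int (f : ℤ[X]) (Y : ℤ) : aeval (Y : ℝ) f = ((f.eval Y : ℤ) : ℝ) := by
  rw [aeval_def, algebraMap_int_eq]
  have := eval₂_at_intCast (p := f) (Int.castRingHom ℝ) Y
  rw [this]
  simp

/-- the data attached to a block -/
theorem exists_pack {a d M : ℕ} (ha : 1 ≤ a) (hd : 2 ≤ d) (hM : a * d ≤ M) :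
    ∃ A R : ℤ[X], A.Monic ∧ A.natDegree = a ∧ nodeP ((d : ℤ) ^ 2) (a * d) = A ^ d + R ∧
      (∀ n, a * (d - 1) ≤ n → R.coeff n = 0) ∧
      ∀ t : ℝ, 10 * (d : ℝ) ^ 2 * (M : ℝ) ^ 2 ≤ t →
        wn (nodeP ((d : ℤ) ^ 2) (a * d) - X ^ (a * d)) t ≤ t ^ (a * d) / 7 ∧
        wn R t ≤ t ^ (a * d) ∧ (d : ℝ) * wn (A - X ^ a) t / t ^ a ≤ 1 / 2 := by
  obtain ⟨A, hA, hdeg, hc⟩ := exists_root (d := d) (a := a) (by omega)
    (nodeP_monic ((d : ℤ) ^ 2) (a * d)) (nodeP_natDegree _ _)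
    (fun i hi => nodeP_dvd _ _ hi)
  refine ⟨A, nodeP ((d : ℤ) ^ 2) (a * d) - A ^ d, hA, hdeg, by ring, hc, ?_⟩
  obtain ⟨e, rfl⟩ : ∃ e, d = e + 1 := ⟨d - 1, by omega⟩
  rw [Nat.add_sub_cancel] at hc
  have hlam : (0 : ℝ) < 10 * ((e + 1 : ℕ) : ℝ) ^ 2 * (M : ℝ) ^ 2 := by
    have h1 : 0 < M := lt_of_lt_of_le (by positivity) hM
    have h2 : (0 : ℝ) < M := by exact_mod_cast h1
    positivity
  have h7 : ∀ t : ℝ, 10 * ((e + 1 : ℕ) : ℝ) ^ 2 * (M : ℝ) ^ 2 ≤ t →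
      wn (nodeP (((e + 1 : ℕ) : ℤ) ^ 2) (a * (e + 1)) - X ^ (a * (e + 1))) t
        ≤ t ^ (a * (e + 1)) / 7 := by
    intro t ht
    refine nodeP_wn_seven (by positivity) _ (lt_of_lt_of_le hlam ht) (le_trans ?_ ht)
    push_cast
    have h3 : ((a * (e + 1) : ℕ) : ℝ) ≤ M := by exact_mod_cast hM
    push_cast at h3
    have h4 : ((a : ℝ) * ((e : ℝ) + 1)) ^ 2 ≤ (M : ℝ) ^ 2 := pow_le_pow_left₀ (by positivity) h3 2
    exact mul_le_mul_of_nonneg_left h4 (by positivity)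
  have h4 : ∀ t : ℝ, 10 * ((e + 1 : ℕ) : ℝ) ^ 2 * (M : ℝ) ^ 2 ≤ t →
      wn (nodeP (((e + 1 : ℕ) : ℤ) ^ 2) (a * (e + 1)) - X ^ (a * (e + 1))) t
        ≤ t ^ (a * (e + 1)) / 4 := by
    intro t ht
    have h5 := h7 t ht
    have h6 : 0 ≤ t ^ (a * (e + 1)) := pow_nonneg (hlam.le.trans ht) _
    linarith
  intro t ht
  have h8 := root_small ha hA hdeg hc hlam h4 ht
  exact ⟨h7 t ht, rem_bound hA hdeg (lt_of_lt_of_le hlam ht) (h4 t ht) h8, h8⟩

/-- the value of the node polynomial -/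
theorem value_node {P : ℤ[X]} {N : ℕ} {Y : ℤ} (hY : 0 < Y)
    (h : wn (P - X ^ N) (Y : ℝ) ≤ (Y : ℝ) ^ N / 7) :
    |((P.eval Y : ℤ) : ℝ) - (Y : ℝ) ^ N| ≤ (Y : ℝ) ^ N / 7 := by
  have h1 := abs_aeval_le (P - X ^ N) (t := (Y : ℝ)) (by exact_mod_cast hY.le)
  rw [aeval_int] at h1
  simp only [eval_sub, eval_pow, eval_X] at h1
  push_cast at h1
  linarith

/-- the leading coefficient -/
theorem lead_le {R : ℤ[X]} {N j : ℕ} {l : ℝ} (hl : 1 ≤ l) (hj : R.natDegree + j = N)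
    (h : wn R l ≤ l ^ N) : |(R.leadingCoeff : ℝ)| ≤ l ^ j := by
  have hl0 : 0 < l := by linarith
  by_cases hR : R = 0
  · rw [hR]
    simp
    positivity
  have h1 : |(R.leadingCoeff : ℝ)| * l ^ R.natDegree ≤ wn R l := by
    unfold wn
    exact Finset.single_le_sum (f := fun i => |(R.coeff i : ℝ)| * l ^ i)
      (fun i _ => by positivity) (natDegree_mem_support_of_nonzero hR)
  have h2 : l ^ N = l ^ j * l ^ R.natDegree := by rw [← hj, pow_add]; ring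
  rw [h2] at h
  exact le_of_mul_le_mul_right (h1.trans h) (pow_pos hl0 _)

theorem one_le_lead {R : ℤ[X]} (hR : R ≠ 0) : 1 ≤ |(R.leadingCoeff : ℝ)| := by
  have h1 : R.leadingCoeff ≠ 0 := leadingCoeff_ne_zero.2 hR
  have h2 : 1 ≤ |R.leadingCoeff| := Int.one_le_abs h1
  exact_mod_cast h2

/-- the leading term dominates -/
theorem value_lead {R : ℤ[X]} {N j : ℕ} {l : ℝ} (hl : 1 ≤ l) (hR : R ≠ 0)
    (hj : R.natDegree + j = N) (h : wn R l ≤ l ^ N) {Y : ℤ} (hY : 4 * l ^ (j + 1) ≤ Y) :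
    |((R.eval Y : ℤ) : ℝ) - R.leadingCoeff * (Y : ℝ) ^ R.natDegree|
      ≤ |(R.leadingCoeff : ℝ)| * (Y : ℝ) ^ R.natDegree / 4 := by
  have hl0 : 0 < l := by linarith
  have hlY : l ≤ Y := by
    refine le_trans ?_ hY
    have h1 : l ≤ l ^ (j + 1) := le_self_pow₀ hl (by omega)
    have h2 : 0 ≤ l ^ (j + 1) := by positivity
    linarith
  have hY0 : (0 : ℝ) < Y := lt_of_lt_of_le hl0 hlY
  set e := R.natDegree with he
  set ρ := R.leadingCoeff with hρ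
  have h1 : ((R.eval Y : ℤ) : ℝ) - ρ * (Y : ℝ) ^ e = ((R.eraseLead.eval Y : ℤ) : ℝ) := by
    have h2 := congrArg (fun p : ℤ[X] => p.eval Y) (eraseLead_add_C_mul_X_pow R)
    simp only [eval_add, eval_mul, eval_C, eval_pow, eval_X] at h2
    rw [← h2]
    push_cast
    ring
  rw [h1, ← aeval_int]
  refine (abs_aeval_le _ hY0.le).trans ?_
  rcases Nat.eq_zero_or_pos e with h0 | h0
  · have : R.eraseLead = 0 := by
      rw [eq_C_of_natDegree_eq_zero (show R.natDegree = 0 by omega), eraseLead_C]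
    rw [this, wn_zero]
    positivity
  · have h3 : R.eraseLead.natDegree ≤ e - 1 := eraseLead_natDegree_le R
    have h4 := wn_growth h3 hl0 hlY
    have h5 : wn R.eraseLead l ≤ wn R l := by
      unfold wn
      rw [eraseLead_support]
      have h51 : ∑ i ∈ R.support.erase R.natDegree, |((R.eraseLead).coeff i : ℝ)| * l ^ i
          = ∑ i ∈ R.support.erase R.natDegree, |(R.coeff i : ℝ)| * l ^ i := by
        refine Finset.sum_congr rfl fun i hi => ?_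
        rw [eraseLead_coeff_of_ne _ (Finset.ne_of_mem_erase hi)]
      rw [h51]
      exact Finset.sum_le_sum_of_subset_of_nonneg
        (Finset.erase_subset _ _) (fun i _ _ => by positivity)
    have h6 : (Y / l) ^ (e - 1) * wn R.eraseLead l ≤ (Y / l) ^ (e - 1) * l ^ N :=
      mul_le_mul_of_nonneg_left (h5.trans h) (by positivity)
    have h7 : ((Y : ℝ) / l) ^ (e - 1) * l ^ N = (Y : ℝ) ^ (e - 1) * l ^ (j + 1) := by
      rw [div_pow, show N = (e - 1) + (j + 1) by omega, pow_add l (e - 1) (j + 1)]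
      field_simp
    rw [h7] at h6
    have h8 : (Y : ℝ) ^ e = (Y : ℝ) ^ (e - 1) * Y := by
      rw [← pow_succ]; congr 1; omega
    have h9 : (Y : ℝ) ^ (e - 1) * l ^ (j + 1) ≤ (Y : ℝ) ^ (e - 1) * (Y / 4) :=
      mul_le_mul_of_nonneg_left (by linarith) (by positivity)
    have h10 := one_le_lead hR
    have h11 : (Y : ℝ) ^ e / 4 ≤ |(ρ : ℝ)| * (Y : ℝ) ^ e / 4 := by
      have : 0 ≤ (Y : ℝ) ^ e := by positivity
      nlinarith
    calc wn R.eraseLead Y ≤ _ := h4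
      _ ≤ _ := h6
      _ ≤ _ := h9
      _ = (Y : ℝ) ^ e / 4 := by rw [h8]; ring
      _ ≤ _ := h11

/-- **the `d`-th root is close to the value of `A`** -/
theorem root_close {a d : ℕ} (hd : 2 ≤ d) {A R P : ℤ[X]}
    (hP : P = A ^ d + R) (hR0 : R.natDegree < a * (d - 1)) {l : ℝ} (hl : 1 ≤ l)
    (h : wn R l ≤ l ^ (a * d)) {Y : ℤ} (hY : l ≤ Y)
    (hs : (d : ℝ) * wn (A - X ^ a) (Y : ℝ) / (Y : ℝ) ^ a ≤ 1 / 2) {T : ℝ} (hT : 0 ≤ T)
    (hTd : T ^ d = ((P.eval Y : ℤ) : ℝ)) :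
    |T - ((A.eval Y : ℤ) : ℝ)| ≤ 2 * l ^ (a + 1) / Y := by
  have hl0 : 0 < l := by linarith
  have hY0 : (0 : ℝ) < Y := lt_of_lt_of_le hl0 hY
  have hdr : (2 : ℝ) ≤ d := by exact_mod_cast hd
  set α : ℝ := ((A.eval Y : ℤ) : ℝ) with hα
  have hYa : 0 < (Y : ℝ) ^ a := pow_pos hY0 a
  -- size of α
  have h1 : (1 - 1 / (2 * (d : ℝ))) * (Y : ℝ) ^ a ≤ α := by
    have h2 := abs_aeval_le (A - X ^ a) (t := (Y : ℝ)) hY0.le
    rw [aeval_int] at h2
    simp only [eval_sub, eval_pow, eval_X] at h2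
    push_cast at h2
    have h3 : wn (A - X ^ a) (Y : ℝ) ≤ 1 / (2 * (d : ℝ)) * (Y : ℝ) ^ a := by
      rw [div_le_iff₀ hYa] at hs
      have h4 : (d : ℝ) * wn (A - X ^ a) (Y : ℝ) ≤ d * (1 / (2 * (d : ℝ)) * (Y : ℝ) ^ a) := by
        have : (d : ℝ) * (1 / (2 * (d : ℝ)) * (Y : ℝ) ^ a) = 1 / 2 * (Y : ℝ) ^ a := by
          field_simp
        rw [this]
        exact hs
      exact le_of_mul_le_mul_left h4 (by linarith)
    have h5 := (abs_le.1 h2).1
    linarith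
  have hα0 : 0 ≤ α := by
    refine le_trans ?_ h1
    have : 1 / (2 * (d : ℝ)) ≤ 1 := by
      rw [div_le_one (by positivity)]
      linarith
    have h6 : 0 ≤ 1 - 1 / (2 * (d : ℝ)) := by linarith
    positivity
  -- the power
  have h2 : (Y : ℝ) ^ (a * (d - 1)) / 2 ≤ α ^ (d - 1) := by
    have h3 : ((1 - 1 / (2 * (d : ℝ))) * (Y : ℝ) ^ a) ^ (d - 1) ≤ α ^ (d - 1) := by
      refine pow_le_pow_left₀ ?_ h1 _
      have : 1 / (2 * (d : ℝ)) ≤ 1 := by
        rw [div_le_one (by positivity)]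
        linarith
      have h6 : 0 ≤ 1 - 1 / (2 * (d : ℝ)) := by linarith
      positivity
    refine le_trans ?_ h3
    rw [mul_pow, ← pow_mul]
    have h4 : (1 / 2 : ℝ) ≤ (1 - 1 / (2 * (d : ℝ))) ^ (d - 1) := by
      have h5 := one_add_mul_le_pow (a := -(1 / (2 * (d : ℝ)))) (by
        have : 1 / (2 * (d : ℝ)) ≤ 1 := by
          rw [div_le_one (by positivity)]
          linarith
        linarith) (d - 1)
      have h6 : ((d - 1 : ℕ) : ℝ) = d - 1 := by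
        rw [Nat.cast_sub (by omega)]
        simp
      rw [h6] at h5
      have h7 : (1 / 2 : ℝ) ≤ 1 + ((d : ℝ) - 1) * -(1 / (2 * (d : ℝ))) := by
        have : 1 + ((d : ℝ) - 1) * -(1 / (2 * (d : ℝ))) = 1 / 2 + 1 / (2 * d) := by
          field_simp
          ring
        rw [this]
        have : 0 ≤ 1 / (2 * (d : ℝ)) := by positivity
        linarith
      calc (1 / 2 : ℝ) ≤ _ := h7
        _ ≤ _ := h5
        _ = _ := by rw [sub_eq_add_neg]
    have h8 : 0 ≤ (Y : ℝ) ^ (a * (d - 1)) := by positivity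
    nlinarith
  -- the difference of the powers
  have h3 : T ^ d - α ^ d = ((R.eval Y : ℤ) : ℝ) := by
    rw [hTd, hP, hα]
    simp only [eval_add, eval_pow]
    push_cast
    ring
  have h4 : |((R.eval Y : ℤ) : ℝ)| ≤ (Y : ℝ) ^ (a * (d - 1)) * (l ^ (a + 1) / Y) := by
    rw [← aeval_int]
    refine (abs_aeval_le _ hY0.le).trans ?_
    refine (wn_growth (n := a * (d - 1) - 1) (by omega) hl0 hY).trans ?_
    have h5 : (Y / l) ^ (a * (d - 1) - 1) * wn R l ≤ (Y / l) ^ (a * (d - 1) - 1) * l ^ (a * d) :=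
      mul_le_mul_of_nonneg_left h (by positivity)
    refine h5.trans (le_of_eq ?_)
    have h6 : a * d = (a * (d - 1) - 1) + (a + 1) := by
      have : a * d = a * (d - 1) + a := by
        obtain ⟨e, rfl⟩ : ∃ e, d = e + 1 := ⟨d - 1, by omega⟩
        rw [Nat.add_sub_cancel]
        ring
      omega
    have h7 : (Y : ℝ) ^ (a * (d - 1)) = (Y : ℝ) ^ (a * (d - 1) - 1) * Y := by
      rw [← pow_succ]
      congr 1
      omega
    rw [h6, div_pow, pow_add l, h7]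
    have h8 : (a * (d - 1) - 1 + (a + 1)) = a * d := h6.symm
    field_simp
  have h5 := Commute.geom_sum₂_mul (Commute.all T α) d
  rw [h3] at h5
  have h6 : α ^ (d - 1) ≤ ∑ i ∈ Finset.range d, T ^ i * α ^ (d - 1 - i) := by
    have := Finset.single_le_sum (f := fun i => T ^ i * α ^ (d - 1 - i))
      (fun i _ => by positivity) (Finset.mem_range.2 (by omega : 0 < d))
    simpa using this
  set S := ∑ i ∈ Finset.range d, T ^ i * α ^ (d - 1 - i) with hS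
  have hYn : 0 < (Y : ℝ) ^ (a * (d - 1)) := by positivity
  have h7 : (Y : ℝ) ^ (a * (d - 1)) / 2 ≤ S := h2.trans h6
  have h8 : |S * (T - α)| = S * |T - α| := by
    rw [abs_mul, abs_of_nonneg (by linarith)]
  rw [h5] at h8
  have h9 : (Y : ℝ) ^ (a * (d - 1)) / 2 * |T - α| ≤ (Y : ℝ) ^ (a * (d - 1)) * (l ^ (a + 1) / Y) := by
    refine le_trans (mul_le_mul_of_nonneg_right h7 (abs_nonneg _)) ?_
    rw [← h8]
    exact h4
  have h10 : (Y : ℝ) ^ (a * (d - 1)) / 2 * |T - α|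
      ≤ (Y : ℝ) ^ (a * (d - 1)) / 2 * (2 * l ^ (a + 1) / Y) := by
    refine h9.trans (le_of_eq ?_)
    ring
  exact le_of_mul_le_mul_left h10 (by positivity)

end Pool.Agent.Lib.MP_50b5e1_nt.U
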