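import Pool.Agent.Lib.MP_50b5e1_nt.U.U20
import Pool.Agent.Lib.MP_50b5e1_nt.U.U9

/-!
# U21: the square of the node polynomial
-/

set_option autoImplicit false

namespace Pool.Agent.Lib.MP_50b5e1_nt.U

open Polynomial

theorem sq_monic (s : ℤ) (N : ℕ) : (nodeP s N ^ 2).Monic := (nodeP_monic s N).pow 2

theorem sq_natDegree (s : ℤ) (N : ℕ) : (nodeP s N ^ 2).natDegree = 2 * N := by
  rw [(nodeP_monic s N).natDegree_pow, nodeP_natDegree]

theorem sq_dvd (s : ℤ) (N : ℕ) {i : ℕ} (hi : i < 2 * N) : s ∣ (nodeP s N ^ 2).coeff i := by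
  have h := dvd_prod_sub s (Finset.range N) (fun i => 2 * (i : ℤ) - ((N : ℤ) - 1))
  rw [Finset.card_range] at h
  change C s ∣ nodeP s N - X ^ N at h
  have h2 : C s ∣ nodeP s N ^ 2 - X ^ (2 * N) := by
    have : nodeP s N ^ 2 - X ^ (2 * N) = (nodeP s N - X ^ N) * (nodeP s N + X ^ N) := by ring
    rw [this]
    exact Dvd.dvd.mul_right h _
  rw [C_dvd_iff_dvd_coeff] at h2
  have h3 := h2 i
  rw [coeff_sub, coeff_X_pow, if_neg (by omega), sub_zero] at h3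
  exact h3

theorem sq_wn {s : ℤ} (hs : 0 ≤ s) (N : ℕ) {t : ℝ} (ht : 0 < t) (h : 20 * s * (N : ℝ) ^ 2 ≤ t) :
    wn (nodeP s N ^ 2 - X ^ (2 * N)) t ≤ t ^ (2 * N) / 7 := by
  have h1 := nodeP_wn hs N ht
  have h2 := wn_monic (nodeP_monic s N) (nodeP_natDegree s N) t
  have h3 := wn_monic (sq_monic s N) (sq_natDegree s N) t
  have h4 := wn_pow_le (nodeP s N) ht.le 2
  have h5 : wn (nodeP s N) t ≤ t ^ N * Real.exp (s * N ^ 2 / t) := by
    rw [h2]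
    linarith
  have h6 : wn (nodeP s N) t ^ 2 ≤ (t ^ N * Real.exp (s * N ^ 2 / t)) ^ 2 :=
    pow_le_pow_left₀ (wn_nonneg _ ht.le) h5 2
  have h7 : (t ^ N * Real.exp (s * N ^ 2 / t)) ^ 2 = t ^ (2 * N) * Real.exp (2 * (s * N ^ 2 / t)) := by
    rw [mul_pow, ← pow_mul, ← Real.exp_nat_mul, mul_comm N 2]
    push_cast
    rfl
  have h8 : 2 * ((s : ℝ) * N ^ 2 / t) ≤ 1 / 10 := by
    rw [← mul_div_assoc, div_le_iff₀ ht]
    linarith
  have h9 : Real.exp (2 * ((s : ℝ) * N ^ 2 / t)) - 1 ≤ 1 / 7 :=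
    le_trans (by linarith [Real.exp_le_exp.2 h8]) exp_tenth
  have h10 : 0 ≤ t ^ (2 * N) := by positivity
  have h11 : t ^ (2 * N) * (Real.exp (2 * ((s : ℝ) * N ^ 2 / t)) - 1) ≤ t ^ (2 * N) * (1 / 7) :=
    mul_le_mul_of_nonneg_left h9 h10
  linarith

/-- the data attached to a block -/
theorem exists_pack_sq {a d M : ℕ} (ha : 1 ≤ a) (hd : 2 ≤ d) (hM : a * d ≤ M) :
    ∃ A R : ℤ[X], A.Monic ∧ A.natDegree = 2 * a ∧ nodeP ((d : ℤ) ^ 2) (a * d) ^ 2 = A ^ d + R ∧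
      (∀ n, 2 * a * (d - 1) ≤ n → R.coeff n = 0) ∧
      ∀ t : ℝ, 20 * (d : ℝ) ^ 2 * (M : ℝ) ^ 2 ≤ t →
        wn (nodeP ((d : ℤ) ^ 2) (a * d) ^ 2 - X ^ (2 * a * d)) t ≤ t ^ (2 * a * d) / 7 ∧
        wn R t ≤ t ^ (2 * a * d) ∧ (d : ℝ) * wn (A - X ^ (2 * a)) t / t ^ (2 * a) ≤ 1 / 2 := by
  have hdeg2 : (nodeP ((d : ℤ) ^ 2) (a * d) ^ 2).natDegree = 2 * a * d := by
    rw [sq_natDegree]; ring
  obtain ⟨A, hA, hdeg, hc⟩ := exists_root (d := d) (a := 2 * a) (by omega)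
    (sq_monic ((d : ℤ) ^ 2) (a * d)) hdeg2
    (fun i hi => sq_dvd _ _ (by rw [← mul_assoc]; exact hi))
  refine ⟨A, nodeP ((d : ℤ) ^ 2) (a * d) ^ 2 - A ^ d, hA, hdeg, by ring, hc, ?_⟩
  obtain ⟨e, rfl⟩ : ∃ e, d = e + 1 := ⟨d - 1, by omega⟩
  rw [Nat.add_sub_cancel] at hc
  have hlam : (0 : ℝ) < 20 * ((e + 1 : ℕ) : ℝ) ^ 2 * (M : ℝ) ^ 2 := by
    have h1 : 0 < M := lt_of_lt_of_le (by positivity) hM
    have h2 : (0 : ℝ) < M := by exact_mod_cast h1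
    positivity
  have h7 : ∀ t : ℝ, 20 * ((e + 1 : ℕ) : ℝ) ^ 2 * (M : ℝ) ^ 2 ≤ t →
      wn (nodeP (((e + 1 : ℕ) : ℤ) ^ 2) (a * (e + 1)) ^ 2 - X ^ (2 * a * (e + 1))) t
        ≤ t ^ (2 * a * (e + 1)) / 7 := by
    intro t ht
    have h8 := sq_wn (s := ((e + 1 : ℕ) : ℤ) ^ 2) (by positivity) (a * (e + 1))
      (lt_of_lt_of_le hlam ht) (le_trans (by
        push_cast
        have h3 : ((a * (e + 1) : ℕ) : ℝ) ≤ M := by exact_mod_cast hM
        push_cast at h3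
        have h4 : ((a : ℝ) * ((e : ℝ) + 1)) ^ 2 ≤ (M : ℝ) ^ 2 :=
          pow_le_pow_left₀ (by positivity) h3 2
        exact mul_le_mul_of_nonneg_left h4 (by positivity)) ht)
    rw [← mul_assoc 2 a (e + 1)] at h8
    exact h8
  have h4 : ∀ t : ℝ, 20 * ((e + 1 : ℕ) : ℝ) ^ 2 * (M : ℝ) ^ 2 ≤ t →
      wn (nodeP (((e + 1 : ℕ) : ℤ) ^ 2) (a * (e + 1)) ^ 2 - X ^ (2 * a * (e + 1))) t
        ≤ t ^ (2 * a * (e + 1)) / 4 := by
    intro t ht
    have h5 := h7 t ht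
    have h6 : 0 ≤ t ^ (2 * a * (e + 1)) := pow_nonneg (hlam.le.trans ht) _
    linarith
  intro t ht
  have h8 := root_small (by omega : 1 ≤ 2 * a) hA hdeg hc hlam h4 ht
  exact ⟨h7 t ht, rem_bound hA hdeg (lt_of_lt_of_le hlam ht) (h4 t ht) h8, h8⟩

/-- **exact degree and size of the remainder**, for the integer polynomials -/
theorem sq_facts {a d : ℕ} (ha : 1 ≤ a) (hd : 3 ≤ d) (hN4 : 4 ≤ a * d) {s : ℤ} (hs : 0 < s)
    {A R : ℤ[X]} (hA : A.Monic) (hdeg : A.natDegree = 2 * a)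
    (hR : nodeP s (a * d) ^ 2 = A ^ d + R) (hc : ∀ n, 2 * a * (d - 1) ≤ n → R.coeff n = 0) :
    R ≠ 0 ∧ R.natDegree + (2 * a + 2) = 2 * a * d ∧
    (s : ℝ) ^ (2 * a + 2) * ((2 ^ (a * d) * ((a * d).factorial : ℝ)) ^ (2 / (d : ℝ))
      / (64 * ((a * d : ℕ) : ℝ) ^ 2)) ≤ |(R.leadingCoeff : ℝ)| ∧
    |(R.leadingCoeff : ℝ)| ≤ (s : ℝ) ^ (2 * a + 2) *
      (d * ((a * d : ℕ) : ℝ) ^ 2 * (2 ^ (a * d) * ((a * d).factorial : ℝ)) ^ (2 / (d : ℝ))) := by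
  have hsr : (0 : ℝ) < s := by exact_mod_cast hs
  have hs0 : (s : ℝ) ≠ 0 := hsr.ne'
  set N := a * d with hN
  set ι := Int.castRingHom ℝ with hι
  set A1 : ℝ[X] := C (((s : ℝ) ^ (2 * a))⁻¹) * (A.map ι).comp (C (s : ℝ) * X) with hA1
  set R1 : ℝ[X] := C (((s : ℝ) ^ (2 * N))⁻¹) * (R.map ι).comp (C (s : ℝ) * X) with hR1
  have cA : ∀ n, A1.coeff n = ((s : ℝ) ^ (2 * a))⁻¹ * ((A.coeff n : ℝ) * (s : ℝ) ^ n) := by
    intro n
    rw [hA1, coeff_C_mul, comp_C_mul_X_coeff, coeff_map]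
    rfl
  have cR : ∀ n, R1.coeff n = ((s : ℝ) ^ (2 * N))⁻¹ * ((R.coeff n : ℝ) * (s : ℝ) ^ n) := by
    intro n
    rw [hR1, coeff_C_mul, comp_C_mul_X_coeff, coeff_map]
    rfl
  have hA1deg : A1.natDegree = 2 * a := by
    apply le_antisymm
    · rw [natDegree_le_iff_coeff_eq_zero]
      intro n hn
      rw [cA, coeff_eq_zero_of_natDegree_lt (by omega)]
      simp
    · apply le_natDegree_of_ne_zero
      rw [cA, ← hdeg, hA.coeff_natDegree, hdeg]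
      simp [hs0]
  have hA1m : A1.Monic := by
    rw [Monic, leadingCoeff, hA1deg, cA]
    have := hA.coeff_natDegree
    rw [hdeg] at this
    rw [this]
    field_simp
    simp
  have hcoef : ∀ n, R1.coeff n = 0 ↔ R.coeff n = 0 := by
    intro n
    rw [cR]
    constructor
    · intro h
      simp only [mul_eq_zero, inv_eq_zero, pow_eq_zero_iff', hs0, false_and, or_false, false_or,
        Int.cast_eq_zero] at h
      exact h
    · intro h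
      rw [h]
      simp
  have hdegR : R1.natDegree = R.natDegree := by
    apply le_antisymm
    · rw [natDegree_le_iff_coeff_eq_zero]
      intro n hn
      rw [hcoef]
      exact coeff_eq_zero_of_natDegree_lt hn
    · rw [natDegree_le_iff_coeff_eq_zero]
      intro n hn
      rw [← hcoef]
      exact coeff_eq_zero_of_natDegree_lt hn
  have hmain : (Hn N) ^ 2 = A1 ^ d + R1 := by
    have h1 := congrArg (fun p : ℤ[X] => (p.map ι).comp (C (s : ℝ) * X)) hR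
    simp only [Polynomial.map_add, Polynomial.map_pow, add_comp, pow_comp] at h1
    rw [nodeP_comp, mul_pow, ← C_pow, ← pow_mul, mul_comm N 2] at h1
    have h2 : (Hn N) ^ 2 = C (((s : ℝ) ^ (2 * N))⁻¹) * (C ((s : ℝ) ^ (2 * N)) * (Hn N) ^ 2) := by
      rw [← mul_assoc, ← C_mul, inv_mul_cancel₀ (pow_ne_zero _ hs0), C_1, one_mul]
    rw [h2, h1, hA1, hR1, mul_add, mul_pow]
    congr 2
    rw [← C_pow, inv_pow, ← pow_mul, hN]
    congr 3
    ring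
  have hc1 : ∀ n, 2 * a * (d - 1) ≤ n → R1.coeff n = 0 := fun n hn => (hcoef n).2 (hc n hn)
  obtain ⟨f1, f2, f3⟩ := real_facts ha hd (by rw [hN]; ring) hN4 hA1m hA1deg hmain hc1
  rw [hdegR] at f1
  have hlc : (R.leadingCoeff : ℝ) = (s : ℝ) ^ (2 * a + 2) * R1.leadingCoeff := by
    rw [leadingCoeff, leadingCoeff, hdegR, cR, ← f1, pow_add]
    have h1 := pow_ne_zero R.natDegree hs0
    have h2 := pow_ne_zero (2 * a + 2) hs0
    field_simp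
    ring
  have habs : |(R.leadingCoeff : ℝ)| = (s : ℝ) ^ (2 * a + 2) * |R1.leadingCoeff| := by
    rw [hlc, abs_mul, abs_of_pos (by positivity : 0 < (s : ℝ) ^ (2 * a + 2))]
  have hNr : (0 : ℝ) < N := by exact_mod_cast (by omega : 0 < N)
  refine ⟨?_, by rw [f1, hN]; ring, ?_, ?_⟩
  · rintro rfl
    have h0 : R1 = 0 := by rw [hR1]; simp
    rw [h0, leadingCoeff_zero, abs_zero] at f2
    have : 0 < (2 ^ N * (N.factorial : ℝ)) ^ (2 / (d : ℝ)) / (64 * (N : ℝ) ^ 2) := by positivity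
    linarith
  · rw [habs]
    exact mul_le_mul_of_nonneg_left f2 (by positivity)
  · rw [habs]
    exact mul_le_mul_of_nonneg_left f3 (by positivity)

end Pool.Agent.Lib.MP_50b5e1_nt.U
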