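import Pool.Agent.Lib.MP_50b5e1_nt.U.U21
import Pool.Agent.Lib.MP_50b5e1_nt.U.U13

/-!
# U22: the linear bound, real number lemmas
-/

set_option autoImplicit false

namespace Pool.Agent.Lib.MP_50b5e1_nt.U

open Polynomial

theorem params3 {d k : ℝ} (hd : 3 ≤ d) (hk : 6 ≤ k) (h2d : 2 * d ≤ k) :
    1 ≤ 20 * d ^ 2 * k ^ 2 ∧ Real.log (20 * d ^ 2 * k ^ 2) ≤ 5 * Real.log k ∧
    1 ≤ 2 * d ^ 2 ∧ Real.log (2 * d ^ 2) ≤ 2 * Real.log k := by
  have hd2 : 4 * d ^ 2 ≤ k ^ 2 := by nlinarith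
  have hd1 : (1 : ℝ) ≤ d ^ 2 := by nlinarith
  have hk2' : (1 : ℝ) ≤ k ^ 2 := by nlinarith
  have hl1 : 1 ≤ 20 * d ^ 2 * k ^ 2 := by
    have : (1 : ℝ) ≤ d ^ 2 * k ^ 2 := by nlinarith
    nlinarith
  refine ⟨hl1, ?_, by nlinarith, ?_⟩
  · have e1 : 20 * d ^ 2 * k ^ 2 ≤ k ^ 5 := by
      have e2 : 20 * d ^ 2 ≤ k ^ 3 := by nlinarith
      have e3 : k ^ 5 = k ^ 3 * k ^ 2 := by ring
      rw [e3]
      exact mul_le_mul_of_nonneg_right e2 (by positivity)
    have := Real.log_le_log (by linarith) e1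
    rw [Real.log_pow] at this
    exact_mod_cast this
  · have e1 : 2 * d ^ 2 ≤ k ^ 2 := by nlinarith
    have := Real.log_le_log (by nlinarith) e1
    rw [Real.log_pow] at this
    exact_mod_cast this

theorem thresholds3 {a : ℕ} {s l K Y : ℝ} (ha : 2 ≤ a) (hK4 : Real.log 4 ≤ K)
    (hs : 1 ≤ s) (hl : 1 ≤ l) (hLs : Real.log s ≤ 2 * K) (hLl : Real.log l ≤ 5 * K)
    (hY : 0 < Y) (hy : 18 * a * K < Real.log Y) :
    4 * s ^ (2 * a) * l ^ (2 * a + 1) < Y ∧ 4 * l ^ (2 * a + 2 + 1) < Y := by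
  have hK1 : 1 < K := by linarith [one_lt_log_four]
  have har : (2 : ℝ) ≤ a := by exact_mod_cast ha
  have hKaK : 2 * K ≤ a * K := by nlinarith
  constructor
  · refine lt_of_log (by positivity) hY ?_
    rw [Real.log_mul (by positivity) (by positivity), Real.log_mul (by norm_num) (by positivity),
      Real.log_pow, Real.log_pow]
    push_cast
    have e1 : 2 * (a : ℝ) * Real.log s ≤ 2 * a * (2 * K) :=
      mul_le_mul_of_nonneg_left hLs (by positivity)
    have e2 : (2 * (a : ℝ) + 1) * Real.log l ≤ (2 * a + 1) * (5 * K) :=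
      mul_le_mul_of_nonneg_left hLl (by positivity)
    linarith
  · refine lt_of_log (by positivity) hY ?_
    rw [Real.log_mul (by norm_num) (by positivity), Real.log_pow]
    push_cast
    have e2 : (2 * (a : ℝ) + 2 + 1) * Real.log l ≤ (2 * a + 2 + 1) * (5 * K) :=
      mul_le_mul_of_nonneg_left hLl (by positivity)
    linarith

/-- the final inequality -/
theorem final3 {a b d K L y r s e n : ℝ} (hb : 1 ≤ b) (hba : b + 1 ≤ a) (hd : 3 ≤ d)
    (hK : 1 < K) (hK4 : Real.log 4 ≤ K) (hL : L ≤ 2 * K)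
    (hsr : s - r ≤ -2 * (a - b) * L + 8 * K)
    (hE2 : -Real.log (5 / 3) ≤ e) (hH1 : n ≤ Real.log (4 / 3))
    (main : (2 * a * (2 * b + 2) - 2 * b * (2 * a + 2)) * y
      = (2 * b + 2) * (2 * a - 2 * b) * L + 2 * b * (s - r - e) + (2 * b - (2 * b + 2) / d) * n) :
    y ≤ 18 * a * K := by
  have hq : Real.log (5 / 3) + Real.log (4 / 3) < Real.log 4 := by
    rw [← Real.log_mul (by norm_num) (by norm_num)]
    exact Real.log_lt_log (by norm_num) (by norm_num)
  have hq2 : 0 ≤ Real.log (4 / 3) := Real.log_nonneg (by norm_num)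
  have hb0 : 0 ≤ b := by linarith
  have hjd : (2 * b + 2) / d ≤ 2 * b := by
    rw [div_le_iff₀ (by linarith)]
    nlinarith
  have hjd0 : 0 ≤ (2 * b + 2) / d := by positivity
  have b1 : (2 * b - (2 * b + 2) / d) * n ≤ 2 * b * Real.log (4 / 3) := by
    have h1 : (2 * b - (2 * b + 2) / d) * n ≤ (2 * b - (2 * b + 2) / d) * Real.log (4 / 3) :=
      mul_le_mul_of_nonneg_left hH1 (by linarith)
    have h2 : (2 * b - (2 * b + 2) / d) * Real.log (4 / 3) ≤ 2 * b * Real.log (4 / 3) :=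
      mul_le_mul_of_nonneg_right (by linarith) hq2
    linarith
  have b2 : 2 * b * (s - r - e) ≤ 2 * b * (-2 * (a - b) * L + 8 * K + Real.log (5 / 3)) :=
    mul_le_mul_of_nonneg_left (by linarith) (by linarith)
  have b3 : 2 * b * (Real.log (5 / 3) + Real.log (4 / 3)) ≤ 2 * b * K :=
    mul_le_mul_of_nonneg_left (by linarith) (by linarith)
  have hab : 0 < a - b := by linarith
  have b4 : 4 * (a - b) * y ≤ 4 * (a - b) * L + 18 * b * K := by
    have e1 : (2 * a * (2 * b + 2) - 2 * b * (2 * a + 2)) * y = 4 * (a - b) * y := by ring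
    rw [e1] at main
    have e2 : (2 * b + 2) * (2 * a - 2 * b) * L + 2 * b * (-2 * (a - b) * L + 8 * K + Real.log (5 / 3))
        + 2 * b * Real.log (4 / 3)
        = 4 * (a - b) * L + 16 * b * K + 2 * b * (Real.log (5 / 3) + Real.log (4 / 3)) := by ring
    linarith
  have b5 : 18 * b * K ≤ (a - b) * (18 * b * K) := by
    have : 0 ≤ 18 * b * K := by positivity
    nlinarith
  have b6 : 4 * (a - b) * L ≤ 4 * (a - b) * (2 * K) :=
    mul_le_mul_of_nonneg_left hL (by linarith)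
  have b7 : (a - b) * (4 * y) ≤ (a - b) * (8 * K + 18 * b * K) := by linarith
  have b8 := le_of_mul_le_mul_left b7 hab
  have b9 : (b + 1) * K ≤ a * K := mul_le_mul_of_nonneg_right hba (by linarith)
  have b10 : 0 ≤ b * K := by positivity
  linarith

theorem log_low {s X N : ℝ} (hs : 0 < s) (hX : 0 < X) (hN : 0 < N) (n : ℕ) :
    Real.log (s ^ n * (X / (64 * N ^ 2)))
      = n * Real.log s + Real.log X - Real.log 64 - 2 * Real.log N := by
  rw [Real.log_mul (by positivity) (by positivity), Real.log_pow,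
    Real.log_div (by positivity) (by positivity), Real.log_mul (by norm_num) (by positivity),
    Real.log_pow]
  push_cast
  ring

theorem log_up {s X N D : ℝ} (hs : 0 < s) (hX : 0 < X) (hN : 0 < N) (hD : 0 < D) (n : ℕ) :
    Real.log (s ^ n * (D * N ^ 2 * X))
      = n * Real.log s + Real.log D + 2 * Real.log N + Real.log X := by
  rw [Real.log_mul (by positivity) (by positivity), Real.log_pow,
    Real.log_mul (by positivity) (by positivity), Real.log_mul (by positivity) (by positivity),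
    Real.log_pow]
  push_cast
  ring

/-- logarithms of the leading coefficients -/
theorem lead_logs {a b d : ℕ} (hb : 1 ≤ b) (hba : b < a) (hd : 3 ≤ d) {ρ σ : ℝ} (hρ : 1 ≤ ρ)
    (hσ : 1 ≤ σ)
    (h1 : ((d : ℝ) ^ 2) ^ (2 * a + 2) * ((2 ^ (a * d) * ((a * d).factorial : ℝ)) ^ (2 / (d : ℝ))
      / (64 * ((a * d : ℕ) : ℝ) ^ 2)) ≤ ρ)
    (h2 : σ ≤ ((d : ℝ) ^ 2) ^ (2 * b + 2) *
      (d * ((b * d : ℕ) : ℝ) ^ 2 * (2 ^ (b * d) * ((b * d).factorial : ℝ)) ^ (2 / (d : ℝ)))) :
    Real.log σ - Real.log ρ ≤ -2 * ((a : ℝ) - b) * Real.log (2 * (d : ℝ) ^ 2)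
      + 8 * Real.log ((a * d : ℕ) : ℝ) := by
  have hdr : (3 : ℝ) ≤ d := by exact_mod_cast hd
  have hd0 : (0 : ℝ) < d := by linarith
  have had : 0 < a * d := Nat.mul_pos (by omega) (by omega)
  have hbd : 0 < b * d := Nat.mul_pos (by omega) (by omega)
  have hN1 : (0 : ℝ) < ((a * d : ℕ) : ℝ) := by exact_mod_cast had
  have hN2 : (0 : ℝ) < ((b * d : ℕ) : ℝ) := by exact_mod_cast hbd
  have hN21 : ((b * d : ℕ) : ℝ) ≤ ((a * d : ℕ) : ℝ) := by
    exact_mod_cast Nat.mul_le_mul_right d hba.le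
  have hdN : (d : ℝ) ≤ ((a * d : ℕ) : ℝ) := by
    exact_mod_cast Nat.le_mul_of_pos_left d (by omega : 0 < a)
  have hN4 : (4 : ℝ) ≤ ((a * d : ℕ) : ℝ) := by
    have : 2 * 3 ≤ a * d := Nat.mul_le_mul (by omega) hd
    exact_mod_cast (by omega : 4 ≤ a * d)
  set K := Real.log ((a * d : ℕ) : ℝ) with hK
  have hF1 : (0 : ℝ) < 2 ^ (a * d) * ((a * d).factorial : ℝ) := by positivity
  have hF2 : (0 : ℝ) < 2 ^ (b * d) * ((b * d).factorial : ℝ) := by positivity
  set F1 := Real.log (2 ^ (a * d) * ((a * d).factorial : ℝ)) with hF1'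
  set F2 := Real.log (2 ^ (b * d) * ((b * d).factorial : ℝ)) with hF2'
  have l1 := Real.log_le_log (by positivity) h1
  rw [log_low (by positivity) (by positivity) hN1, Real.log_rpow hF1, ← hF1', ← hK] at l1
  have l2 := Real.log_le_log (by linarith) h2
  rw [log_up (by positivity) (by positivity) hN2 hd0, Real.log_rpow hF2, ← hF2'] at l2
  have l3 : Real.log ((b * d : ℕ) : ℝ) ≤ K := Real.log_le_log hN2 hN21
  have l4 : Real.log (d : ℝ) ≤ K := Real.log_le_log hd0 hdN
  have l5 : Real.log 64 ≤ 3 * K := by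
    have : (64 : ℝ) = 4 ^ 3 := by norm_num
    rw [this, Real.log_pow]
    have := Real.log_le_log (by norm_num) hN4
    push_cast
    linarith
  -- comparison of the factorials
  have l6 : F2 + ((a : ℝ) - b) * d * Real.log 2 ≤ F1 := by
    obtain ⟨c, hc⟩ : ∃ c, a * d = b * d + c := ⟨a * d - b * d, by
      have := Nat.mul_le_mul_right d hba.le
      omega⟩
    have hcr : (c : ℝ) = ((a : ℝ) - b) * d := by
      have : ((a * d : ℕ) : ℝ) = ((b * d + c : ℕ) : ℝ) := by rw [hc]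
      push_cast at this
      linarith
    have e1 : (2 ^ (b * d) * ((b * d).factorial : ℝ)) * 2 ^ c
        ≤ 2 ^ (a * d) * ((a * d).factorial : ℝ) := by
      rw [hc, pow_add]
      have e2 : ((b * d).factorial : ℝ) ≤ ((b * d + c).factorial : ℝ) := by
        exact_mod_cast Nat.factorial_le (Nat.le_add_right _ _)
      have := mul_le_mul_of_nonneg_left e2 (by positivity : (0 : ℝ) ≤ 2 ^ (b * d) * 2 ^ c)
      linarith
    have e3 := Real.log_le_log (by positivity) e1
    rw [Real.log_mul (by positivity) (by positivity), Real.log_pow, ← hF1', ← hF2', hcr] at e3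
    exact e3
  have l7 : 2 / (d : ℝ) * F2 + 2 * ((a : ℝ) - b) * Real.log 2 ≤ 2 / (d : ℝ) * F1 := by
    have := mul_le_mul_of_nonneg_left l6 (by positivity : (0 : ℝ) ≤ 2 / d)
    refine le_trans (le_of_eq ?_) this
    field_simp
  have l8 : Real.log (2 * (d : ℝ) ^ 2) = Real.log 2 + Real.log ((d : ℝ) ^ 2) :=
    Real.log_mul (by norm_num) (by positivity)
  rw [l8]
  push_cast at l1 l2 l3
  linarith

end Pool.Agent.Lib.MP_50b5e1_nt.U
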