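import Pool.Agent.Lib.MP_50b5e1_nt.U.U22

/-!
# U23: the linear bound for `gcd ≥ 3`
-/

set_option autoImplicit false

namespace Pool.Agent.Lib.MP_50b5e1_nt.U

open Polynomial

/-- **the linear bound** -/
theorem bound_linear {m₁ k₁ m₂ k₂ a b d : ℕ} (h : IsSol m₁ k₁ m₂ k₂) (hd : 3 ≤ d)
    (hk1 : k₁ = a * d) (hk2 : k₂ = b * d) :
    Real.log m₁ ≤ 18 * a * Real.log k₁ := by
  have hlt := h.lt
  obtain ⟨g1, g2, g3, g4⟩ := h
  have hba : b < a := by
    rw [hk1, hk2] at hlt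
    exact lt_of_mul_lt_mul_right hlt (Nat.zero_le d)
  have hb : 1 ≤ b := by
    rcases Nat.eq_zero_or_pos b with h0 | h0
    · rw [h0] at hk2; omega
    · exact h0
  have ha : 2 ≤ a := by omega
  by_contra hcon
  push Not at hcon
  -- real parameters
  have hdr : (3 : ℝ) ≤ d := by exact_mod_cast hd
  have hbr : (1 : ℝ) ≤ b := by exact_mod_cast hb
  have hbar : (b : ℝ) + 1 ≤ a := by exact_mod_cast hba
  have hkr : (k₁ : ℝ) = a * d := by rw [hk1]; push_cast; ring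
  have hk6n : 6 ≤ k₁ := by rw [hk1]; exact Nat.mul_le_mul ha hd
  have hk6 : (6 : ℝ) ≤ k₁ := by exact_mod_cast hk6n
  have h2d : 2 * (d : ℝ) ≤ k₁ := by
    rw [hkr]
    exact mul_le_mul_of_nonneg_right (by exact_mod_cast ha) (by positivity)
  obtain ⟨hl1, hLl, hs1, hLs⟩ := params3 hdr hk6 h2d
  have hK4 : Real.log 4 ≤ Real.log k₁ := Real.log_le_log (by norm_num) (by linarith)
  set K := Real.log k₁ with hK
  have hK1 : 1 < K := lt_of_lt_of_le one_lt_log_four hK4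
  set l : ℝ := 20 * (d : ℝ) ^ 2 * (k₁ : ℝ) ^ 2 with hl
  set s : ℝ := 2 * (d : ℝ) ^ 2 with hs
  have hl0 : 0 < l := by linarith
  have hs0 : 0 < s := by linarith
  have hLl0 : 0 ≤ Real.log l := Real.log_nonneg hl1
  have hK0 : 0 < 18 * (a : ℝ) * K := by positivity
  -- the points
  obtain ⟨Y1, hY1⟩ : ∃ Y : ℤ, Y = (d : ℤ) ^ 2 * (2 * (m₁ : ℤ) + ((a * d : ℕ) : ℤ) + 1) := ⟨_, rfl⟩
  obtain ⟨Y2, hY2⟩ : ∃ Y : ℤ, Y = (d : ℤ) ^ 2 * (2 * (m₂ : ℤ) + ((b * d : ℕ) : ℤ) + 1) := ⟨_, rfl⟩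
  have h12 : Y1 ≤ Y2 := by
    rw [hY1, hY2, ← hk1, ← hk2]
    refine mul_le_mul_of_nonneg_left ?_ (by positivity)
    have : (m₁ : ℤ) + k₁ ≤ m₂ := by exact_mod_cast g3
    have : (0 : ℤ) ≤ k₂ := by positivity
    have : (0 : ℤ) ≤ k₁ := by positivity
    linarith
  have hm1 : (m₁ : ℝ) ≤ Y1 := by
    have z1 : (m₁ : ℤ) ≤ Y1 := by
      rw [hY1]
      have z2 : (1 : ℤ) ≤ (d : ℤ) ^ 2 := by
        have : (1 : ℤ) ≤ d := by exact_mod_cast (by omega : 1 ≤ d)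
        exact one_le_pow₀ this
      have z3 : (0 : ℤ) ≤ 2 * (m₁ : ℤ) + ((a * d : ℕ) : ℤ) + 1 := by positivity
      have z4 : (0 : ℤ) ≤ ((a * d : ℕ) : ℤ) := by positivity
      calc (m₁ : ℤ) ≤ 1 * (2 * (m₁ : ℤ) + ((a * d : ℕ) : ℤ) + 1) := by linarith [Int.natCast_nonneg m₁]
        _ ≤ _ := mul_le_mul_of_nonneg_right z2 z3
    exact_mod_cast z1
  have hm0 : 0 < (m₁ : ℝ) := by
    rcases Nat.eq_zero_or_pos m₁ with h0 | h0
    · exfalso
      rw [h0] at hcon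
      simp only [Nat.cast_zero, Real.log_zero] at hcon
      linarith
    · exact_mod_cast h0
  have hY1pos : (0 : ℝ) < Y1 := lt_of_lt_of_le hm0 hm1
  have hY1pos' : 0 < Y1 := by exact_mod_cast hY1pos
  have hY2pos' : 0 < Y2 := lt_of_lt_of_le hY1pos' h12
  have h12r : (Y1 : ℝ) ≤ Y2 := by exact_mod_cast h12
  have hY2pos : (0 : ℝ) < Y2 := by exact_mod_cast hY2pos'
  have hy1K : 18 * a * K < Real.log Y1 := hcon.trans_le (Real.log_le_log hm0 hm1)
  obtain ⟨t1, t2⟩ := thresholds3 ha hK4 hs1 hl1 hLs hLl hY1pos hy1K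
  have hlY : l ≤ Y1 := by
    have z1 : l ≤ l ^ (2 * a + 2 + 1) := le_self_pow₀ hl1 (by omega)
    have z2 : 0 < l ^ (2 * a + 2 + 1) := by positivity
    linarith
  -- the polynomials
  obtain ⟨A, R, hA, hdA, hP1, hcR, hwR⟩ := exists_pack_sq (a := a) (M := k₁) (by omega)
    (by omega : 2 ≤ d) (by omega)
  obtain ⟨B, S, hB, hdB, hP2, hcS, hwS⟩ := exists_pack_sq (a := b) (M := k₁) hb
    (by omega : 2 ≤ d) (by omega)
  have hsZ : (0 : ℤ) < (d : ℤ) ^ 2 := by positivity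
  obtain ⟨R0, R1, R2, -⟩ := sq_facts (by omega) hd (by omega) hsZ hA hdA hP1 hcR
  obtain ⟨S0, S1, -, S3⟩ := sq_facts hb hd (by omega) hsZ hB hdB hP2 hcS
  obtain ⟨-, wR, -⟩ := hwR l le_rfl
  obtain ⟨-, wS, -⟩ := hwS l le_rfl
  obtain ⟨vR, -, uR⟩ := hwR Y1 hlY
  obtain ⟨vS, -, uS⟩ := hwS Y2 (hlY.trans h12r)
  have dR0 : R.natDegree < 2 * a * (d - 1) := by
    have h5 : 2 * a * d = 2 * a * (d - 1) + 2 * a := by
      obtain ⟨e, rfl⟩ : ∃ e, d = e + 1 := ⟨d - 1, by omega⟩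
      rw [Nat.add_sub_cancel]
      ring
    omega
  have dS0 : S.natDegree < 2 * b * (d - 1) := by
    have h5 : 2 * b * d = 2 * b * (d - 1) + 2 * b := by
      obtain ⟨e, rfl⟩ : ∃ e, d = e + 1 := ⟨d - 1, by omega⟩
      rw [Nat.add_sub_cancel]
      ring
    omega
  -- the values of the node polynomials
  have hv1 := nodeP_eval ((d : ℤ) ^ 2) (a * d) m₁
  have hv2 := nodeP_eval ((d : ℤ) ^ 2) (b * d) m₂
  rw [← hY1] at hv1
  rw [← hY2] at hv2
  rw [← hk1] at hv1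
  rw [← hk2] at hv2
  have hval : (nodeP ((d : ℤ) ^ 2) (a * d) ^ 2).eval Y1
      = (2 * (d : ℤ) ^ 2) ^ ((2 * a - 2 * b) * d) * (nodeP ((d : ℤ) ^ 2) (b * d) ^ 2).eval Y2 := by
    have hexp : k₁ * 2 = (2 * a - 2 * b) * d + k₂ * 2 := by
      rw [hk1, hk2, Nat.sub_mul]
      have : 2 * b * d ≤ 2 * a * d := Nat.mul_le_mul_right d (by omega)
      have e1 : a * d * 2 = 2 * a * d := by ring
      have e2 : b * d * 2 = 2 * b * d := by ring
      omega
    have hgen : ∀ G P : ℤ, (G ^ k₁ * P) ^ 2 = G ^ ((2 * a - 2 * b) * d) * (G ^ k₂ * P) ^ 2 := by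
      intro G P
      rw [mul_pow, mul_pow, ← mul_assoc, ← pow_mul, ← pow_mul, ← pow_add, hexp]
    rw [eval_pow, eval_pow, ← hk1, ← hk2, hv1, hv2, g4, hgen]
  obtain ⟨p1, n1, hn1, n1a, n1b⟩ := log_node hY1pos' vR
  obtain ⟨p2, n2, hn2, n2a, n2b⟩ := log_node hY2pos' vS
  have hrel := exact_rel (by omega : 2 * b < 2 * a) (by omega : 2 ≤ d) hl1 hP1 hP2 dR0 dS0 wR wS
    h12 t1 hlY uR uS hval p2
  have tR : 4 * l ^ (2 * a + 2 + 1) ≤ Y1 := t2.le
  have tS : 4 * l ^ (2 * b + 2 + 1) ≤ Y2 := by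
    have z1 : l ^ (2 * b + 2 + 1) ≤ l ^ (2 * a + 2 + 1) := pow_le_pow_right₀ hl1 (by omega)
    linarith
  obtain ⟨e1, he1, e1a, e1b⟩ := log_lead hl1 R0 R1 wR tR
  obtain ⟨e2, he2, e2a, e2b⟩ := log_lead hl1 S0 S1 wS tS
  -- logarithms of the leading coefficients
  have oR := one_le_lead R0
  have oS := one_le_lead S0
  push_cast at R2 S3
  have hlead := lead_logs hb hba hd oR oS (by push_cast; exact R2) (by push_cast; exact S3)
  rw [← hk1, ← hK, ← hs] at hlead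
  have hsub : (((2 * a - 2 * b : ℕ) : ℝ)) = 2 * a - 2 * b := by
    rw [Nat.cast_sub (by omega)]
    push_cast
    ring
  -- the two relations
  have hS2 : ((S.eval Y2 : ℤ) : ℝ) ≠ 0 := by
    intro h0
    have h3 := value_lead hl1 S0 S1 wS tS
    rw [h0, zero_sub, abs_neg, abs_mul,
      abs_of_nonneg (by positivity : (0 : ℝ) ≤ (Y2 : ℝ) ^ S.natDegree)] at h3
    have h4 : 0 < |(S.leadingCoeff : ℝ)| * (Y2 : ℝ) ^ S.natDegree := by positivity
    linarith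
  have z1 : ((2 * (d : ℤ) ^ 2 : ℤ) : ℝ) = s := by push_cast; rfl
  have q1 : Real.log |((R.eval Y1 : ℤ) : ℝ)|
      = ((2 * (a : ℝ) - 2 * b) * d) * Real.log s + Real.log |((S.eval Y2 : ℤ) : ℝ)| := by
    rw [hrel, Int.cast_mul, Int.cast_pow]
    rw [z1, abs_mul, Real.log_mul (by positivity) (abs_ne_zero.2 hS2), abs_of_nonneg (by positivity),
      Real.log_pow, Nat.cast_mul, hsub]
  have q2 : Real.log (((nodeP ((d : ℤ) ^ 2) (a * d) ^ 2).eval Y1 : ℤ) : ℝ)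
      = ((2 * (a : ℝ) - 2 * b) * d) * Real.log s
        + Real.log (((nodeP ((d : ℤ) ^ 2) (b * d) ^ 2).eval Y2 : ℤ) : ℝ) := by
    have p2r : (((nodeP ((d : ℤ) ^ 2) (b * d) ^ 2).eval Y2 : ℤ) : ℝ) ≠ 0 := by exact_mod_cast p2.ne'
    rw [hval, Int.cast_mul, Int.cast_pow]
    rw [z1, Real.log_mul (by positivity) p2r, Real.log_pow, Nat.cast_mul, hsub]
  rw [he1, he2] at q1
  rw [hn1, hn2] at q2
  have dR : (R.natDegree : ℝ) = 2 * a * d - (2 * a + 2) := by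
    have : ((R.natDegree + (2 * a + 2) : ℕ) : ℝ) = ((2 * a * d : ℕ) : ℝ) := by rw [R1]
    push_cast at this
    linarith
  have dS : (S.natDegree : ℝ) = 2 * b * d - (2 * b + 2) := by
    have : ((S.natDegree + (2 * b + 2) : ℕ) : ℝ) = ((2 * b * d : ℕ) : ℝ) := by rw [S1]
    push_cast at this
    linarith
  rw [dR, dS] at q1
  push_cast at q2
  have hd0 : (0 : ℝ) < d := by linarith
  have main := log_system (a := 2 * a) (b := 2 * b) (d := d) (j0 := 2 * a + 2) (j1 := 2 * b + 2) hd0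
    (y1 := Real.log Y1) (y2 := Real.log Y2) (L := Real.log s)
    (r := Real.log |(R.leadingCoeff : ℝ)|) (s := Real.log |(S.leadingCoeff : ℝ)|)
    (e1 := e1) (e2 := e2) (n1 := n1) (n2 := n2)
    (by linarith) (by linarith)
  -- bounds for the errors
  have q34 : Real.log (3 / 4) = Real.log 3 - Real.log 4 := Real.log_div (by norm_num) (by norm_num)
  have q54 : Real.log (5 / 4) = Real.log 5 - Real.log 4 := Real.log_div (by norm_num) (by norm_num)
  have q67 : Real.log (6 / 7) = Real.log 6 - Real.log 7 := Real.log_div (by norm_num) (by norm_num)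
  have q87 : Real.log (8 / 7) = Real.log 8 - Real.log 7 := Real.log_div (by norm_num) (by norm_num)
  have q86 : Real.log 8 - Real.log 6 = Real.log (4 / 3) := by
    rw [← Real.log_div (by norm_num) (by norm_num)]
    norm_num
  have q53 : Real.log 5 - Real.log 3 = Real.log (5 / 3) := by
    rw [← Real.log_div (by norm_num) (by norm_num)]
  have hE2 : -Real.log (5 / 3) ≤ e1 - e2 := by linarith
  have hH1 : n1 - n2 ≤ Real.log (4 / 3) := by linarith
  have := final3 hbr hbar hdr hK1 hK4 hLs hlead hE2 hH1 main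
  linarith

end Pool.Agent.Lib.MP_50b5e1_nt.U
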