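import Pool.Agent.Lib.MP_50b5e1_nt.U.U23

/-!
# U24: consequences
-/

set_option autoImplicit false

namespace Pool.Agent.Lib.MP_50b5e1_nt.U

/-- bound for the larger variable -/
theorem linear_m2 {m₁ k₁ m₂ k₂ a b d : ℕ} (h : IsSol m₁ k₁ m₂ k₂) (hd : 3 ≤ d)
    (hk1 : k₁ = a * d) (hk2 : k₂ = b * d) :
    Real.log m₂ ≤ 19 * a * ((a : ℝ) / b) * Real.log k₁ := by
  have h1 := size_m2 h
  have h2 := bound_linear h hd hk1 hk2
  have hlt := h.lt
  obtain ⟨g1, g2, g3, g4⟩ := h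
  have hb : 1 ≤ b := by
    rcases Nat.eq_zero_or_pos b with h0 | h0
    · rw [h0] at hk2; omega
    · exact h0
  have hba : b < a := by
    rw [hk1, hk2] at hlt
    exact lt_of_mul_lt_mul_right hlt (Nat.zero_le d)
  have har : (2 : ℝ) ≤ a := by exact_mod_cast (by omega : 2 ≤ a)
  have hbr : (1 : ℝ) ≤ b := by exact_mod_cast hb
  have hd0 : (0 : ℝ) < d := by exact_mod_cast (by omega : 0 < d)
  have hk1r : (k₁ : ℝ) = a * d := by exact_mod_cast hk1
  have hk2r : (k₂ : ℝ) = b * d := by exact_mod_cast hk2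
  have hk4 : (4 : ℝ) ≤ k₁ := by exact_mod_cast (by omega : 4 ≤ k₁)
  have hK1 : 1 < Real.log k₁ :=
    lt_of_lt_of_le one_lt_log_four (Real.log_le_log (by norm_num) hk4)
  set K := Real.log k₁ with hK
  have haK : 2 * K ≤ a * K := mul_le_mul_of_nonneg_right har (by linarith)
  have e3 : Real.log ((m₁ : ℝ) + k₁) ≤ 19 * a * K := by
    by_cases hm : 2 ≤ m₁
    · have hmr : (2 : ℝ) ≤ m₁ := by exact_mod_cast hm
      have e4 : (m₁ : ℝ) + k₁ ≤ m₁ * k₁ := by nlinarith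
      have e5 := Real.log_le_log (by positivity) e4
      rw [Real.log_mul (by positivity) (by positivity)] at e5
      linarith
    · have hmr : (m₁ : ℝ) ≤ 1 := by exact_mod_cast (by omega : m₁ ≤ 1)
      have e4 : (m₁ : ℝ) + k₁ ≤ (k₁ : ℝ) ^ 2 := by nlinarith
      have e5 := Real.log_le_log (by positivity) e4
      rw [Real.log_pow] at e5
      push_cast at e5
      linarith
  have e7 : (b * (d : ℝ)) * Real.log m₂ ≤ (b * d) * (19 * a * ((a : ℝ) / b) * K) := by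
    have e8 : (b * (d : ℝ)) * (19 * a * ((a : ℝ) / b) * K) = (a * d) * (19 * a * K) := by
      field_simp
    rw [e8, ← hk2r, ← hk1r]
    exact h1.trans (mul_le_mul_of_nonneg_left e3 (by positivity))
  exact le_of_mul_le_mul_left e7 (by positivity)

/-- the two-adic bound in terms of logarithms -/
theorem two_adic_log {m₁ k₁ m₂ k₂ : ℕ} (h : IsSol m₁ k₁ m₂ k₂) :
    ((k₁ : ℝ) - k₂) * Real.log 2 ≤ Real.log 2 + Real.log m₂ + Real.log k₁ := by
  have h2 := two_adic h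
  have hlt := h.lt
  obtain ⟨g1, g2, g3, g4⟩ := h
  have hl2 := Real.log_two_gt_d9
  have e4 : (k₁ : ℝ) - k₂ ≤ Nat.log 2 (m₂ + k₂) + Nat.log 2 k₁ := by
    have : (k₁ : ℝ) ≤ k₂ + Nat.log 2 (m₂ + k₂) + Nat.log 2 k₁ := by exact_mod_cast h2
    linarith
  have e5 := natLog_le (x := m₂ + k₂) (by omega)
  have e6 := natLog_le (x := k₁) (by omega)
  have e7 : Real.log ((m₂ + k₂ : ℕ) : ℝ) ≤ Real.log 2 + Real.log m₂ := by
    have hm : (0 : ℝ) < m₂ := by exact_mod_cast (by omega : 0 < m₂)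
    rw [← Real.log_mul (by norm_num) hm.ne']
    refine Real.log_le_log (by exact_mod_cast (by omega : 0 < m₂ + k₂)) ?_
    have : m₂ + k₂ ≤ 2 * m₂ := by omega
    exact_mod_cast this
  have := mul_le_mul_of_nonneg_right e4 (by linarith : 0 ≤ Real.log 2)
  linarith

/-- **a condition on the lengths alone** -/
theorem lengths {m₁ k₁ m₂ k₂ : ℕ} (h : IsSol m₁ k₁ m₂ k₂) :
    ((k₁ : ℝ) - k₂) * k₂ * (Nat.gcd k₁ k₂ : ℕ) ≤ 30 * (k₁ : ℝ) ^ 2 * Real.log k₁ := by
  have h1 := two_adic_log h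
  have hlt := h.lt
  have hk4 : (4 : ℝ) ≤ k₁ := by exact_mod_cast (by have := h.1; omega : 4 ≤ k₁)
  have hk24 : (4 : ℝ) ≤ k₂ := by exact_mod_cast (by have := h.2.1; omega : 4 ≤ k₂)
  have hltr : (k₂ : ℝ) < k₁ := by exact_mod_cast hlt
  have hK1 : 1 < Real.log k₁ :=
    lt_of_lt_of_le one_lt_log_four (Real.log_le_log (by norm_num) hk4)
  obtain ⟨a, ha⟩ := Nat.gcd_dvd_left k₁ k₂
  obtain ⟨b, hb⟩ := Nat.gcd_dvd_right k₁ k₂
  set d := Nat.gcd k₁ k₂ with hdd
  set K := Real.log k₁ with hK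
  by_cases hd : 3 ≤ d
  · have hk1 : k₁ = a * d := by rw [ha]; ring
    have hk2 : k₂ = b * d := by rw [hb]; ring
    have h3 := linear_m2 h hd hk1 hk2
    have hd0 : (0 : ℝ) < d := by exact_mod_cast (by omega : 0 < d)
    have hb1 : 1 ≤ b := by
      rcases Nat.eq_zero_or_pos b with h0 | h0
      · have := h.2.1
        rw [h0] at hk2; omega
      · exact h0
    have hba : b < a := by
      rw [hk1, hk2] at hlt
      exact lt_of_mul_lt_mul_right hlt (Nat.zero_le d)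
    have hbr : (1 : ℝ) ≤ b := by exact_mod_cast hb1
    have hbar : (b : ℝ) + 1 ≤ a := by exact_mod_cast hba
    have hk1r : (k₁ : ℝ) = a * d := by exact_mod_cast hk1
    have hk2r : (k₂ : ℝ) = b * d := by exact_mod_cast hk2
    have hl2 := Real.log_two_gt_d9
    have hl2' := Real.log_two_lt_d9
    set w : ℝ := a * ((a : ℝ) / b) * K with hw
    have hw1 : 19 * a * ((a : ℝ) / b) * K = 19 * w := by rw [hw]; ring
    rw [← hK, hw1] at h3
    have hw2 : 2 * K ≤ w := by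
      rw [hw]
      refine mul_le_mul_of_nonneg_right ?_ (by linarith)
      have e1 : (1 : ℝ) ≤ (a : ℝ) / b := by
        rw [one_le_div (by linarith)]
        linarith
      nlinarith
    have h4 : (k₁ : ℝ) - k₂ ≤ 30 * w := by
      by_contra hcon
      push Not at hcon
      have e2 : 30 * w * Real.log 2 < ((k₁ : ℝ) - k₂) * Real.log 2 :=
        mul_lt_mul_of_pos_right hcon (by linarith)
      nlinarith
    have h5 : ((k₁ : ℝ) - k₂) * k₂ * d ≤ 30 * w * (b * d) * d := by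
      rw [← hk2r]
      refine mul_le_mul_of_nonneg_right ?_ hd0.le
      exact mul_le_mul_of_nonneg_right h4 (by linarith)
    refine h5.trans (le_of_eq ?_)
    rw [hw, hk1r]
    field_simp
  · have hd2 : (d : ℝ) ≤ 2 := by exact_mod_cast (by omega : d ≤ 2)
    have e1 : ((k₁ : ℝ) - k₂) * k₂ ≤ (k₁ : ℝ) ^ 2 := by nlinarith
    have e2 : 0 ≤ ((k₁ : ℝ) - k₂) * k₂ := mul_nonneg (by linarith) (by linarith)
    have e3 : ((k₁ : ℝ) - k₂) * k₂ * d ≤ (k₁ : ℝ) ^ 2 * 2 := by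
      refine mul_le_mul e1 hd2 (by positivity) (by positivity)
    have e4 : (k₁ : ℝ) ^ 2 * 2 ≤ 30 * (k₁ : ℝ) ^ 2 * K := by
      have : 0 ≤ (k₁ : ℝ) ^ 2 := by positivity
      nlinarith
    linarith

/-- **short blocks** -/
theorem explicit3 {m₁ k₁ m₂ k₂ : ℕ} (h : IsSol m₁ k₁ m₂ k₂) (hd : 3 ≤ Nat.gcd k₁ k₂)
    (hr : 40 * ((k₁ : ℝ) / (Nat.gcd k₁ k₂ : ℕ)) * ((k₁ : ℝ) / k₂) * Real.log (Real.log m₂)
      ≤ Real.log m₂) :
    Real.log m₂ ≤ 2 ^ 20 := by
  have h2 := two_adic_log h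
  have hlt := h.lt
  obtain ⟨a, ha⟩ := Nat.gcd_dvd_left k₁ k₂
  obtain ⟨b, hb⟩ := Nat.gcd_dvd_right k₁ k₂
  have hdd : Nat.gcd k₁ k₂ ≤ k₁ - k₂ := by
    refine Nat.le_of_dvd (by omega) ?_
    exact Nat.dvd_sub (Nat.gcd_dvd_left k₁ k₂) (Nat.gcd_dvd_right k₁ k₂)
  set d := Nat.gcd k₁ k₂ with hd'
  have hk1 : k₁ = a * d := by rw [ha]; ring
  have hk2 : k₂ = b * d := by rw [hb]; ring
  have h1 := linear_m2 h hd hk1 hk2
  obtain ⟨g1, g2, g3, g4⟩ := h
  have hd0 : (0 : ℝ) < d := by exact_mod_cast (by omega : 0 < d)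
  have hb1 : 1 ≤ b := by
    rcases Nat.eq_zero_or_pos b with h0 | h0
    · rw [h0] at hk2; omega
    · exact h0
  have hba : b < a := by
    rw [hk1, hk2] at hlt
    exact lt_of_mul_lt_mul_right hlt (Nat.zero_le d)
  have hbr : (1 : ℝ) ≤ b := by exact_mod_cast hb1
  have hbar : (b : ℝ) + 1 ≤ a := by exact_mod_cast hba
  have hk1r : (k₁ : ℝ) = a * d := by exact_mod_cast hk1
  have hk2r : (k₂ : ℝ) = b * d := by exact_mod_cast hk2
  have q1 : (k₁ : ℝ) / d = a := by rw [hk1r]; field_simp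
  have q2 : (k₁ : ℝ) / k₂ = (a : ℝ) / b := by rw [hk1r, hk2r]; field_simp
  rw [q1, q2] at hr
  have hab1 : (1 : ℝ) ≤ (a : ℝ) / b := by
    rw [one_le_div (by linarith)]
    linarith
  have hm2 : (4 : ℝ) ≤ m₂ := by exact_mod_cast (by omega : 4 ≤ m₂)
  have hM4 : Real.log 4 ≤ Real.log m₂ := Real.log_le_log (by norm_num) hm2
  have hKM : Real.log k₁ ≤ Real.log m₂ := by
    refine Real.log_le_log (by exact_mod_cast (by omega : 0 < k₁)) ?_
    exact_mod_cast (by omega : k₁ ≤ m₂)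
  set M := Real.log m₂ with hM
  have hl2 := Real.log_two_gt_d9
  have hl2' := Real.log_two_lt_d9
  have hl4 : Real.log 4 = 2 * Real.log 2 := by
    rw [show (4 : ℝ) = 2 ^ 2 by norm_num, Real.log_pow]
    push_cast
    ring
  have hM1 : 1.386 ≤ M := by linarith
  have hM0 : 0 < M := by linarith
  set LL := Real.log M with hLL
  have hLL0 : 1 / 40 ≤ LL := by
    have := Real.one_sub_inv_le_log_of_pos hM0
    have h5 : M⁻¹ ≤ 39 / 40 := by
      rw [inv_le_comm₀ hM0 (by norm_num)]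
      linarith
    linarith
  set w : ℝ := a * ((a : ℝ) / b) with hw
  have ha0 : (0 : ℝ) < a := by linarith
  have hb0 : (0 : ℝ) < b := by linarith
  have hw0 : 0 < w := by rw [hw]; positivity
  have haw : (a : ℝ) ≤ w := by
    rw [hw]
    exact le_mul_of_one_le_right (by linarith) hab1
  have hr' : 40 * w * LL ≤ M := by
    refine le_trans (le_of_eq ?_) hr
    rw [hw]
    ring
  have haM : (a : ℝ) ≤ M := by
    have e1 : w * 1 ≤ w * (40 * LL) := mul_le_mul_of_nonneg_left (by linarith) hw0.le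
    linarith
  have hd4 : (d : ℝ) ≤ 4 * M := by
    have e3 : (d : ℝ) ≤ (k₁ : ℝ) - k₂ := by
      have : ((d + k₂ : ℕ) : ℝ) ≤ k₁ := by exact_mod_cast (by omega : d + k₂ ≤ k₁)
      push_cast at this
      linarith
    by_contra hcon
    push Not at hcon
    have e4 : 4 * M * Real.log 2 < ((k₁ : ℝ) - k₂) * Real.log 2 :=
      mul_lt_mul_of_pos_right (hcon.trans_le e3) (by linarith)
    nlinarith
  have hK : Real.log k₁ ≤ Real.log 4 + 2 * LL := by
    rw [hk1r, Real.log_mul (by linarith) hd0.ne']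
    have e3 := Real.log_le_log hd0 hd4
    rw [Real.log_mul (by norm_num) hM0.ne'] at e3
    have e4 := Real.log_le_log (by linarith) haM
    linarith
  have hfin : 40 * LL ≤ 19 * Real.log k₁ := by
    have e3 : w * (40 * LL) ≤ w * (19 * Real.log k₁) := by
      have : 19 * a * ((a : ℝ) / b) * Real.log k₁ = w * (19 * Real.log k₁) := by rw [hw]; ring
      linarith
    exact le_of_mul_le_mul_left e3 hw0
  have e5 : LL ≤ Real.log (2 ^ 20) := by
    rw [Real.log_pow]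
    push_cast
    linarith
  exact (Real.log_le_log_iff hM0 (by norm_num)).1 e5

/-- the finiteness statement for short blocks -/
theorem finite_set3 : Set.Finite {x : ℕ × ℕ × ℕ × ℕ | IsSol x.1 x.2.1 x.2.2.1 x.2.2.2 ∧
    3 ≤ Nat.gcd x.2.1 x.2.2.2 ∧
    40 * ((x.2.1 : ℝ) / (Nat.gcd x.2.1 x.2.2.2 : ℕ)) * ((x.2.1 : ℝ) / x.2.2.2)
      * Real.log (Real.log x.2.2.1) ≤ Real.log x.2.2.1} := by
  set N := ⌊Real.exp (2 ^ 20)⌋₊ with hN
  refine Set.Finite.subset (Set.Finite.prod (Set.finite_Iic N) (Set.Finite.prod (Set.finite_Iic N)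
    (Set.Finite.prod (Set.finite_Iic N) (Set.finite_Iic N)))) ?_
  rintro ⟨m₁, k₁, m₂, k₂⟩ ⟨h, hd, hr⟩
  simp only at h hd hr
  have h1 := explicit3 h hd hr
  have hlt := h.lt
  obtain ⟨g1, g2, g3, g4⟩ := h
  have h2 : m₂ ≤ N := by
    apply Nat.le_floor
    have h3 := Real.exp_le_exp.2 h1
    rwa [Real.exp_log (by exact_mod_cast (by omega : 0 < m₂))] at h3
  simp only [Set.mem_prod, Set.mem_Iic]
  omega

end Pool.Agent.Lib.MP_50b5e1_nt.U
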