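import Pool.Agent.Lib.MP_50b5e1_nt.U.U2

/-!
# U3: the `d`-th root is small off its leading term
-/

set_option autoImplicit false

namespace Pool.Agent.Lib.MP_50b5e1_nt.U

open Polynomial

/-- the second order part of a power -/
theorem wn_second (U : ℤ[X]) (a e : ℕ) {t : ℝ} (ht : 0 ≤ t) :
    wn ((X ^ a + U) ^ (e + 1) - X ^ (a * (e + 1)) - ((e + 1 : ℕ) : ℤ[X]) * X ^ (a * e) * U) t
      ≤ (t ^ a + wn U t) ^ (e + 1) - t ^ (a * (e + 1)) - (e + 1 : ℕ) * t ^ (a * e) * wn U t := by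
  have h1 : (X ^ a + U) ^ (e + 1) - X ^ (a * (e + 1)) - ((e + 1 : ℕ) : ℤ[X]) * X ^ (a * e) * U
      = ∑ m ∈ Finset.range e, U ^ (m + 1 + 1) * (X ^ a) ^ (e + 1 - (m + 1 + 1)) *
        (((e + 1).choose (m + 1 + 1) : ℕ) : ℤ[X]) := by
    rw [add_comm (X ^ a : ℤ[X]) U, add_pow, Finset.sum_range_succ', Finset.sum_range_succ']
    simp only [zero_add, pow_zero, one_mul, Nat.sub_zero, Nat.choose_zero_right, Nat.cast_one,
      mul_one, pow_one, Nat.choose_one_right, Nat.add_sub_cancel]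
    rw [← pow_mul, ← pow_mul]
    ring
  have h2 : (t ^ a + wn U t) ^ (e + 1) - t ^ (a * (e + 1)) - (e + 1 : ℕ) * t ^ (a * e) * wn U t
      = ∑ m ∈ Finset.range e, (wn U t) ^ (m + 1 + 1) * (t ^ a) ^ (e + 1 - (m + 1 + 1)) *
        (((e + 1).choose (m + 1 + 1) : ℕ) : ℝ) := by
    rw [add_comm (t ^ a) (wn U t), add_pow, Finset.sum_range_succ', Finset.sum_range_succ']
    simp only [zero_add, pow_zero, one_mul, Nat.sub_zero, Nat.choose_zero_right, Nat.cast_one,
      mul_one, pow_one, Nat.choose_one_right, Nat.add_sub_cancel]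
    rw [← pow_mul, ← pow_mul]
    ring
  rw [h1, h2]
  refine (wn_sum_le _ _ ht).trans (Finset.sum_le_sum fun m _ => ?_)
  refine (wn_mul_le _ _ ht).trans ?_
  rw [wn_natCast]
  refine mul_le_mul_of_nonneg_right ?_ (by positivity)
  refine (wn_mul_le _ _ ht).trans ?_
  have hU := wn_nonneg U ht
  refine mul_le_mul (wn_pow_le _ ht _) ?_ (wn_nonneg _ ht) (by positivity)
  rw [← pow_mul, wn_X_pow, pow_mul]

/-- the basic inequality for the lower part of the root -/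
theorem root_ineq {e a : ℕ} {P A : ℤ[X]}
    (hc : ∀ n, a * e ≤ n → (P - A ^ (e + 1)).coeff n = 0) {t : ℝ} (ht : 0 ≤ t) :
    2 * ((e + 1 : ℕ) * t ^ (a * e) * wn (A - X ^ a) t)
      ≤ wn (P - X ^ (a * (e + 1))) t + (t ^ a + wn (A - X ^ a) t) ^ (e + 1)
        - t ^ (a * (e + 1)) := by
  set U := A - X ^ a with hU
  have hA : A = X ^ a + U := by rw [hU]; ring
  set Q := (X ^ a + U) ^ (e + 1) - X ^ (a * (e + 1)) - ((e + 1 : ℕ) : ℤ[X]) * X ^ (a * e) * U with hQ
  have h1 : wn (((e + 1 : ℕ) : ℤ[X]) * X ^ (a * e) * U) t ≤ wn (P - X ^ (a * (e + 1))) t + wn Q t := by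
    refine wn_le_of_coeff ht fun n => ?_
    rcases Nat.lt_or_ge n (a * e) with h | h
    · have h3 : (((e + 1 : ℕ) : ℤ[X]) * X ^ (a * e) * U).coeff n = 0 := by
        have : ((e + 1 : ℕ) : ℤ[X]) * X ^ (a * e) * U = (((e + 1 : ℕ) : ℤ[X]) * U) * X ^ (a * e) := by
          ring
        rw [this, coeff_mul_X_pow', if_neg (by omega)]
      rw [h3, abs_zero]
      positivity
    · have h4 : ((e + 1 : ℕ) : ℤ[X]) * X ^ (a * e) * U
          = (P - X ^ (a * (e + 1))) - Q - (P - A ^ (e + 1)) := by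
        rw [hQ, ← hA]
        ring
      rw [h4, coeff_sub, hc n h, sub_zero, coeff_sub]
      exact abs_sub _ _
  rw [wn_shift] at h1
  have h2 := wn_second U a e ht
  rw [← hQ] at h2
  linarith

theorem exp_half_lt : Real.exp (1 / 2) < 1.65 := by
  have h1 : Real.exp (1 / 2) ^ 2 = Real.exp 1 := by
    rw [← Real.exp_nat_mul]
    norm_num
  have h2 := Real.exp_one_lt_d9
  nlinarith [Real.exp_pos (1 / 2 : ℝ)]

theorem one_add_pow_le {e : ℕ} {w : ℝ} (hw : 0 ≤ w) :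
    (1 + w / (e + 1 : ℕ)) ^ (e + 1) ≤ Real.exp w := by
  have h1 : (1 + w / (e + 1 : ℕ)) ≤ Real.exp (w / (e + 1 : ℕ)) := by
    have := Real.add_one_le_exp (w / (e + 1 : ℕ))
    linarith
  calc (1 + w / (e + 1 : ℕ)) ^ (e + 1) ≤ Real.exp (w / (e + 1 : ℕ)) ^ (e + 1) :=
        pow_le_pow_left₀ (by positivity) h1 _
    _ = Real.exp w := by
        rw [← Real.exp_nat_mul]
        congr 1
        have : ((e + 1 : ℕ) : ℝ) ≠ 0 := by positivity
        field_simp

/-- the value `w = d wn(U)/t^a` is never `1/2` -/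
theorem root_ne_half {e a : ℕ} {P A : ℤ[X]}
    (hc : ∀ n, a * e ≤ n → (P - A ^ (e + 1)).coeff n = 0) {t : ℝ} (ht : 0 < t)
    (hPt : wn (P - X ^ (a * (e + 1))) t ≤ t ^ (a * (e + 1)) / 4) :
    (e + 1 : ℕ) * wn (A - X ^ a) t / t ^ a ≠ 1 / 2 := by
  intro hw
  have h1 := root_ineq (A := A) (P := P) hc ht.le
  set u := wn (A - X ^ a) t with hu
  have hta : 0 < t ^ a := pow_pos ht a
  have hd : (0 : ℝ) < (e + 1 : ℕ) := by positivity
  have h2 : u = t ^ a * ((1 / 2) / (e + 1 : ℕ)) := by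
    field_simp at hw ⊢
    linarith
  have h3 : (t ^ a + u) ^ (e + 1) ≤ t ^ (a * (e + 1)) * Real.exp (1 / 2) := by
    have : t ^ a + u = t ^ a * (1 + (1 / 2) / (e + 1 : ℕ)) := by rw [h2]; ring
    rw [this, mul_pow, ← pow_mul]
    exact mul_le_mul_of_nonneg_left (one_add_pow_le (by norm_num)) (by positivity)
  have h4 : (e + 1 : ℕ) * t ^ (a * e) * u = t ^ (a * (e + 1)) / 2 := by
    rw [h2, mul_add, pow_add, mul_one]
    field_simp
  have h5 := exp_half_lt
  have h6 : 0 < t ^ (a * (e + 1)) := by positivity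
  rw [h4] at h1
  nlinarith

/-- **the root is small off its leading term** -/
theorem root_small {e a : ℕ} (ha : 1 ≤ a) {P A : ℤ[X]} (hA : A.Monic) (hdeg : A.natDegree = a)
    (hc : ∀ n, a * e ≤ n → (P - A ^ (e + 1)).coeff n = 0) {t₀ : ℝ} (ht₀ : 0 < t₀)
    (hPt : ∀ t, t₀ ≤ t → wn (P - X ^ (a * (e + 1))) t ≤ t ^ (a * (e + 1)) / 4) {t : ℝ} (ht : t₀ ≤ t) :
    (e + 1 : ℕ) * wn (A - X ^ a) t / t ^ a ≤ 1 / 2 := by
  by_contra hcon
  push Not at hcon
  set U := A - X ^ a with hU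
  set φ : ℝ → ℝ := fun s => (e + 1 : ℕ) * wn U s / s ^ a with hφ
  have ht0 : 0 < t := lt_of_lt_of_le ht₀ ht
  have hdU : U.natDegree ≤ a - 1 := by
    rw [natDegree_le_iff_coeff_eq_zero]
    intro n hn
    rw [hU, coeff_sub, coeff_X_pow]
    rcases eq_or_ne n a with h | h
    · rw [if_pos h, h, ← hdeg, hA.coeff_natDegree, sub_self]
    · rw [if_neg h, coeff_eq_zero_of_natDegree_lt (by omega), sub_self]
  set s : ℝ := max (max t 1) (2 * (e + 1 : ℕ) * wn U 1) with hs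
  have hs1 : 1 ≤ s := le_trans (le_max_right _ _) (le_max_left _ _)
  have hst : t ≤ s := le_trans (le_max_left _ _) (le_max_left _ _)
  have hs2 : 2 * (e + 1 : ℕ) * wn U 1 ≤ s := le_max_right _ _
  have hφs : φ s ≤ 1 / 2 := by
    have h1 := wn_growth hdU one_pos hs1
    rw [div_one] at h1
    have hsa : s ^ a = s ^ (a - 1) * s := by
      rw [← pow_succ]
      congr 1
      omega
    have hs0 : 0 < s := by linarith
    simp only [hφ]
    rw [div_le_iff₀ (by positivity), hsa]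
    have hp : 0 < s ^ (a - 1) := by positivity
    calc (e + 1 : ℕ) * wn U s ≤ (e + 1 : ℕ) * (s ^ (a - 1) * wn U 1) :=
          mul_le_mul_of_nonneg_left h1 (by positivity)
      _ = s ^ (a - 1) * (2 * (e + 1 : ℕ) * wn U 1) / 2 := by ring
      _ ≤ s ^ (a - 1) * s / 2 := by
          have := mul_le_mul_of_nonneg_left hs2 hp.le
          linarith
      _ = 1 / 2 * (s ^ (a - 1) * s) := by ring
  have hcont : ContinuousOn φ (Set.Icc t s) := by
    simp only [hφ]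
    refine ContinuousOn.div ?_ (by fun_prop) fun x hx => ?_
    · refine ContinuousOn.mul continuousOn_const ?_
      unfold wn
      fun_prop
    · have : 0 < x := lt_of_lt_of_le ht0 hx.1
      positivity
  obtain ⟨x, hx, hx2⟩ := intermediate_value_Icc' hst hcont (show (1 / 2 : ℝ) ∈ Set.Icc (φ s) (φ t) from
    ⟨hφs, hcon.le⟩)
  have hx0 : t₀ ≤ x := ht.trans hx.1
  exact root_ne_half hc (lt_of_lt_of_le ht₀ hx0) (hPt x hx0) hx2

/-- the remainder is bounded -/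
theorem rem_bound {e a : ℕ} {P A : ℤ[X]} (hA : A.Monic) (hdeg : A.natDegree = a)
    {t : ℝ} (ht : 0 < t)
    (hPt : wn (P - X ^ (a * (e + 1))) t ≤ t ^ (a * (e + 1)) / 4)
    (hs : (e + 1 : ℕ) * wn (A - X ^ a) t / t ^ a ≤ 1 / 2) :
    wn (P - A ^ (e + 1)) t ≤ t ^ (a * (e + 1)) := by
  set u := wn (A - X ^ a) t with hu
  have hu0 : 0 ≤ u := wn_nonneg _ ht.le
  have hta : 0 < t ^ a := pow_pos ht a
  have h1 : u ≤ t ^ a * ((1 / 2) / (e + 1 : ℕ)) := by
    have hd : (0 : ℝ) < (e + 1 : ℕ) := by positivity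
    rw [div_le_iff₀ hta] at hs
    rw [mul_div_assoc', le_div_iff₀ hd]
    linarith
  have h2 : wn (A ^ (e + 1)) t ≤ t ^ (a * (e + 1)) * Real.exp (1 / 2) := by
    refine (wn_pow_le _ ht.le _).trans ?_
    rw [wn_monic hA hdeg, ← hu]
    have h3 : t ^ a + u ≤ t ^ a * (1 + (1 / 2) / (e + 1 : ℕ)) := by
      rw [mul_add, mul_one]
      linarith
    refine (pow_le_pow_left₀ (by positivity) h3 _).trans ?_
    rw [mul_pow, ← pow_mul]
    exact mul_le_mul_of_nonneg_left (one_add_pow_le (by norm_num)) (by positivity)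
  have h4 : wn (A ^ (e + 1)) t = t ^ (a * (e + 1)) + wn (A ^ (e + 1) - X ^ (a * (e + 1))) t := by
    refine wn_monic (hA.pow _) ?_ t
    rw [hA.natDegree_pow, hdeg, mul_comm]
  have h5 : P - A ^ (e + 1) = (P - X ^ (a * (e + 1))) - (A ^ (e + 1) - X ^ (a * (e + 1))) := by ring
  rw [h5]
  refine (wn_sub_le _ _ ht.le).trans ?_
  have h6 := exp_half_lt
  have h7 : 0 < t ^ (a * (e + 1)) := by positivity
  nlinarith

end Pool.Agent.Lib.MP_50b5e1_nt.U
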