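import Pool.Agent.Lib.MP_50b5e1_nt.U.U3
import Pool.Agent.Lib.MP_50b5e1_nt.U.U1
import Pool.Agent.Lib.MP_50b5e1_nt.Defs

/-!
# U4: the polynomial of a block
-/

set_option autoImplicit false

namespace Pool.Agent.Lib.MP_50b5e1_nt.U

open Polynomial

/-- the centred polynomial `∏_{i<N} (X + s(2i - (N-1)))` of a block of length `N` -/
noncomputable def nodeP (s : ℤ) (N : ℕ) : ℤ[X] :=
  ∏ i ∈ Finset.range N, (X + C (s * (2 * (i : ℤ) - ((N : ℤ) - 1))))

theorem nodeP_monic (s : ℤ) (N : ℕ) : (nodeP s N).Monic :=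
  monic_prod_of_monic _ _ fun _ _ => monic_X_add_C _

theorem nodeP_natDegree (s : ℤ) (N : ℕ) : (nodeP s N).natDegree = N := by
  unfold nodeP
  rw [natDegree_prod_of_monic _ _ fun _ _ => monic_X_add_C _,
    Finset.sum_congr rfl fun i _ => natDegree_X_add_C _]
  simp

theorem dvd_prod_sub {ι : Type*} (s : ℤ) (S : Finset ι) (c : ι → ℤ) :
    C s ∣ ∏ i ∈ S, (X + C (s * c i)) - X ^ S.card := by
  classical
  induction S using Finset.induction_on with
  | empty => simp
  | insert a S ha ih =>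
    rw [Finset.prod_insert ha, Finset.card_insert_of_notMem ha]
    have : (X + C (s * c a)) * ∏ i ∈ S, (X + C (s * c i)) - X ^ (S.card + 1)
        = X * (∏ i ∈ S, (X + C (s * c i)) - X ^ S.card)
          + C s * (C (c a) * ∏ i ∈ S, (X + C (s * c i))) := by
      simp only [map_mul]
      ring
    rw [this]
    exact dvd_add (Dvd.dvd.mul_left ih _) (Dvd.intro _ rfl)

theorem nodeP_dvd (s : ℤ) (N : ℕ) {i : ℕ} (hi : i < N) : s ∣ (nodeP s N).coeff i := by
  have h := dvd_prod_sub s (Finset.range N) (fun i => 2 * (i : ℤ) - ((N : ℤ) - 1))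
  rw [C_dvd_iff_dvd_coeff] at h
  have h2 := h i
  rw [coeff_sub, coeff_X_pow, Finset.card_range, if_neg (by omega), sub_zero] at h2
  exact h2

theorem nodeP_eval (s : ℤ) (N m : ℕ) :
    (nodeP s N).eval (s * (2 * (m : ℤ) + N + 1)) = (2 * s) ^ N * (blockProd m N : ℤ) := by
  unfold nodeP blockProd
  rw [eval_prod]
  push_cast
  have h1 : ∏ i ∈ Finset.Icc 1 N, ((m : ℤ) + i) = ∏ i ∈ Finset.range N, ((m : ℤ) + (i + 1 : ℕ)) := by
    clear * -
    induction N with
    | zero => simp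
    | succ n ih => rw [Finset.prod_Icc_succ_top (by omega), ih, Finset.prod_range_succ]
  rw [h1]
  have h2 : (2 * s) ^ N = ∏ _i ∈ Finset.range N, (2 * s) := by simp
  rw [h2, ← Finset.prod_mul_distrib]
  refine Finset.prod_congr rfl fun i _ => ?_
  simp only [eval_add, eval_X, eval_C]
  push_cast
  ring

theorem wn_X_add_C (c : ℤ) {t : ℝ} (ht : 0 ≤ t) : wn (X + C c) t ≤ t + |(c : ℝ)| := by
  refine (wn_add_le _ _ ht).trans ?_
  have h1 := wn_X_pow 1 t
  simp only [pow_one] at h1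
  have h2 : (C c : ℤ[X]) = monomial 0 c := rfl
  rw [h1, h2, wn_monomial]
  simp

theorem nodeP_wn {s : ℤ} (hs : 0 ≤ s) (N : ℕ) {t : ℝ} (ht : 0 < t) :
    wn (nodeP s N - X ^ N) t ≤ t ^ N * (Real.exp (s * N ^ 2 / t) - 1) := by
  have h1 : wn (nodeP s N) t ≤ t ^ N * Real.exp (s * N ^ 2 / t) := by
    unfold nodeP
    refine (wn_prod_le _ _ ht.le).trans ?_
    have h2 : ∀ i ∈ Finset.range N, wn (X + C (s * (2 * (i : ℤ) - ((N : ℤ) - 1)))) t
        ≤ t * Real.exp (s * N / t) := by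
      intro i hi
      have hi' := Finset.mem_range.1 hi
      refine (wn_X_add_C _ ht.le).trans ?_
      have h3 : |((s * (2 * (i : ℤ) - ((N : ℤ) - 1)) : ℤ) : ℝ)| ≤ s * N := by
        push_cast
        rw [abs_mul]
        have h4 : |(s : ℝ)| = s := abs_of_nonneg (by exact_mod_cast hs)
        rw [h4]
        refine mul_le_mul_of_nonneg_left ?_ (by exact_mod_cast hs)
        have h5 : (i : ℝ) + 1 ≤ N := by exact_mod_cast hi'
        rw [abs_le]
        constructor <;> nlinarith [Nat.cast_nonneg (α := ℝ) i]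
      have h6 := Real.add_one_le_exp ((s : ℝ) * N / t)
      have h7 : t * (s * N / t + 1) = s * N + t := by field_simp
      nlinarith
    calc ∏ i ∈ Finset.range N, wn (X + C (s * (2 * (i : ℤ) - ((N : ℤ) - 1)))) t
        ≤ ∏ _i ∈ Finset.range N, (t * Real.exp (s * N / t)) :=
          Finset.prod_le_prod (fun i _ => wn_nonneg _ ht.le) h2
      _ = t ^ N * Real.exp (s * N ^ 2 / t) := by
          rw [Finset.prod_const, Finset.card_range, mul_pow, ← Real.exp_nat_mul]
          congr 2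
          ring
  have h2 := wn_monic (nodeP_monic s N) (nodeP_natDegree s N) t
  rw [h2] at h1
  linarith

theorem exp_tenth : Real.exp (1 / 10) - 1 ≤ 1 / 7 := by
  have h1 : Real.exp (1 / 10) ^ 10 = Real.exp 1 := by
    rw [← Real.exp_nat_mul]
    norm_num
  have h2 := Real.exp_one_lt_d9
  by_contra hcon
  push Not at hcon
  have h3 : (8 / 7 : ℝ) ≤ Real.exp (1 / 10) := by linarith
  have h4 : (8 / 7 : ℝ) ^ 10 ≤ Real.exp (1 / 10) ^ 10 := pow_le_pow_left₀ (by norm_num) h3 _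
  rw [h1] at h4
  norm_num at h4
  linarith

theorem nodeP_wn_seven {s : ℤ} (hs : 0 ≤ s) (N : ℕ) {t : ℝ} (ht : 0 < t) (h : 10 * s * (N : ℝ) ^ 2 ≤ t) :
    wn (nodeP s N - X ^ N) t ≤ t ^ N / 7 := by
  refine (nodeP_wn hs N ht).trans ?_
  have h1 : (s : ℝ) * N ^ 2 / t ≤ 1 / 10 := by
    rw [div_le_iff₀ ht]
    linarith
  have h2 : Real.exp ((s : ℝ) * N ^ 2 / t) - 1 ≤ 1 / 7 :=
    le_trans (by linarith [Real.exp_le_exp.2 h1]) exp_tenth
  have h3 : 0 ≤ t ^ N := by positivity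
  nlinarith

end Pool.Agent.Lib.MP_50b5e1_nt.U
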