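import Mathlib

/-!
# U5: how well can a `d`-th power approximate a polynomial with simple roots
-/

set_option autoImplicit false

namespace Pool.Agent.Lib.MP_50b5e1_nt.U

open Polynomial

/-- the Wronskian type combination `d R A' - R' A` -/
noncomputable def wr (d : ℕ) (A R : ℝ[X]) : ℝ[X] :=
  (d : ℝ[X]) * R * derivative A - derivative R * A

theorem wr_natDegree_le (d : ℕ) {A R : ℝ[X]} {a : ℕ} (ha : 1 ≤ a) (hA : A.natDegree ≤ a) :
    (wr d A R).natDegree ≤ R.natDegree + a - 1 := by
  unfold wr
  refine (natDegree_sub_le _ _).trans (max_le ?_ ?_)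
  · have h1 : ((d : ℝ[X]) * R * derivative A).natDegree
        ≤ ((d : ℝ[X]) * R).natDegree + (derivative A).natDegree := natDegree_mul_le
    have h2 : ((d : ℝ[X]) * R).natDegree ≤ R.natDegree := by
      have : (d : ℝ[X]) = C (d : ℝ) := by simp
      rw [this]
      exact natDegree_C_mul_le _ _
    have h3 := natDegree_derivative_le A
    omega
  · rcases Nat.eq_zero_or_pos R.natDegree with h | h
    · rw [natDegree_eq_zero] at h
      obtain ⟨c, hc⟩ := h
      rw [← hc, derivative_C, zero_mul]
      simp
    · have h1 : (derivative R * A).natDegree ≤ (derivative R).natDegree + A.natDegree :=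
        natDegree_mul_le
      have h3 := natDegree_derivative_le R
      omega

theorem wr_coeff_top (d : ℕ) {A R : ℝ[X]} {a : ℕ} (ha : 1 ≤ a) (hA : A.Monic)
    (hdeg : A.natDegree = a) :
    (wr d A R).coeff (R.natDegree + a - 1) = ((d : ℝ) * a - R.natDegree) * R.leadingCoeff := by
  obtain ⟨b, rfl⟩ : ∃ b, a = b + 1 := ⟨a - 1, by omega⟩
  have e1 : R.natDegree + (b + 1) - 1 = R.natDegree + b := by omega
  have h1 : ((d : ℝ[X]) * R * derivative A).coeff (R.natDegree + b) = d * R.leadingCoeff * (b + 1) := by
    have h2 : ((d : ℝ[X]) * R).natDegree ≤ R.natDegree := by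
      have : (d : ℝ[X]) = C (d : ℝ) := by simp
      rw [this]
      exact natDegree_C_mul_le _ _
    have h3 : (derivative A).natDegree ≤ b := by
      have := natDegree_derivative_le A
      omega
    rw [coeff_mul_add_eq_of_natDegree_le h2 h3, coeff_derivative, ← hdeg, hA.coeff_natDegree]
    have : (d : ℝ[X]) = C (d : ℝ) := by simp
    rw [this, coeff_C_mul]
    have hb : (b : ℝ) + 1 = (A.natDegree : ℝ) := by rw [hdeg]; push_cast; ring
    simp only [leadingCoeff, one_mul]
    try ring
  have h4 : (derivative R * A).coeff (R.natDegree + b) = R.natDegree * R.leadingCoeff := by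
    rcases Nat.eq_zero_or_pos R.natDegree with h | h
    · rw [h]
      rw [natDegree_eq_zero] at h
      obtain ⟨c, hc⟩ := h
      rw [← hc, derivative_C, zero_mul]
      simp
    · obtain ⟨r, hr⟩ : ∃ r, R.natDegree = r + 1 := ⟨R.natDegree - 1, by omega⟩
      have h5 : (derivative R).natDegree ≤ r := by
        have := natDegree_derivative_le R
        omega
      have h6 : R.natDegree + b = r + (b + 1) := by omega
      rw [h6, coeff_mul_add_eq_of_natDegree_le h5 hdeg.le, coeff_derivative, leadingCoeff, hr]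
      have h7 := hA.coeff_natDegree
      rw [hdeg] at h7
      rw [h7]
      push_cast
      ring
  unfold wr
  rw [e1, coeff_sub, h1, h4]
  push_cast
  ring

/-- values at the nodes -/
theorem wr_eval {N d : ℕ} {v : ℕ → ℝ} {A R : ℝ[X]} (hd : 1 ≤ d)
    (hR : Lagrange.nodal (Finset.range N) v = A ^ d + R) {i : ℕ} (hi : i ∈ Finset.range N) :
    (wr d A R).eval (v i) = -(∏ j ∈ (Finset.range N).erase i, (v i - v j)) * A.eval (v i) := by
  have h1 : (Lagrange.nodal (Finset.range N) v).eval (v i) = 0 := Lagrange.eval_nodal_at_node hi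
  have h2 := Lagrange.eval_nodal_derivative_eval_node_eq (s := Finset.range N) (v := v) hi
  rw [Lagrange.eval_nodal] at h2
  rw [← h2, hR]
  rw [hR, eval_add, eval_pow] at h1
  unfold wr
  simp only [eval_sub, eval_mul, eval_natCast, derivative_add, eval_add]
  rw [derivative_pow]
  simp only [eval_mul, eval_pow, eval_C]
  obtain ⟨e, rfl⟩ : ∃ e, d = e + 1 := ⟨d - 1, by omega⟩
  have h3 : R.eval (v i) = - (A.eval (v i)) ^ (e + 1) := by linarith
  rw [h3, Nat.add_sub_cancel, pow_succ]
  push_cast
  ring

/-- **the summation formula** -/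
theorem sum_nodes {N d : ℕ} {v : ℕ → ℝ} (hv : Set.InjOn v (Finset.range N)) {A R : ℝ[X]}
    (hd : 1 ≤ d) (hR : Lagrange.nodal (Finset.range N) v = A ^ d + R) (hN : 1 ≤ N)
    (g : ℝ[X]) (hg : (g * wr d A R).natDegree ≤ N - 1) :
    ∑ i ∈ Finset.range N, g.eval (v i) * A.eval (v i) = -(g * wr d A R).coeff (N - 1) := by
  have h1 : (g * wr d A R).degree < (Finset.range N).card := by
    rw [Finset.card_range]
    refine lt_of_le_of_lt degree_le_natDegree ?_
    exact_mod_cast (by omega : (g * wr d A R).natDegree < N)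
  have h2 := Lagrange.coeff_eq_sum hv h1
  rw [Finset.card_range] at h2
  rw [h2, ← Finset.sum_neg_distrib]
  refine Finset.sum_congr rfl fun i hi => ?_
  rw [eval_mul, wr_eval hd hR hi]
  have h3 : ∏ j ∈ (Finset.range N).erase i, (v i - v j) ≠ 0 := by
    rw [Finset.prod_ne_zero_iff]
    intro j hj
    rw [Finset.mem_erase] at hj
    intro h4
    exact hj.1 (hv hj.2 hi (by linarith))
  field_simp

/-- the remainder cannot be too small -/
theorem deg_rem {a d : ℕ} {v : ℕ → ℝ} (hv : Set.InjOn v (Finset.range (a * d))) {A R : ℝ[X]}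
    (ha : 1 ≤ a) (hd : 2 ≤ d) (hA : A.Monic) (hdeg : A.natDegree = a)
    (hR : Lagrange.nodal (Finset.range (a * d)) v = A ^ d + R) :
    R ≠ 0 ∧ a * d ≤ R.natDegree + 2 * a := by
  have hN : a < a * d := by nlinarith
  have key : ¬ (A * wr d A R).natDegree < a * d - 1 := by
    intro h
    have h1 := sum_nodes hv (by omega) hR (by omega) A h.le
    rw [coeff_eq_zero_of_natDegree_lt h, neg_zero] at h1
    have h2 := (Finset.sum_eq_zero_iff_of_nonneg (fun i _ => mul_self_nonneg _)).1 h1
    have h3 : A = 0 := by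
      refine eq_zero_of_degree_lt_of_eval_index_eq_zero (s := Finset.range (a * d)) hv ?_ ?_
      · rw [Finset.card_range, degree_eq_natDegree hA.ne_zero, hdeg]
        exact_mod_cast hN
      · intro i hi
        exact mul_self_eq_zero.1 (h2 i hi)
    exact hA.ne_zero h3
  have h4 := wr_natDegree_le (R := R) d ha hdeg.le
  constructor
  · intro h0
    apply key
    have : wr d A R = 0 := by simp [wr, h0]
    rw [this, mul_zero, natDegree_zero]
    omega
  · by_contra hcon
    apply key
    have h5 : (A * wr d A R).natDegree ≤ A.natDegree + (wr d A R).natDegree := natDegree_mul_le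
    omega

/-- the case of equality: orthogonality and the leading coefficient -/
theorem deg_rem_eq {a d : ℕ} {v : ℕ → ℝ} (hv : Set.InjOn v (Finset.range (a * d))) {A R : ℝ[X]}
    (ha : 1 ≤ a) (hd : 2 ≤ d) (hA : A.Monic) (hdeg : A.natDegree = a)
    (hR : Lagrange.nodal (Finset.range (a * d)) v = A ^ d + R)
    (heq : R.natDegree + 2 * a = a * d) :
    (∀ g : ℝ[X], g.natDegree < a → ∑ i ∈ Finset.range (a * d), g.eval (v i) * A.eval (v i) = 0) ∧
    2 * (a : ℝ) * R.leadingCoeff = - ∑ i ∈ Finset.range (a * d), A.eval (v i) * A.eval (v i) := by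
  have hN : a < a * d := by nlinarith
  have h4 := wr_natDegree_le (R := R) d ha hdeg.le
  constructor
  · intro g hg
    have h5 : (g * wr d A R).natDegree ≤ g.natDegree + (wr d A R).natDegree := natDegree_mul_le
    rw [sum_nodes hv (by omega) hR (by omega) g (by omega), coeff_eq_zero_of_natDegree_lt (by omega),
      neg_zero]
  · have h5 : (A * wr d A R).natDegree ≤ A.natDegree + (wr d A R).natDegree := natDegree_mul_le
    rw [sum_nodes hv (by omega) hR (by omega) A (by omega)]
    have e1 : a * d - 1 = a + (R.natDegree + a - 1) := by omega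
    rw [e1, coeff_mul_add_eq_of_natDegree_le hdeg.le h4, wr_coeff_top d ha hA hdeg]
    have h6 := hA.coeff_natDegree
    rw [hdeg] at h6
    rw [h6]
    have h7 : ((R.natDegree : ℝ)) = a * d - 2 * a := by
      have : ((R.natDegree + 2 * a : ℕ) : ℝ) = (a * d : ℕ) := by rw [heq]
      push_cast at this
      linarith
    rw [h7]
    ring

end Pool.Agent.Lib.MP_50b5e1_nt.U
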