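import Pool.Agent.Lib.MP_50b5e1_nt.U.U5

/-!
# U6: equally spaced nodes and the difference operator
-/

set_option autoImplicit false

namespace Pool.Agent.Lib.MP_50b5e1_nt.U

open Polynomial

/-- equally spaced nodes `N-1, N-3, …, -(N-1)` -/
noncomputable def nd (N i : ℕ) : ℝ := ((N : ℝ) - 1) - 2 * i

theorem nd_injOn (N : ℕ) (s : Set ℕ) : Set.InjOn (nd N) s := by
  intro i _ j _ h
  unfold nd at h
  have : (i : ℝ) = j := by linarith
  exact_mod_cast this

theorem psum_one (M : ℝ) (n : ℕ) : ∑ i ∈ Finset.range n, (M - 2 * (i : ℝ)) = n * M - n * (n - 1) := by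
  induction n with
  | zero => simp
  | succ n ih => rw [Finset.sum_range_succ, ih]; push_cast; ring

theorem psum_two (M : ℝ) (n : ℕ) : ∑ i ∈ Finset.range n, (M - 2 * (i : ℝ)) ^ 2
    = n * M ^ 2 - 2 * M * n * (n - 1) + 2 * (n - 1) * n * (2 * n - 1) / 3 := by
  induction n with
  | zero => simp
  | succ n ih => rw [Finset.sum_range_succ, ih]; push_cast; ring

theorem psum_three (M : ℝ) (n : ℕ) : ∑ i ∈ Finset.range n, (M - 2 * (i : ℝ)) ^ 3
    = n * M ^ 3 - 3 * M ^ 2 * n * (n - 1) + 2 * M * (n - 1) * n * (2 * n - 1)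
      - 2 * (n * (n - 1)) ^ 2 := by
  induction n with
  | zero => simp
  | succ n ih => rw [Finset.sum_range_succ, ih]; push_cast; ring

theorem psum_four (M : ℝ) (n : ℕ) : ∑ i ∈ Finset.range n, (M - 2 * (i : ℝ)) ^ 4
    = n * M ^ 4 - 4 * M ^ 3 * n * (n - 1) + 4 * M ^ 2 * (n - 1) * n * (2 * n - 1)
      - 8 * M * (n * (n - 1)) ^ 2 + 8 * n * (n - 1) * (2 * n - 1) * (3 * n ^ 2 - 3 * n - 1) / 15 := by
  induction n with
  | zero => simp
  | succ n ih => rw [Finset.sum_range_succ, ih]; push_cast; ring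

theorem nd_sum_one (N : ℕ) : ∑ i ∈ Finset.range N, nd N i = 0 := by
  unfold nd; rw [psum_one]; ring

theorem nd_sum_two (N : ℕ) : ∑ i ∈ Finset.range N, nd N i ^ 2 = N * ((N : ℝ) ^ 2 - 1) / 3 := by
  unfold nd; rw [psum_two]; ring

theorem nd_sum_three (N : ℕ) : ∑ i ∈ Finset.range N, nd N i ^ 3 = 0 := by
  unfold nd; rw [psum_three]; ring

theorem nd_sum_four (N : ℕ) : ∑ i ∈ Finset.range N, nd N i ^ 4
    = N * ((N : ℝ) ^ 2 - 1) * (3 * (N : ℝ) ^ 2 - 7) / 15 := by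
  unfold nd; rw [psum_four]; ring

/-- the difference operator of the discrete Chebyshev polynomials -/
noncomputable def Lop (N : ℝ) (f : ℝ[X]) : ℝ[X] :=
  (C (N ^ 2) - (X + C 1) ^ 2) * (taylor 2 f - f) + (C (N ^ 2) - (X - C 1) ^ 2) * (taylor (-2) f - f)

theorem Lop_eval (N : ℝ) (f : ℝ[X]) (x : ℝ) :
    (Lop N f).eval x = (N ^ 2 - (x + 1) ^ 2) * (f.eval (x + 2) - f.eval x)
      + (N ^ 2 - (x - 1) ^ 2) * (f.eval (x - 2) - f.eval x) := by
  unfold Lop
  simp only [eval_add, eval_mul, eval_sub, eval_pow, eval_X, eval_C, taylor_eval]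
  rw [show x + (-2 : ℝ) = x - 2 by ring]

theorem Lop_form (M : ℕ) (f g : ℝ[X]) :
    ∑ i ∈ Finset.range (M + 1), g.eval (nd (M + 1) i) * (Lop ((M + 1 : ℕ) : ℝ) f).eval (nd (M + 1) i)
      = -∑ j ∈ Finset.range M, (((M + 1 : ℕ) : ℝ) ^ 2 - (nd (M + 1) j - 1) ^ 2) *
        ((g.eval (nd (M + 1) j) - g.eval (nd (M + 1) (j + 1))) *
        (f.eval (nd (M + 1) j) - f.eval (nd (M + 1) (j + 1)))) := by
  have h1 : ∀ i, g.eval (nd (M + 1) i) * (Lop ((M + 1 : ℕ) : ℝ) f).eval (nd (M + 1) i)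
      = g.eval (nd (M + 1) i) * ((((M + 1 : ℕ) : ℝ) ^ 2 - (nd (M + 1) i + 1) ^ 2) *
          (f.eval (nd (M + 1) i + 2) - f.eval (nd (M + 1) i)))
        + g.eval (nd (M + 1) i) * ((((M + 1 : ℕ) : ℝ) ^ 2 - (nd (M + 1) i - 1) ^ 2) *
          (f.eval (nd (M + 1) i - 2) - f.eval (nd (M + 1) i))) := by
    intro i
    rw [Lop_eval]
    ring
  rw [Finset.sum_congr rfl fun i _ => h1 i, Finset.sum_add_distrib, Finset.sum_range_succ',
    Finset.sum_range_succ (fun i => g.eval (nd (M + 1) i) * ((((M + 1 : ℕ) : ℝ) ^ 2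
      - (nd (M + 1) i - 1) ^ 2) * (f.eval (nd (M + 1) i - 2) - f.eval (nd (M + 1) i)))) M]
  have h2 : (((M + 1 : ℕ) : ℝ) ^ 2 - (nd (M + 1) 0 + 1) ^ 2) = 0 := by
    unfold nd; push_cast; ring
  have h3 : (((M + 1 : ℕ) : ℝ) ^ 2 - (nd (M + 1) M - 1) ^ 2) = 0 := by
    unfold nd; push_cast; ring
  rw [h2, h3, zero_mul, zero_mul, mul_zero, mul_zero, add_zero, add_zero, ← Finset.sum_add_distrib,
    ← Finset.sum_neg_distrib]
  refine Finset.sum_congr rfl fun j _ => ?_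
  have h4 : nd (M + 1) (j + 1) + 2 = nd (M + 1) j := by unfold nd; push_cast; ring
  have h5 : nd (M + 1) (j + 1) + 1 = nd (M + 1) j - 1 := by unfold nd; push_cast; ring
  have h6 : nd (M + 1) j - 2 = nd (M + 1) (j + 1) := by unfold nd; push_cast; ring
  rw [h4, h5, h6]
  ring

theorem Lop_symm (N : ℕ) (hN : 1 ≤ N) (f g : ℝ[X]) :
    ∑ i ∈ Finset.range N, g.eval (nd N i) * (Lop N f).eval (nd N i)
      = ∑ i ∈ Finset.range N, f.eval (nd N i) * (Lop N g).eval (nd N i) := by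
  obtain ⟨M, rfl⟩ : ∃ M, N = M + 1 := ⟨N - 1, by omega⟩
  rw [Lop_form, Lop_form]
  congr 1
  exact Finset.sum_congr rfl fun j _ => by ring

/-- coefficients of a translate -/
theorem taylor_coeff_sum (r : ℝ) (f : ℝ[X]) {n m : ℕ} (hf : f.natDegree ≤ n + m) :
    (taylor r f).coeff n = ∑ j ∈ Finset.range (m + 1), ((j + n).choose n : ℝ) * f.coeff (j + n) * r ^ j := by
  rw [taylor_coeff, eval_eq_sum_range' (n := m + 1)]
  · refine Finset.sum_congr rfl fun j _ => ?_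
    rw [hasseDeriv_coeff]
  · have := natDegree_hasseDeriv_le f n
    omega

/-- second difference -/
noncomputable def Sop (f : ℝ[X]) : ℝ[X] := taylor 2 f + taylor (-2) f - 2 * f

/-- first difference -/
noncomputable def Dop (f : ℝ[X]) : ℝ[X] := taylor 2 f - taylor (-2) f

theorem Lop_eq (N : ℝ) (f : ℝ[X]) :
    Lop N f = C (N ^ 2 - 1) * Sop f - Sop f * X ^ 2 - C 2 * (Dop f * X ^ 1) := by
  unfold Lop Sop Dop
  simp only [map_sub, map_pow, map_one]
  have : (C (2 : ℝ) : ℝ[X]) = 2 := rfl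
  rw [this]
  ring

theorem two_mul_coeff (f : ℝ[X]) (n : ℕ) : ((2 : ℝ[X]) * f).coeff n = 2 * f.coeff n := by
  have : (2 : ℝ[X]) = C 2 := rfl
  rw [this, coeff_C_mul]

theorem Sop_coeff_zero {f : ℝ[X]} {k : ℕ} (hf : f.natDegree ≤ k + 2) {n : ℕ} (hn : k < n) :
    (Sop f).coeff n = 0 := by
  unfold Sop
  rw [coeff_sub, coeff_add, two_mul_coeff, taylor_coeff_sum 2 f (m := 1) (by omega),
    taylor_coeff_sum (-2) f (m := 1) (by omega)]
  simp only [Finset.sum_range_succ, Finset.sum_range_zero]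
  simp
  ring

theorem Dop_coeff_zero {f : ℝ[X]} {k : ℕ} (hf : f.natDegree ≤ k + 2) {n : ℕ} (hn : k + 1 < n) :
    (Dop f).coeff n = 0 := by
  unfold Dop
  rw [coeff_sub, taylor_coeff_sum 2 f (m := 0) (by omega),
    taylor_coeff_sum (-2) f (m := 0) (by omega)]
  simp

theorem Lop_natDegree {f : ℝ[X]} {k : ℕ} (N : ℝ) (hf : f.natDegree ≤ k + 2) :
    (Lop N f).natDegree ≤ k + 2 := by
  rw [natDegree_le_iff_coeff_eq_zero]
  intro n hn
  rw [Lop_eq, coeff_sub, coeff_sub, coeff_C_mul, coeff_C_mul, coeff_mul_X_pow', coeff_mul_X_pow',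
    if_pos (by omega), if_pos (by omega), Sop_coeff_zero hf (by omega), Sop_coeff_zero hf (by omega),
    Dop_coeff_zero hf (by omega)]
  simp

theorem choose_two_real (n : ℕ) : ((n.choose 2 : ℕ) : ℝ) = n * (n - 1) / 2 := Nat.cast_choose_two ℝ n

theorem choose_three_real (k : ℕ) : (((k + 2).choose 3 : ℕ) : ℝ) = (k + 2) * (k + 1) * k / 6 := by
  have h1 := Nat.add_one_mul_choose_eq (k + 1) 2
  have h2 : ((k + 1 + 1 : ℕ) : ℝ) * ((k + 1).choose 2 : ℕ) = ((k + 1 + 1).choose 3 : ℕ) * (3 : ℕ) := by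
    exact_mod_cast h1
  rw [choose_two_real] at h2
  push_cast at h2 ⊢
  linarith

theorem choose_four_real (k : ℕ) :
    (((k + 2).choose 4 : ℕ) : ℝ) = (k + 2) * (k + 1) * k * (k - 1) / 24 := by
  rcases k with _ | k
  · simp [Nat.choose]
  have h1 := Nat.add_one_mul_choose_eq (k + 2) 3
  have h2 : ((k + 2 + 1 : ℕ) : ℝ) * ((k + 2).choose 3 : ℕ) = ((k + 2 + 1).choose 4 : ℕ) * (4 : ℕ) := by
    exact_mod_cast h1
  rw [choose_three_real] at h2
  have h3 : k + 1 + 2 = k + 2 + 1 := by ring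
  rw [h3]
  push_cast at h2 ⊢
  linarith

theorem Sop_coeff {f : ℝ[X]} {k : ℕ} (hf : f.natDegree ≤ k + 2) :
    (Sop f).coeff k = 4 * (k + 2) * (k + 1) * f.coeff (k + 2) := by
  unfold Sop
  rw [coeff_sub, coeff_add, two_mul_coeff, taylor_coeff_sum 2 f (m := 2) (by omega),
    taylor_coeff_sum (-2) f (m := 2) (by omega)]
  have h1 : (2 + k).choose k = (k + 2).choose 2 := by
    rw [add_comm 2 k, ← Nat.choose_symm_add]
  simp only [Finset.sum_range_succ, Finset.sum_range_zero, h1]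
  rw [choose_two_real, add_comm 2 k]
  push_cast
  simp only [zero_add, Nat.choose_self, Nat.cast_one, pow_zero, pow_one]
  ring

theorem Sop_shift_coeff {f : ℝ[X]} {k : ℕ} (hf : f.natDegree ≤ k + 2) :
    (Sop f * X ^ 2).coeff k = 4 * k * (k - 1) * f.coeff k
      + 4 / 3 * ((k + 2) * (k + 1) * k * (k - 1)) * f.coeff (k + 2) := by
  rw [coeff_mul_X_pow']
  split_ifs with hk
  · obtain ⟨l, rfl⟩ : ∃ l, k = l + 2 := ⟨k - 2, by omega⟩
    rw [Nat.add_sub_cancel]
    unfold Sop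
    rw [coeff_sub, coeff_add, two_mul_coeff, taylor_coeff_sum 2 f (m := 4) (by omega),
      taylor_coeff_sum (-2) f (m := 4) (by omega)]
    have h1 : (2 + l).choose l = (l + 2).choose 2 := by
      rw [add_comm 2 l, ← Nat.choose_symm_add]
    have h2 : (4 + l).choose l = (l + 2 + 2).choose 4 := by
      rw [add_comm 4 l]
      exact Nat.choose_symm_add
    simp only [Finset.sum_range_succ, Finset.sum_range_zero, h1, h2]
    rw [choose_two_real, choose_four_real, add_comm 2 l, add_comm 4 l]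
    push_cast
    simp only [zero_add, Nat.choose_self, Nat.cast_one, pow_zero, pow_one]
    ring
  · have : k = 0 ∨ k = 1 := by omega
    rcases this with rfl | rfl <;> simp

theorem Dop_shift_coeff {f : ℝ[X]} {k : ℕ} (hf : f.natDegree ≤ k + 2) :
    (Dop f * X ^ 1).coeff k = 4 * k * f.coeff k
      + 8 / 3 * ((k + 2) * (k + 1) * k) * f.coeff (k + 2) := by
  rw [coeff_mul_X_pow']
  split_ifs with hk
  · obtain ⟨l, rfl⟩ : ∃ l, k = l + 1 := ⟨k - 1, by omega⟩
    rw [Nat.add_sub_cancel]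
    unfold Dop
    rw [coeff_sub, taylor_coeff_sum 2 f (m := 3) (by omega),
      taylor_coeff_sum (-2) f (m := 3) (by omega)]
    have h1 : (1 + l).choose l = l + 1 := by
      rw [add_comm 1 l]; simp
    have h2 : (3 + l).choose l = (l + 1 + 2).choose 3 := by
      rw [add_comm 3 l]
      exact Nat.choose_symm_add
    simp only [Finset.sum_range_succ, Finset.sum_range_zero, h1, h2]
    rw [choose_three_real, add_comm 1 l, add_comm 3 l]
    push_cast
    simp only [zero_add, Nat.choose_self, Nat.cast_one, pow_zero, pow_one]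
    ring
  · have : k = 0 := by omega
    subst this
    simp

theorem Lop_coeff {f : ℝ[X]} {k : ℕ} (N : ℝ) (hf : f.natDegree ≤ k + 2) :
    (Lop N f).coeff k = 4 * (k + 2) * (k + 1) * ((N ^ 2 - 1) - k * (k + 3) / 3) * f.coeff (k + 2)
      - 4 * k * (k + 1) * f.coeff k := by
  rw [Lop_eq, coeff_sub, coeff_sub, coeff_C_mul, coeff_C_mul, Sop_coeff hf, Sop_shift_coeff hf,
    Dop_shift_coeff hf]
  ring

theorem Lop_coeff_top {f : ℝ[X]} {k : ℕ} (N : ℝ) (hf : f.natDegree ≤ k + 2) :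
    (Lop N f).coeff (k + 2) = - 4 * (k + 2) * (k + 3) * f.coeff (k + 2) := by
  have h := Lop_coeff (k := k + 2) N (f := f) (by omega)
  rw [h, coeff_eq_zero_of_natDegree_lt (by omega : f.natDegree < k + 2 + 2)]
  push_cast
  ring

end Pool.Agent.Lib.MP_50b5e1_nt.U
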