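import Pool.Agent.Lib.MP_50b5e1_nt.U.U6

/-!
# U7: the remainder for equally spaced nodes
-/

set_option autoImplicit false

namespace Pool.Agent.Lib.MP_50b5e1_nt.U

open Polynomial

/-- second and third coefficients of a product -/
theorem mul_coeff_top {p q : ℝ[X]} {m n : ℕ} (hp : p.natDegree ≤ m + 2) (hq : q.natDegree ≤ n + 2) :
    (p * q).coeff (m + n + 3) = p.coeff (m + 2) * q.coeff (n + 1) + p.coeff (m + 1) * q.coeff (n + 2) ∧
    (p * q).coeff (m + n + 2) = p.coeff (m + 2) * q.coeff n + p.coeff (m + 1) * q.coeff (n + 1)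
      + p.coeff m * q.coeff (n + 2) := by
  have h := reflect_mul p q hp hq
  have hp0 : (reflect (m + 2) p).coeff 0 = p.coeff (m + 2) := by rw [coeff_reflect, revAt_le (by omega)]; congr
  have hp1 : (reflect (m + 2) p).coeff 1 = p.coeff (m + 1) := by rw [coeff_reflect, revAt_le (by omega)]; congr
  have hp2 : (reflect (m + 2) p).coeff 2 = p.coeff m := by rw [coeff_reflect, revAt_le (by omega)]; congr
  have hq0 : (reflect (n + 2) q).coeff 0 = q.coeff (n + 2) := by rw [coeff_reflect, revAt_le (by omega)]; congr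
  have hq1 : (reflect (n + 2) q).coeff 1 = q.coeff (n + 1) := by rw [coeff_reflect, revAt_le (by omega)]; congr
  have hq2 : (reflect (n + 2) q).coeff 2 = q.coeff n := by rw [coeff_reflect, revAt_le (by omega)]; congr
  constructor
  · have h1 : (reflect (m + 2 + (n + 2)) (p * q)).coeff 1 = (p * q).coeff (m + n + 3) := by
      rw [coeff_reflect, revAt_le (by omega)]; congr 1; omega
    rw [← h1, h, coeff_mul]
    simp [Finset.Nat.antidiagonal_succ, hp0, hp1, hq0, hq1]
  · have h1 : (reflect (m + 2 + (n + 2)) (p * q)).coeff 2 = (p * q).coeff (m + n + 2) := by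
      rw [coeff_reflect, revAt_le (by omega)]; congr 1; omega
    rw [← h1, h, coeff_mul]
    simp [Finset.Nat.antidiagonal_succ, hp0, hp1, hp2, hq0, hq1, hq2]
    ring

/-- second and third coefficients of a power -/
theorem pow_coeff_top {A : ℝ[X]} {k : ℕ} (hA : A.Monic) (hdeg : A.natDegree = k + 2) (e : ℕ) :
    (A ^ (e + 1)).coeff ((k + 2) * e + k + 1) = (e + 1) * A.coeff (k + 1) ∧
    (A.coeff (k + 1) = 0 → (A ^ (e + 1)).coeff ((k + 2) * e + k) = (e + 1) * A.coeff k) := by
  have hlead : A.coeff (k + 2) = 1 := by rw [← hdeg]; exact hA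
  induction e with
  | zero => simp
  | succ e ih =>
    have hp : (A ^ (e + 1)).natDegree ≤ (k + 2) * e + k + 2 := by
      rw [hA.natDegree_pow, hdeg]
      exact le_of_eq (by ring)
    have hpl : (A ^ (e + 1)).coeff ((k + 2) * e + k + 2) = 1 := by
      have h1 := (hA.pow (e + 1)).coeff_natDegree
      rw [hA.natDegree_pow, hdeg] at h1
      rw [← h1]
      congr 1
      ring
    obtain ⟨h1, h2⟩ := mul_coeff_top (p := A ^ (e + 1)) (q := A) (m := (k + 2) * e + k) (n := k) hp hdeg.le
    constructor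
    · rw [pow_succ, show (k + 2) * (e + 1) + k + 1 = (k + 2) * e + k + k + 3 by ring, h1, hpl, hlead,
        ih.1]
      push_cast
      ring
    · intro h0
      rw [pow_succ, show (k + 2) * (e + 1) + k = (k + 2) * e + k + k + 2 by ring, h2, hpl, hlead,
        ih.2 h0, h0]
      push_cast
      ring

/-- second and third coefficients of `∏ (X - v i)` -/
theorem prod_coeff_one (v : ℕ → ℝ) (n : ℕ) :
    (∏ i ∈ Finset.range (n + 1), (X - C (v i))).coeff n = -∑ i ∈ Finset.range (n + 1), v i := by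
  induction n with
  | zero => simp
  | succ n ih =>
    rw [Finset.prod_range_succ, coeff_mul_X_sub_C, ih, Finset.sum_range_succ _ (n + 1)]
    have h1 : (∏ i ∈ Finset.range (n + 1), (X - C (v i))).coeff (n + 1) = 1 := by
      have h2 := (monic_prod_X_sub_C v (Finset.range (n + 1))).coeff_natDegree
      rw [natDegree_finsetProd_X_sub_C_eq_card, Finset.card_range] at h2
      exact h2
    rw [h1]
    ring

theorem prod_coeff_two (v : ℕ → ℝ) (n : ℕ) :
    (∏ i ∈ Finset.range (n + 2), (X - C (v i))).coeff n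
      = ((∑ i ∈ Finset.range (n + 2), v i) ^ 2 - ∑ i ∈ Finset.range (n + 2), v i ^ 2) / 2 := by
  induction n with
  | zero =>
    simp only [Finset.prod_range_succ, Finset.prod_range_zero, Finset.sum_range_succ,
      Finset.sum_range_zero, one_mul, zero_add]
    rw [mul_coeff_zero]
    simp
    ring
  | succ n ih =>
    rw [Finset.prod_range_succ, coeff_mul_X_sub_C, ih, Finset.sum_range_succ _ (n + 2),
      Finset.sum_range_succ _ (n + 2), prod_coeff_one v (n + 1)]
    ring

/-- the node polynomial over the reals -/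
noncomputable def Hn (N : ℕ) : ℝ[X] := Lagrange.nodal (Finset.range N) (nd N)

theorem Hn_coeff_one (n : ℕ) : (Hn (n + 1)).coeff n = 0 := by
  unfold Hn
  rw [Lagrange.nodal_eq, prod_coeff_one, nd_sum_one, neg_zero]

theorem Hn_coeff_two (n : ℕ) :
    (Hn (n + 2)).coeff n = -((n + 2 : ℕ) * (((n + 2 : ℕ) : ℝ) ^ 2 - 1) / 6) := by
  unfold Hn
  rw [Lagrange.nodal_eq, prod_coeff_two, nd_sum_one, nd_sum_two]
  ring

section Main

variable {a d : ℕ} {A R : ℝ[X]}

theorem rem_natDegree_lt (hc : ∀ n, a * (d - 1) ≤ n → R.coeff n = 0) (h0 : R ≠ 0) :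
    R.natDegree < a * (d - 1) := by
  by_contra hcon
  push Not at hcon
  exact h0 (leadingCoeff_eq_zero.1 (hc _ hcon))

/-- **no equality for `a ≥ 3`** -/
theorem no_eq {k : ℕ} (hk : 1 ≤ k) (hd : 2 ≤ d) (hA : A.Monic) (hdeg : A.natDegree = k + 2)
    (hR : Hn ((k + 2) * d) = A ^ d + R) (hc : ∀ n, (k + 2) * (d - 1) ≤ n → R.coeff n = 0) :
    R.natDegree + 2 * (k + 2) ≠ (k + 2) * d := by
  intro heq
  set N := (k + 2) * d with hN
  have hlead : A.coeff (k + 2) = 1 := by rw [← hdeg]; exact hA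
  obtain ⟨horth, -⟩ := deg_rem_eq (nd_injOn N _) (by omega) hd hA hdeg hR heq
  have hN1 : (k + 2) * 2 ≤ N := Nat.mul_le_mul_left _ hd
  -- the eigenvalue equation
  set B : ℝ[X] := Lop N A + C (4 * ((k : ℝ) + 2) * (k + 3)) * A with hB
  have hBdeg : B.natDegree ≤ k + 1 := by
    rw [natDegree_le_iff_coeff_eq_zero]
    intro n hn
    rw [hB, coeff_add, coeff_C_mul]
    rcases eq_or_lt_of_le (show k + 2 ≤ n by omega) with h | h
    · rw [← h, Lop_coeff_top _ hdeg.le, hlead]
      ring
    · rw [coeff_eq_zero_of_natDegree_lt (lt_of_le_of_lt (Lop_natDegree _ hdeg.le) h),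
        coeff_eq_zero_of_natDegree_lt (by omega : A.natDegree < n)]
      ring
  have hBorth : ∑ i ∈ Finset.range N, B.eval (nd N i) * B.eval (nd N i) = 0 := by
    have h1 : ∀ i, B.eval (nd N i) * B.eval (nd N i)
        = B.eval (nd N i) * (Lop N A).eval (nd N i)
          + 4 * ((k : ℝ) + 2) * (k + 3) * (B.eval (nd N i) * A.eval (nd N i)) := by
      intro i
      have : B.eval (nd N i) = (Lop N A).eval (nd N i)
          + 4 * ((k : ℝ) + 2) * (k + 3) * A.eval (nd N i) := by
        rw [hB]; simp [eval_add, eval_mul]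
      nth_rewrite 2 [this]
      ring
    rw [Finset.sum_congr rfl fun i _ => h1 i, Finset.sum_add_distrib, ← Finset.mul_sum,
      horth B (by omega), mul_zero, add_zero, Lop_symm N (by omega) A B]
    have h2 : (Lop N B).natDegree < k + 2 := by
      have := Lop_natDegree (f := B) (k := k - 1) (N : ℝ) (by omega)
      omega
    have h3 := horth (Lop N B) h2
    rw [← h3]
    exact Finset.sum_congr rfl fun i _ => mul_comm _ _
  have hB0 : B = 0 := by
    have h2 := (Finset.sum_eq_zero_iff_of_nonneg (fun i _ => mul_self_nonneg _)).1 hBorth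
    refine eq_zero_of_degree_lt_of_eval_index_eq_zero (s := Finset.range N) (nd_injOn N _) ?_ ?_
    · rw [Finset.card_range]
      refine lt_of_le_of_lt degree_le_natDegree ?_
      exact_mod_cast (by omega : B.natDegree < N)
    · intro i hi
      exact mul_self_eq_zero.1 (h2 i hi)
  have hBk : (Lop N A).coeff k + 4 * ((k : ℝ) + 2) * (k + 3) * A.coeff k = 0 := by
    have : B.coeff k = 0 := by rw [hB0]; simp
    rw [hB, coeff_add, coeff_C_mul] at this
    exact this
  rw [Lop_coeff _ hdeg.le, hlead] at hBk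
  -- matching the coefficients
  obtain ⟨e, rfl⟩ : ∃ e, d = e + 1 := ⟨d - 1, by omega⟩
  obtain ⟨p1, p2⟩ := pow_coeff_top hA hdeg e
  have e0 : N = (k + 2) * e + k + 2 := by rw [hN]; ring
  have he : k + 2 ≤ (k + 2) * e := by nlinarith
  have q1 : (Hn N).coeff ((k + 2) * e + k + 1) = 0 := by
    rw [e0]
    exact Hn_coeff_one _
  have q2 : (Hn N).coeff ((k + 2) * e + k) = -((N : ℝ) * ((N : ℝ) ^ 2 - 1) / 6) := by
    rw [e0]
    exact Hn_coeff_two _
  rw [hR, coeff_add, hc _ (by simp only [Nat.add_sub_cancel]; omega), add_zero, p1] at q1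
  have hA1 : A.coeff (k + 1) = 0 := by
    rcases mul_eq_zero.1 q1 with h | h
    · exact absurd h (by positivity)
    · exact h
  rw [hR, coeff_add, hc _ (by simp only [Nat.add_sub_cancel]; omega), add_zero, p2 hA1] at q2
  have hNr : (N : ℝ) = (k + 2) * (e + 1) := by rw [hN]; push_cast; ring
  have hc2 : A.coeff k = -(((k : ℝ) + 2) * ((N : ℝ) ^ 2 - 1) / 6) := by
    have he1 : ((e : ℝ) + 1) ≠ 0 := by positivity
    have : ((e : ℝ) + 1) * A.coeff k = ((e : ℝ) + 1) * -(((k : ℝ) + 2) * ((N : ℝ) ^ 2 - 1) / 6) := by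
      rw [q2]
      nth_rewrite 1 [hNr]
      ring
    exact mul_left_cancel₀ he1 this
  rw [hc2] at hBk
  have hk0 : (0 : ℝ) < k := by exact_mod_cast hk
  have h5 : (k : ℝ) * ((k : ℝ) + 2) * (((N : ℝ) ^ 2 - 1) - (k + 1) * (k + 3)) = 0 := by
    nlinarith
  have h6 : ((N : ℝ) ^ 2 - 1) - (k + 1) * (k + 3) = 0 := by
    rcases mul_eq_zero.1 h5 with h | h
    · exact absurd h (by positivity)
    · exact h
  have h7 : (2 * ((k : ℝ) + 2)) ≤ N := by exact_mod_cast (by omega : 2 * (k + 2) ≤ N)
  nlinarith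

end Main

end Pool.Agent.Lib.MP_50b5e1_nt.U
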