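import Pool.Agent.Lib.MP_50b5e1_nt.U.U4
import Pool.Agent.Lib.MP_50b5e1_nt.U.U7

/-!
# U8: degree one and two, and the transfer to the integer polynomials
-/

set_option autoImplicit false

namespace Pool.Agent.Lib.MP_50b5e1_nt.U

open Polynomial

/-- degree one -/
theorem case_one {d : ℕ} (hd : 2 ≤ d) {A R : ℝ[X]} (hA : A.Monic) (hdeg : A.natDegree = 1)
    (hR : Hn (1 * d) = A ^ d + R) (heq : R.natDegree + 2 * 1 = 1 * d) :
    R.leadingCoeff = -((d : ℝ) * ((d : ℝ) ^ 2 - 1) / 6) := by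
  obtain ⟨h1, h2⟩ := deg_rem_eq (nd_injOn (1 * d) _) le_rfl hd hA hdeg hR heq
  have hlead : A.coeff 1 = 1 := by rw [← hdeg]; exact hA
  have hev : ∀ x, A.eval x = x + A.coeff 0 := by
    intro x
    rw [eval_eq_sum_range, hdeg]
    simp only [Finset.sum_range_succ, Finset.sum_range_zero, hlead]
    ring
  have h3 := h1 (C 1) (by simp)
  have hdr : (2 : ℝ) ≤ d := by exact_mod_cast hd
  simp only [eval_C, one_mul, hev] at h3
  rw [Finset.sum_add_distrib] at h3
  have h4 := nd_sum_one d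
  have h5 := nd_sum_two d
  rw [h4] at h3
  simp only [Finset.sum_const, Finset.card_range, nsmul_eq_mul, zero_add, mul_eq_zero] at h3
  have h6 : A.coeff 0 = 0 := by
    rcases h3 with h | h
    · linarith
    · exact h
  simp only [hev, h6, add_zero, one_mul] at h2
  have h7 : ∑ i ∈ Finset.range d, nd d i * nd d i = (d : ℝ) * ((d : ℝ) ^ 2 - 1) / 3 := by
    rw [← h5]
    exact Finset.sum_congr rfl fun i _ => by ring
  rw [h7] at h2
  push_cast at h2
  linarith

/-- degree two, the case of equality -/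
theorem case_two {d : ℕ} (hd : 2 ≤ d) {A R : ℝ[X]} (hA : A.Monic) (hdeg : A.natDegree = 2)
    (hR : Hn (2 * d) = A ^ d + R) (heq : R.natDegree + 2 * 2 = 2 * d) :
    R.leadingCoeff = -(8 * (d : ℝ) * (4 * (d : ℝ) ^ 2 - 1) * ((d : ℝ) ^ 2 - 1) / 45) := by
  obtain ⟨h1, h2⟩ := deg_rem_eq (nd_injOn (2 * d) _) (by norm_num) hd hA hdeg hR heq
  have hlead : A.coeff 2 = 1 := by rw [← hdeg]; exact hA
  have hev : ∀ x, A.eval x = x ^ 2 + A.coeff 1 * x + A.coeff 0 := by
    intro x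
    rw [eval_eq_sum_range, hdeg]
    simp only [Finset.sum_range_succ, Finset.sum_range_zero, hlead]
    ring
  have hdr : (2 : ℝ) ≤ d := by exact_mod_cast hd
  have s1 := nd_sum_one (2 * d)
  have s2 := nd_sum_two (2 * d)
  have s3 := nd_sum_three (2 * d)
  have s4 := nd_sum_four (2 * d)
  set v := nd (2 * d) with hv
  set b := A.coeff 1 with hb
  set c := A.coeff 0 with hc
  have h3 := h1 (C 1) (by simp)
  have h4 := h1 X (by simp)
  have e3 : ∑ i ∈ Finset.range (2 * d), (C (1 : ℝ)).eval (v i) * A.eval (v i)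
      = ∑ i ∈ Finset.range (2 * d), v i ^ 2 + b * ∑ i ∈ Finset.range (2 * d), v i
        + (2 * d : ℕ) * c := by
    rw [Finset.mul_sum, ← Finset.sum_add_distrib]
    have : ((2 * d : ℕ) : ℝ) * c = ∑ _i ∈ Finset.range (2 * d), c := by simp
    rw [this, ← Finset.sum_add_distrib]
    refine Finset.sum_congr rfl fun i _ => ?_
    rw [hev, eval_C]
    ring
  have e4 : ∑ i ∈ Finset.range (2 * d), (X : ℝ[X]).eval (v i) * A.eval (v i)
      = ∑ i ∈ Finset.range (2 * d), v i ^ 3 + b * ∑ i ∈ Finset.range (2 * d), v i ^ 2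
        + c * ∑ i ∈ Finset.range (2 * d), v i := by
    rw [Finset.mul_sum, Finset.mul_sum, ← Finset.sum_add_distrib, ← Finset.sum_add_distrib]
    refine Finset.sum_congr rfl fun i _ => ?_
    rw [hev, eval_X]
    ring
  rw [e3, s1, s2] at h3
  rw [e4, s1, s2, s3] at h4
  push_cast at h3 h4 s1 s2 s3 s4
  have hb0 : b = 0 := by
    have h5 : b * (2 * (d : ℝ) * ((2 * (d : ℝ)) ^ 2 - 1) / 3) = 0 := by linarith
    rcases mul_eq_zero.1 h5 with h | h
    · exact h
    · exfalso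
      have : 0 < 2 * (d : ℝ) * ((2 * (d : ℝ)) ^ 2 - 1) / 3 := by
        have : (0 : ℝ) < (2 * (d : ℝ)) ^ 2 - 1 := by nlinarith
        positivity
      linarith
  have hc0 : c = -((2 * (d : ℝ)) ^ 2 - 1) / 3 := by
    have h5 : 2 * (d : ℝ) * (((2 * (d : ℝ)) ^ 2 - 1) / 3 + c) = 0 := by
      rw [hb0] at h3
      linarith
    rcases mul_eq_zero.1 h5 with h | h
    · linarith
    · linarith
  have e5 : ∑ i ∈ Finset.range (2 * d), A.eval (v i) * A.eval (v i)
      = ∑ i ∈ Finset.range (2 * d), v i ^ 4 + 2 * c * ∑ i ∈ Finset.range (2 * d), v i ^ 2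
        + (2 * d : ℕ) * c ^ 2 := by
    rw [Finset.mul_sum, ← Finset.sum_add_distrib]
    have : ((2 * d : ℕ) : ℝ) * c ^ 2 = ∑ _i ∈ Finset.range (2 * d), c ^ 2 := by simp
    rw [this, ← Finset.sum_add_distrib]
    refine Finset.sum_congr rfl fun i _ => ?_
    rw [hev, hb0]
    ring
  rw [e5, s4, s2, hc0] at h2
  push_cast at h2
  have h6 : R.leadingCoeff = (1 / 4) * (2 * 2 * R.leadingCoeff) := by ring
  rw [h6, h2]
  ring

/-- the node polynomial over the reals, after scaling -/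
theorem nodeP_comp {s : ℤ} (N : ℕ) :
    ((nodeP s N).map (Int.castRingHom ℝ)).comp (C (s : ℝ) * X) = C ((s : ℝ) ^ N) * Hn N := by
  unfold nodeP Hn
  rw [Lagrange.nodal_eq, Polynomial.map_prod, prod_comp, C_pow]
  have : (C (s : ℝ)) ^ N = ∏ _i ∈ Finset.range N, C (s : ℝ) := by simp
  rw [this, ← Finset.prod_mul_distrib]
  refine Finset.prod_congr rfl fun i _ => ?_
  simp only [Polynomial.map_add, map_X, map_C, add_comp, X_comp, C_comp, nd]
  simp only [eq_intCast, Int.cast_mul, Int.cast_sub, Int.cast_ofNat, Int.cast_natCast, Int.cast_one,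
    map_mul, map_sub]
  ring

/-- **facts about the remainder** -/
theorem rem_facts {a d : ℕ} (ha : 1 ≤ a) (hd : 2 ≤ d) {s : ℤ} (hs : 0 < s) {A R : ℤ[X]}
    (hA : A.Monic) (hdeg : A.natDegree = a) (hR : nodeP s (a * d) = A ^ d + R)
    (hc : ∀ n, a * (d - 1) ≤ n → R.coeff n = 0) :
    R ≠ 0 ∧ R.natDegree < a * (d - 1) ∧ a * d ≤ R.natDegree + 2 * a ∧
    (3 ≤ a → R.natDegree + 2 * a ≠ a * d) ∧
    (a = 1 → (R.leadingCoeff : ℝ) = -((s : ℝ) ^ 2 * ((d : ℝ) * ((d : ℝ) ^ 2 - 1) / 6))) ∧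
    (a = 2 → R.natDegree + 2 * a = a * d → (R.leadingCoeff : ℝ)
      = -((s : ℝ) ^ 4 * (8 * (d : ℝ) * (4 * (d : ℝ) ^ 2 - 1) * ((d : ℝ) ^ 2 - 1) / 45))) := by
  have hs0 : (s : ℝ) ≠ 0 := by exact_mod_cast hs.ne'
  set N := a * d with hN
  set ι := Int.castRingHom ℝ with hι
  have hinj : Function.Injective ι := RingHom.injective_int ι
  set A1 : ℝ[X] := C (((s : ℝ) ^ a)⁻¹) * (A.map ι).comp (C (s : ℝ) * X) with hA1
  set R1 : ℝ[X] := C (((s : ℝ) ^ N)⁻¹) * (R.map ι).comp (C (s : ℝ) * X) with hR1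
  have cA : ∀ n, A1.coeff n = ((s : ℝ) ^ a)⁻¹ * ((A.coeff n : ℝ) * (s : ℝ) ^ n) := by
    intro n
    rw [hA1, coeff_C_mul, comp_C_mul_X_coeff, coeff_map]
    rfl
  have cR : ∀ n, R1.coeff n = ((s : ℝ) ^ N)⁻¹ * ((R.coeff n : ℝ) * (s : ℝ) ^ n) := by
    intro n
    rw [hR1, coeff_C_mul, comp_C_mul_X_coeff, coeff_map]
    rfl
  have hA1deg : A1.natDegree = a := by
    apply le_antisymm
    · rw [natDegree_le_iff_coeff_eq_zero]
      intro n hn
      rw [cA, coeff_eq_zero_of_natDegree_lt (by omega)]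
      simp
    · apply le_natDegree_of_ne_zero
      rw [cA, ← hdeg, hA.coeff_natDegree, hdeg]
      simp [hs0]
  have hA1m : A1.Monic := by
    rw [Monic, leadingCoeff, hA1deg, cA]
    have := hA.coeff_natDegree
    rw [hdeg] at this
    rw [this]
    field_simp
    simp
  have hcoef : ∀ n, R1.coeff n = 0 ↔ R.coeff n = 0 := by
    intro n
    rw [cR]
    constructor
    · intro h
      simp only [mul_eq_zero, inv_eq_zero, pow_eq_zero_iff', hs0, false_and, or_false, false_or,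
        Int.cast_eq_zero] at h
      exact h
    · intro h
      rw [h]
      simp
  have hdegR : R1.natDegree = R.natDegree := by
    apply le_antisymm
    · rw [natDegree_le_iff_coeff_eq_zero]
      intro n hn
      rw [hcoef]
      exact coeff_eq_zero_of_natDegree_lt hn
    · rw [natDegree_le_iff_coeff_eq_zero]
      intro n hn
      rw [← hcoef]
      exact coeff_eq_zero_of_natDegree_lt hn
  have hmain : Hn N = A1 ^ d + R1 := by
    have h1 := congrArg (fun p : ℤ[X] => (p.map ι).comp (C (s : ℝ) * X)) hR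
    simp only [Polynomial.map_add, Polynomial.map_pow, add_comp, pow_comp] at h1
    rw [nodeP_comp] at h1
    have h2 : Hn N = C (((s : ℝ) ^ N)⁻¹) * (C ((s : ℝ) ^ N) * Hn N) := by
      rw [← mul_assoc, ← C_mul, inv_mul_cancel₀ (pow_ne_zero _ hs0), C_1, one_mul]
    rw [h2, h1, hA1, hR1, mul_add, mul_pow]
    congr 2
    rw [← C_pow, inv_pow, ← pow_mul]
  have hc1 : ∀ n, a * (d - 1) ≤ n → R1.coeff n = 0 := fun n hn => (hcoef n).2 (hc n hn)
  obtain ⟨f1, f2⟩ := deg_rem (nd_injOn N _) ha hd hA1m hA1deg hmain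
  have f3 := rem_natDegree_lt hc1 f1
  rw [hdegR] at f2 f3
  have hlc : ∀ j, R.natDegree + j = N → (R.leadingCoeff : ℝ) = (s : ℝ) ^ j * R1.leadingCoeff := by
    intro j hj
    rw [leadingCoeff, leadingCoeff, hdegR, cR, ← hj, pow_add]
    have h1 := pow_ne_zero R.natDegree hs0
    have h2 := pow_ne_zero j hs0
    field_simp
  refine ⟨?_, f3, f2, ?_, ?_, ?_⟩
  · rintro rfl
    apply f1
    rw [hR1]
    simp
  · intro h3 heq
    obtain ⟨k, rfl⟩ : ∃ k, a = k + 2 := ⟨a - 2, by omega⟩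
    refine no_eq (k := k) (by omega) hd hA1m hA1deg hmain hc1 ?_
    rw [hdegR]
    exact heq
  · rintro rfl
    have heq : R.natDegree + 2 = 1 * d := by omega
    rw [hlc 2 heq, case_one hd hA1m hA1deg hmain (by rw [hdegR]; omega)]
    ring
  · rintro rfl heq
    rw [hlc 4 heq, case_two hd hA1m hA1deg hmain (by rw [hdegR]; omega)]
    ring

end Pool.Agent.Lib.MP_50b5e1_nt.U
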